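import Mathlib

set_option autoImplicit false

/-!
# Project MQ: the weighted means, abstractly (helper20)
-/

namespace Pool.Agent.W2helper20.MQ

open Finset

lemma amgm (x η : ℝ) (hη : 0 < η) : x ≤ η / 2 * x ^ 2 + 1 / (2 * η) := by
  have h : 0 ≤ (η * x - 1) ^ 2 / (2 * η) := by positivity
  have e : (η * x - 1) ^ 2 / (2 * η) = η / 2 * x ^ 2 + 1 / (2 * η) - x := by
    field_simp
    ring
  linarith

theorem abs1 {ι : Type} [DecidableEq ι] (I G : Finset ι) (hG : G ⊆ I) (w Pc Mc a h : ι → ℝ)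
    (T M0 H ρ ε β : ℝ) (hw : ∀ j ∈ I, 0 ≤ w j) (hT : 0 < T) (hM0 : 0 < M0) (hε0 : 0 < ε)
    (hε : ε ≤ 1 / 10) (hPc : ∀ j ∈ I, 0 ≤ Pc j ∧ Pc j ≤ H)
    (hMc : ∀ j ∈ I, w j ≠ 0 → |Mc j - M0| ≤ ε * M0) (ha : ∀ j ∈ I, 0 ≤ a j)
    (ha1 : |∑ j ∈ I, w j * a j - T| ≤ ε * T) (ha2 : ∑ j ∈ I, w j * a j ^ 2 ≤ 4 * T)
    (hβ : ∑ j ∈ I \ G, w j ≤ β * T) (hH : 0 ≤ H) (hβ1 : H * β ≤ ε * M0) (hβ2 : β ≤ ε ^ 2)
    (hh : ∀ j ∈ G, |a j - h j| ≤ ε * h j)
    (hP : |∑ j ∈ I, w j * Pc j - T * M0 * ρ| ≤ ε * (T * M0)) :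
    |∑ j ∈ G, w j * (Pc j - h j * Mc j) - T * M0 * (ρ - 1)| ≤ 20 * ε * (T * M0) ∧
    |∑ j ∈ G, w j * (h j * Mc j) - T * M0| ≤ 20 * ε * (T * M0) := by
  have hTM : 0 < T * M0 := mul_pos hT hM0
  have hsplit : ∀ f : ι → ℝ, ∑ j ∈ I, f j = ∑ j ∈ G, f j + ∑ j ∈ I \ G, f j := by
    intro f
    rw [add_comm, sum_sdiff hG]
  have hwG : ∀ j ∈ G, 0 ≤ w j := fun j hj => hw j (hG hj)
  have hwI : ∀ j ∈ I \ G, 0 ≤ w j := fun j hj => hw j (mem_sdiff.1 hj).1
  -- primes on the bad rows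
  have hPbad : ∑ j ∈ I \ G, w j * Pc j ≤ ε * (T * M0) := by
    calc ∑ j ∈ I \ G, w j * Pc j ≤ ∑ j ∈ I \ G, w j * H :=
          sum_le_sum fun j hj => mul_le_mul_of_nonneg_left (hPc j (mem_sdiff.1 hj).1).2 (hwI j hj)
      _ = H * ∑ j ∈ I \ G, w j := by rw [← sum_mul, mul_comm]
      _ ≤ H * (β * T) := mul_le_mul_of_nonneg_left hβ hH
      _ = H * β * T := by ring
      _ ≤ ε * M0 * T := mul_le_mul_of_nonneg_right hβ1 hT.le
      _ = ε * (T * M0) := by ring
  have hPbad0 : 0 ≤ ∑ j ∈ I \ G, w j * Pc j :=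
    sum_nonneg fun j hj => mul_nonneg (hwI j hj) (hPc j (mem_sdiff.1 hj).1).1
  have hPG : |∑ j ∈ G, w j * Pc j - T * M0 * ρ| ≤ 2 * ε * (T * M0) := by
    have e := hsplit (fun j => w j * Pc j)
    obtain ⟨h1, h2⟩ := abs_le.1 hP
    rw [abs_le]
    constructor <;> linarith
  -- the constant on the bad rows
  have habad : ∑ j ∈ I \ G, w j * a j ≤ 3 * ε * T := by
    calc ∑ j ∈ I \ G, w j * a j ≤ ∑ j ∈ I \ G, (ε / 2 * (w j * a j ^ 2) + 1 / (2 * ε) * w j) := by
          apply sum_le_sum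
          intro j hj
          have := mul_le_mul_of_nonneg_left (amgm (a j) ε hε0) (hwI j hj)
          linarith
      _ = ε / 2 * ∑ j ∈ I \ G, w j * a j ^ 2 + 1 / (2 * ε) * ∑ j ∈ I \ G, w j := by
          rw [sum_add_distrib, mul_sum, mul_sum]
      _ ≤ ε / 2 * (4 * T) + 1 / (2 * ε) * (ε ^ 2 * T) := by
          apply add_le_add
          · apply mul_le_mul_of_nonneg_left _ (by positivity)
            refine le_trans ?_ ha2
            apply sum_le_sum_of_subset_of_nonneg sdiff_subset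
            intro j hj _
            exact mul_nonneg (hw j hj) (sq_nonneg _)
          · apply mul_le_mul_of_nonneg_left _ (by positivity)
            exact hβ.trans (mul_le_mul_of_nonneg_right hβ2 hT.le)
      _ = 2 * ε * T + ε / 2 * T := by field_simp; ring
      _ ≤ 3 * ε * T := by
          have : 0 < ε * T := mul_pos hε0 hT
          linarith
  have habad0 : 0 ≤ ∑ j ∈ I \ G, w j * a j :=
    sum_nonneg fun j hj => mul_nonneg (hwI j hj) (ha j (mem_sdiff.1 hj).1)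
  have haG : |∑ j ∈ G, w j * a j - T| ≤ 4 * ε * T := by
    have e := hsplit (fun j => w j * a j)
    obtain ⟨h1, h2⟩ := abs_le.1 ha1
    rw [abs_le]
    constructor <;> linarith
  -- the prediction on the good rows
  have hterm : ∀ j ∈ G, |w j * (h j * Mc j) - w j * a j * M0| ≤ 4 * ε * M0 * (w j * a j) := by
    intro j hj
    by_cases hw0 : w j = 0
    · rw [hw0]; simp
    have hm := hMc j (hG hj) hw0
    have hhj := hh j hj
    have haj := ha j (hG hj)
    obtain ⟨h1, h2⟩ := abs_le.1 hhj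
    obtain ⟨h3, h4⟩ := abs_le.1 hm
    have hh0 : 0 ≤ h j := by
      by_contra hcon
      push Not at hcon
      have : ε * h j < 0 := mul_neg_of_pos_of_neg hε0 hcon
      linarith [abs_nonneg (a j - h j)]
    have h5 : |h j - a j| ≤ 2 * ε * a j := by
      rw [abs_le]
      constructor
      · nlinarith
      · nlinarith
    have h6 : |Mc j| ≤ 11 / 10 * M0 := by
      rw [abs_le]
      constructor <;> nlinarith
    have e : w j * (h j * Mc j) - w j * a j * M0 =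
        w j * ((h j - a j) * Mc j + a j * (Mc j - M0)) := by ring
    rw [e, abs_mul, abs_of_nonneg (hw j (hG hj))]
    calc w j * |(h j - a j) * Mc j + a j * (Mc j - M0)| ≤
          w j * (2 * ε * a j * (11 / 10 * M0) + a j * (ε * M0)) := by
          apply mul_le_mul_of_nonneg_left _ (hw j (hG hj))
          refine (abs_add_le _ _).trans ?_
          rw [abs_mul, abs_mul, abs_of_nonneg haj]
          apply add_le_add
          · exact mul_le_mul h5 h6 (abs_nonneg _) (by positivity)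
          · exact mul_le_mul_of_nonneg_left hm haj
      _ = 32 / 10 * ε * M0 * (w j * a j) := by ring
      _ ≤ 4 * ε * M0 * (w j * a j) := by
          apply mul_le_mul_of_nonneg_right _ (mul_nonneg (hw j (hG hj)) haj)
          have : 0 < ε * M0 := mul_pos hε0 hM0
          linarith
  have hN : |∑ j ∈ G, w j * (h j * Mc j) - T * M0| ≤ 10 * ε * (T * M0) := by
    have h1 : |∑ j ∈ G, w j * (h j * Mc j) - (∑ j ∈ G, w j * a j) * M0| ≤
        4 * ε * M0 * ∑ j ∈ G, w j * a j := by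
      rw [sum_mul, ← sum_sub_distrib, mul_sum]
      exact (abs_sum_le_sum_abs _ _).trans (sum_le_sum hterm)
    set s := ∑ j ∈ G, w j * a j with hs
    obtain ⟨h2, h3⟩ := abs_le.1 haG
    have h4 : s ≤ 14 / 10 * T := by nlinarith
    have h5 : 4 * ε * M0 * s ≤ 56 / 10 * ε * (T * M0) := by
      have : 0 < ε * M0 := mul_pos hε0 hM0
      nlinarith
    have h6 : |s * M0 - T * M0| ≤ 4 * ε * (T * M0) := by
      rw [← sub_mul, abs_mul, abs_of_pos hM0]
      calc |s - T| * M0 ≤ 4 * ε * T * M0 := mul_le_mul_of_nonneg_right haG hM0.le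
        _ = _ := by ring
    calc |∑ j ∈ G, w j * (h j * Mc j) - T * M0| =
          |(∑ j ∈ G, w j * (h j * Mc j) - s * M0) + (s * M0 - T * M0)| := by ring_nf
      _ ≤ |∑ j ∈ G, w j * (h j * Mc j) - s * M0| + |s * M0 - T * M0| := abs_add_le _ _
      _ ≤ 10 * ε * (T * M0) := by
          have : 0 < ε * (T * M0) := mul_pos hε0 hTM
          linarith
  constructor
  · have e1 : ∑ j ∈ G, w j * (Pc j - h j * Mc j) - T * M0 * (ρ - 1) =
        (∑ j ∈ G, w j * Pc j - T * M0 * ρ) - (∑ j ∈ G, w j * (h j * Mc j) - T * M0) := by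
      have : ∑ j ∈ G, w j * (Pc j - h j * Mc j) =
          ∑ j ∈ G, w j * Pc j - ∑ j ∈ G, w j * (h j * Mc j) := by
        rw [← sum_sub_distrib]
        apply sum_congr rfl
        intro j _
        ring
      rw [this]
      ring
    rw [e1]
    refine (abs_sub _ _).trans ?_
    have : 0 < ε * (T * M0) := mul_pos hε0 hTM
    linarith
  · refine hN.trans ?_
    have : 0 < ε * (T * M0) := mul_pos hε0 hTM
    linarith

/-- the irregular rows have a large weight -/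
theorem abs2 {ι : Type} [DecidableEq ι] (I G : Finset ι) (hG : G ⊆ I) (w Pc Mc a h : ι → ℝ)
    (T M0 H ε δ σ : ℝ) (hw : ∀ j ∈ I, 0 ≤ w j) (hT : 0 < T) (hM0 : 0 < M0)
    (hε0 : 0 < ε) (hε : ε ≤ 1 / 10)
    (hPc : ∀ j ∈ I, 0 ≤ Pc j ∧ Pc j ≤ H)
    (hMc : ∀ j ∈ I, w j ≠ 0 → |Mc j - M0| ≤ ε * M0) (ha : ∀ j ∈ I, 0 ≤ a j)
    (ha2 : ∑ j ∈ I, w j * a j ^ 2 ≤ 4 * T) (hh : ∀ j ∈ G, |a j - h j| ≤ ε * h j)
    (hσ : σ = 1 ∨ σ = -1) (hδ0 : 0 < δ)
    (hD : 3 / 2 * δ * (T * M0) ≤ σ * ∑ j ∈ G, w j * (Pc j - h j * Mc j))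
    (hN : ∑ j ∈ G, w j * (h j * Mc j) ≤ 11 / 10 * (T * M0)) :
    3 / 10 * δ * (T * M0) ≤ (H + 40 * M0 / δ) *
      ∑ j ∈ G.filter (fun j => δ * (h j * Mc j) ≤ σ * (Pc j - h j * Mc j)), w j := by
  classical
  set A := G.filter (fun j => δ * (h j * Mc j) ≤ σ * (Pc j - h j * Mc j)) with hA
  have hTM : 0 < T * M0 := mul_pos hT hM0
  have hAG : A ⊆ G := filter_subset _ _
  have hh0 : ∀ j ∈ G, 0 ≤ h j := by
    intro j hj
    by_contra hcon
    push Not at hcon
    have : ε * h j < 0 := mul_neg_of_pos_of_neg hε0 hcon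
    linarith [abs_nonneg (a j - h j), hh j hj]
  have hMc0 : ∀ j ∈ I, w j ≠ 0 → 0 ≤ Mc j ∧ Mc j ≤ 11 / 10 * M0 := by
    intro j hj hw0
    obtain ⟨h3, h4⟩ := abs_le.1 (hMc j hj hw0)
    constructor <;> nlinarith
  -- the terms of `G`
  have hterm : ∀ j ∈ G, σ * (w j * (Pc j - h j * Mc j)) ≤
      (if δ * (h j * Mc j) ≤ σ * (Pc j - h j * Mc j) then w j * (Pc j + h j * Mc j) else 0) +
        δ * (w j * (h j * Mc j)) := by
    intro j hj
    by_cases hw0 : w j = 0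
    · rw [hw0]; simp
    have hwj := hw j (hG hj)
    obtain ⟨h1, h2⟩ := hMc0 j (hG hj) hw0
    have h3 := hh0 j hj
    have h4 := (hPc j (hG hj)).1
    have h5 : 0 ≤ h j * Mc j := mul_nonneg h3 h1
    have h6 : 0 ≤ w j * (h j * Mc j) := mul_nonneg hwj h5
    have h7 : 0 ≤ w j * Pc j := mul_nonneg hwj h4
    have h8 : 0 ≤ δ * (w j * (h j * Mc j)) := mul_nonneg hδ0.le h6
    split_ifs with hc
    · rcases hσ with h | h <;> rw [h] <;> nlinarith
    · push Not at hc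
      have := mul_le_mul_of_nonneg_left hc.le hwj
      linarith
  have hsum := sum_le_sum hterm
  rw [← mul_sum, sum_add_distrib, ← mul_sum, ← sum_filter, ← hA] at hsum
  have h1 : 4 / 10 * δ * (T * M0) ≤ ∑ j ∈ A, w j * (Pc j + h j * Mc j) := by
    have h2 : δ * ∑ j ∈ G, w j * (h j * Mc j) ≤ δ * (11 / 10 * (T * M0)) :=
      mul_le_mul_of_nonneg_left hN hδ0.le
    linarith
  -- upper bound
  have h2 : ∑ j ∈ A, w j * (Pc j + h j * Mc j) ≤
      H * ∑ j ∈ A, w j + 2 * M0 * ∑ j ∈ A, w j * a j := by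
    rw [mul_sum, mul_sum, ← sum_add_distrib]
    apply sum_le_sum
    intro j hj
    have hjG := hAG hj
    by_cases hw0 : w j = 0
    · rw [hw0]; simp
    have hwj := hw j (hG hjG)
    obtain ⟨h3, h4⟩ := hMc0 j (hG hjG) hw0
    have h5 := hh0 j hjG
    have h6 := (hPc j (hG hjG)).2
    have h7 := ha j (hG hjG)
    obtain ⟨h8, h9⟩ := abs_le.1 (hh j hjG)
    have h10 : h j ≤ 12 / 10 * a j := by nlinarith
    have h11 : h j * Mc j ≤ 12 / 10 * a j * (11 / 10 * M0) :=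
      mul_le_mul h10 h4 h3 (by positivity)
    have h12 : w j * (h j * Mc j) ≤ w j * (12 / 10 * a j * (11 / 10 * M0)) :=
      mul_le_mul_of_nonneg_left h11 hwj
    have h13 : w j * Pc j ≤ w j * H := mul_le_mul_of_nonneg_left h6 hwj
    have h14 : 0 ≤ w j * a j * M0 := by positivity
    nlinarith
  have h3 : ∑ j ∈ A, w j * a j ≤ δ / 40 / 2 * (4 * T) + 1 / (2 * (δ / 40)) * ∑ j ∈ A, w j := by
    calc ∑ j ∈ A, w j * a j ≤
          ∑ j ∈ A, (δ / 40 / 2 * (w j * a j ^ 2) + 1 / (2 * (δ / 40)) * w j) := by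
          apply sum_le_sum
          intro j hj
          have := mul_le_mul_of_nonneg_left (amgm (a j) (δ / 40) (by positivity))
            (hw j (hG (hAG hj)))
          linarith
      _ = δ / 40 / 2 * ∑ j ∈ A, w j * a j ^ 2 + 1 / (2 * (δ / 40)) * ∑ j ∈ A, w j := by
          rw [sum_add_distrib, mul_sum, mul_sum]
      _ ≤ _ := by
          apply add_le_add _ le_rfl
          apply mul_le_mul_of_nonneg_left _ (by positivity)
          refine le_trans ?_ ha2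
          apply sum_le_sum_of_subset_of_nonneg (hAG.trans hG)
          intro j hj _
          exact mul_nonneg (hw j hj) (sq_nonneg _)
  have h4 : 2 * M0 * ∑ j ∈ A, w j * a j ≤
      1 / 10 * δ * (T * M0) + 40 * M0 / δ * ∑ j ∈ A, w j := by
    refine (mul_le_mul_of_nonneg_left h3 (by positivity)).trans (le_of_eq ?_)
    field_simp
    ring
  have e : (H + 40 * M0 / δ) * ∑ j ∈ A, w j = H * ∑ j ∈ A, w j + 40 * M0 / δ * ∑ j ∈ A, w j := by
    ring
  rw [e]
  linarith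

end Pool.Agent.W2helper20.MQ
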