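import Pool.Agent.W468.CFLow
import Pool.Agent.TH892.SW.S3

set_option autoImplicit false

/-!
# Project MQ: products of quadratic characters in progressions (helper20)
-/

namespace Pool.Agent.W2helper20.MQ

open Finset
open Pool.Agent.W468.ConjF
open Pool.Agent.TH892.SW (HP)

/-- complete sums over a set of odd primes -/
lemma full_sum (T : Finset ℕ) (α β : ℤ) (hT : ∀ p ∈ T, p.Prime ∧ p ≠ 2 ∧ ¬ (p : ℤ) ∣ β)
    (hne : T.Nonempty) :
    ∑ c ∈ range (∏ p ∈ T, p), ∏ p ∈ T, jacobiSym (α + β * c) p = 0 := by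
  classical
  obtain ⟨q, hq⟩ := hne
  obtain ⟨hqp, hq2, hqβ⟩ := hT q hq
  obtain ⟨m, hm⟩ : ∃ m, m = ∏ p ∈ T.erase q, p := ⟨_, rfl⟩
  have hprod : ∏ p ∈ T, p = m * q := by rw [hm, ← Finset.prod_erase_mul _ _ hq]
  have hpr : ∀ x : ℤ, ∏ p ∈ T, jacobiSym x p =
      (∏ p ∈ T.erase q, jacobiSym x p) * jacobiSym x q := fun x =>
    (Finset.prod_erase_mul T _ hq).symm
  rw [hprod]
  simp_rw [hpr]
  rw [sum_range_mul' (fun c => (∏ p ∈ T.erase q, jacobiSym (α + β * c) p) *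
    jacobiSym (α + β * c) q), sum_comm]
  apply sum_eq_zero
  intro u _
  have h1 : ∀ v ∈ range q, (∏ p ∈ T.erase q, jacobiSym (α + β * ((m * v + u : ℕ) : ℤ)) p) *
      jacobiSym (α + β * ((m * v + u : ℕ) : ℤ)) q =
      (∏ p ∈ T.erase q, jacobiSym (α + β * u) p) *
        jacobiSym ((α + β * u) + (β * m) * v) q := by
    intro v _
    congr 1
    · apply prod_congr rfl
      intro p hp
      obtain ⟨k, hk⟩ : p ∣ m := by rw [hm]; exact dvd_prod_of_mem _ hp
      have e1 : α + β * ((m * v + u : ℕ) : ℤ) = (α + β * u) + p * (β * k * v) := by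
        rw [hk]; push_cast; ring
      rw [e1, js_per]
    · congr 1; push_cast; ring
  rw [sum_congr rfl h1, ← mul_sum, lin_sum q hqp hq2, mul_zero]
  intro h
  rcases (Nat.prime_iff_prime_int.1 hqp).dvd_or_dvd h with h2 | h2
  · exact hqβ h2
  · have h3 : q ∣ m := by exact_mod_cast h2
    rw [hm, hqp.prime.dvd_finsetProd_iff] at h3
    obtain ⟨p, hp, hqp'⟩ := h3
    have hpT := mem_of_mem_erase hp
    have := (Nat.prime_dvd_prime_iff_eq hqp (hT p hpT).1).1 hqp'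
    exact (mem_erase.1 hp).1 this.symm

lemma abs_prod_js (T : Finset ℕ) (x : ℤ) : |∏ p ∈ T, (jacobiSym x p : ℝ)| ≤ 1 := by
  rw [abs_prod]
  exact prod_le_one (fun _ _ => abs_nonneg _) fun p _ => js_abs x p

/-- incomplete sums over a set of odd primes -/
lemma part_sum (T : Finset ℕ) (α β : ℤ) (hT : ∀ p ∈ T, p.Prime ∧ p ≠ 2 ∧ ¬ (p : ℤ) ∣ β)
    (hne : T.Nonempty) (N : ℕ) :
    |∑ c ∈ range N, ∏ p ∈ T, (jacobiSym (α + β * c) p : ℝ)| ≤ ∏ p ∈ T, (p : ℝ) := by
  have hpos : 0 < ∏ p ∈ T, p := prod_pos fun p hp => (hT p hp).1.pos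
  have h := periodic_sum (fun c => ∏ p ∈ T, (jacobiSym (α + β * c) p : ℝ)) (∏ p ∈ T, p) hpos
    (fun x => abs_prod_js T _) ?_ ?_ N
  · push_cast at h
    exact h
  · intro x
    apply prod_congr rfl
    intro p hp
    obtain ⟨k, hk⟩ : p ∣ ∏ p ∈ T, p := dvd_prod_of_mem _ hp
    have e1 : α + β * ((x + ∏ p ∈ T, p : ℕ) : ℤ) = (α + β * x) + p * (β * k) := by
      rw [hk]; push_cast; ring
    rw [e1, js_per]
  · have h2 := full_sum T α β hT hne
    exact_mod_cast h2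

/-- the mean of a product -/
theorem prod_mean (Q : Finset ℕ) (α β : ℤ) (hQ : ∀ p ∈ Q, p.Prime ∧ p ≠ 2 ∧ ¬ (p : ℤ) ∣ β)
    (b : ℕ → ℝ) (hb : ∀ p ∈ Q, |b p| * p ≤ 3) (N : ℕ) :
    |∑ c ∈ range N, ∏ p ∈ Q, (1 - b p * (jacobiSym (α + β * c) p : ℝ)) - N| ≤ 4 ^ #Q := by
  classical
  have h1 : ∀ x : ℤ, ∏ p ∈ Q, (1 - b p * (jacobiSym x p : ℝ)) =
      ∑ T ∈ Q.powerset, (∏ p ∈ T, -b p) * ∏ p ∈ T, (jacobiSym x p : ℝ) := by
    intro x
    have e : ∏ p ∈ Q, (1 - b p * (jacobiSym x p : ℝ)) =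
        ∏ p ∈ Q, (1 + -b p * (jacobiSym x p : ℝ)) :=
      prod_congr rfl fun p _ => by ring
    rw [e, prod_one_add]
    apply sum_congr rfl
    intro T _
    rw [prod_mul_distrib]
  simp_rw [h1]
  rw [sum_comm]
  have h2 : ∑ T ∈ Q.powerset, ∑ c ∈ range N, (∏ p ∈ T, -b p) *
      ∏ p ∈ T, (jacobiSym (α + β * c) p : ℝ) =
      N + ∑ T ∈ Q.powerset.erase ∅, (∏ p ∈ T, -b p) *
        ∑ c ∈ range N, ∏ p ∈ T, (jacobiSym (α + β * c) p : ℝ) := by
    rw [← add_sum_erase _ _ (empty_mem_powerset Q)]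
    congr 1
    · simp
    · apply sum_congr rfl
      intro T _
      rw [mul_sum]
  rw [h2, add_sub_cancel_left]
  have h3 : (4 : ℝ) ^ #Q = ∑ T ∈ Q.powerset, ∏ _p ∈ T, (3 : ℝ) := by
    rw [← prod_one_add]
    norm_num
  rw [h3]
  calc |∑ T ∈ Q.powerset.erase ∅, (∏ p ∈ T, -b p) *
        ∑ c ∈ range N, ∏ p ∈ T, (jacobiSym (α + β * c) p : ℝ)|
      ≤ ∑ T ∈ Q.powerset.erase ∅, |(∏ p ∈ T, -b p) *
        ∑ c ∈ range N, ∏ p ∈ T, (jacobiSym (α + β * c) p : ℝ)| := abs_sum_le_sum_abs _ _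
    _ ≤ ∑ T ∈ Q.powerset.erase ∅, ∏ _p ∈ T, (3 : ℝ) := by
        apply sum_le_sum
        intro T hT
        rw [mem_erase, mem_powerset] at hT
        have hne : T.Nonempty := nonempty_iff_ne_empty.2 hT.1
        rw [abs_mul]
        calc |∏ p ∈ T, -b p| * |∑ c ∈ range N, ∏ p ∈ T, (jacobiSym (α + β * c) p : ℝ)|
            ≤ |∏ p ∈ T, -b p| * ∏ p ∈ T, (p : ℝ) :=
              mul_le_mul_of_nonneg_left (part_sum T α β (fun p hp => hQ p (hT.2 hp)) hne N)
                (abs_nonneg _)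
          _ = ∏ p ∈ T, (|b p| * p) := by
              rw [abs_prod, ← prod_mul_distrib]
              apply prod_congr rfl
              intro p _
              rw [abs_neg]
          _ ≤ ∏ _p ∈ T, (3 : ℝ) :=
              prod_le_prod (fun _ _ => by positivity) fun p hp => hb p (hT.2 hp)
    _ ≤ ∑ T ∈ Q.powerset, ∏ _p ∈ T, (3 : ℝ) :=
        sum_le_sum_of_subset_of_nonneg (erase_subset _ _) fun _ _ _ => by positivity

/-- the odd primes up to `z` not dividing `W` -/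
def oddp (W z : ℕ) : Finset ℕ := (range (z + 1)).filter (fun w => Nat.Prime w ∧ w ≠ 2 ∧ ¬ w ∣ W)

lemma HP_oddp (K : ℤ) (W z : ℕ) (hK : (W : ℤ) ∣ K) :
    HP K z = ∏ w ∈ oddp W z, (1 - 1 / ((w : ℝ) - 1) * (jacobiSym K w : ℝ)) := by
  classical
  unfold HP
  have hsub : oddp W z ⊆ (range (z + 1)).filter (fun w => Nat.Prime w ∧ w ≠ 2) := by
    intro w hw
    rw [oddp, mem_filter] at hw
    rw [mem_filter]
    exact ⟨hw.1, hw.2.1, hw.2.2.1⟩
  rw [← prod_subset hsub]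
  · apply prod_congr rfl
    intro w _
    ring
  · intro w hw hw'
    rw [mem_filter] at hw
    have hdv : w ∣ W := by
      by_contra hcon
      exact hw' (by rw [oddp, mem_filter]; exact ⟨hw.1, hw.2.1, hw.2.2, hcon⟩)
    have h0 : jacobiSym K w = 0 := by
      have : NeZero w := ⟨hw.2.1.ne_zero⟩
      rw [jacobiSym.eq_zero_iff_not_coprime]
      intro hcop
      have h1 : (w : ℤ) ∣ K := (Int.natCast_dvd_natCast.2 hdv).trans hK
      have h2 : (w : ℤ) ∣ (Int.gcd K w : ℤ) := Int.dvd_coe_gcd h1 dvd_rfl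
      rw [hcop] at h2
      have h3 : w ∣ 1 := by exact_mod_cast h2
      exact hw.2.1.one_lt.ne' (Nat.dvd_one.1 h3)
    rw [h0]
    simp

lemma oddp_ge {W z w : ℕ} (h : w ∈ oddp W z) : (3 : ℝ) ≤ w := by
  rw [oddp, mem_filter] at h
  have := h.2.1.two_le
  have h3 : 3 ≤ w := by omega
  exact_mod_cast h3

lemma oddp_mem {W z w : ℕ} (h : w ∈ oddp W z) : w.Prime ∧ w ≠ 2 ∧ ¬ (w : ℤ) ∣ (W : ℤ) := by
  rw [oddp, mem_filter] at h
  refine ⟨h.2.1, h.2.2.1, ?_⟩
  rw [Int.natCast_dvd_natCast]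
  exact h.2.2.2

/-- the mean of the cut product -/
theorem HP_mean (W z N : ℕ) (α : ℤ) (hα : (W : ℤ) ∣ α) :
    |∑ c ∈ range N, HP (α + W * c) z - N| ≤ 4 ^ #(oddp W z) := by
  have e : ∀ c ∈ range N, HP (α + W * c) z =
      ∏ w ∈ oddp W z, (1 - (fun w : ℕ => 1 / ((w : ℝ) - 1)) w * (jacobiSym (α + W * c) w : ℝ)) :=
    fun c _ => HP_oddp _ W z (dvd_add hα (dvd_mul_right _ _))
  rw [sum_congr rfl e]
  apply prod_mean (oddp W z) α W (fun p hp => oddp_mem hp)
  intro p hp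
  have h3 := oddp_ge hp
  rw [abs_of_nonneg (by apply div_nonneg zero_le_one; linarith), div_mul_eq_mul_div, one_mul,
    div_le_iff₀ (by linarith)]
  linarith

lemma prod_sq_le (W z : ℕ) : ∏ w ∈ oddp W z, (1 + (1 / ((w : ℝ) - 1)) ^ 2) ≤ 3 := by
  have h1 : ∏ w ∈ oddp W z, (1 + (1 / ((w : ℝ) - 1)) ^ 2) ≤
      Real.exp (∑ w ∈ oddp W z, (1 / ((w : ℝ) - 1)) ^ 2) := by
    rw [Real.exp_sum]
    apply prod_le_prod (fun _ _ => by positivity)
    intro w _
    rw [add_comm]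
    exact Real.add_one_le_exp _
  have h2 : ∑ w ∈ oddp W z, (1 / ((w : ℝ) - 1)) ^ 2 ≤ 1 := by
    have hinj : Set.InjOn (fun w : ℕ => w - 1) (oddp W z : Set ℕ) := by
      intro a ha b hb hab
      have h3 := oddp_ge ha
      have h4 := oddp_ge hb
      have h5 : 3 ≤ a := by exact_mod_cast h3
      have h6 : 3 ≤ b := by exact_mod_cast h4
      simp only at hab
      omega
    calc ∑ w ∈ oddp W z, (1 / ((w : ℝ) - 1)) ^ 2 =
          ∑ n ∈ (oddp W z).image (fun w : ℕ => w - 1), 1 / ((n : ℕ) : ℝ) ^ 2 := by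
          rw [sum_image hinj]
          apply sum_congr rfl
          intro w hw
          have h3 := oddp_ge hw
          have h5 : 3 ≤ w := by exact_mod_cast h3
          rw [Nat.cast_sub (by omega), div_pow, one_pow, Nat.cast_one]
      _ ≤ ∑ n ∈ Ioc 1 (z + 1), 1 / (n : ℝ) ^ 2 := by
          apply sum_le_sum_of_subset_of_nonneg
          · intro n hn
            rw [mem_image] at hn
            obtain ⟨w, hw, rfl⟩ := hn
            have h3 := oddp_ge hw
            have h5 : 3 ≤ w := by exact_mod_cast h3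
            rw [oddp, mem_filter, mem_range] at hw
            rw [mem_Ioc]
            omega
          · intro _ _ _
            positivity
      _ ≤ 1 / ((1 : ℕ) : ℝ) - 1 / ((z + 1 : ℕ) : ℝ) := sum_inv_sq 1 (z + 1) le_rfl (by omega)
      _ ≤ 1 := by
          have : (0 : ℝ) ≤ 1 / ((z + 1 : ℕ) : ℝ) := by positivity
          rw [Nat.cast_one, div_one]
          linarith
  calc _ ≤ Real.exp (∑ w ∈ oddp W z, (1 / ((w : ℝ) - 1)) ^ 2) := h1
    _ ≤ Real.exp 1 := Real.exp_le_exp.2 h2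
    _ ≤ 3 := by have := Real.exp_one_lt_d9; linarith

/-- the second moment of the cut product -/
theorem HP_sq (W z N : ℕ) (α : ℤ) (hα : (W : ℤ) ∣ α) :
    ∑ c ∈ range N, HP (α + W * c) z ^ 2 ≤ 3 * (N + 4 ^ #(oddp W z)) := by
  set b : ℕ → ℝ := fun w => 2 * (1 / ((w : ℝ) - 1)) / (1 + (1 / ((w : ℝ) - 1)) ^ 2) with hb
  have h1 : ∀ c ∈ range N, HP (α + W * c) z ^ 2 ≤
      3 * ∏ w ∈ oddp W z, (1 - b w * (jacobiSym (α + W * c) w : ℝ)) := by
    intro c _
    rw [HP_oddp _ W z (dvd_add hα (dvd_mul_right _ _)), ← prod_pow]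
    have hpos : ∀ w ∈ oddp W z, 0 ≤ 1 - b w * (jacobiSym (α + W * c) w : ℝ) := by
      intro w hw
      have h3 := oddp_ge hw
      set y : ℝ := 1 / ((w : ℝ) - 1) with hy
      have hy0 : 0 ≤ y := by rw [hy]; apply div_nonneg zero_le_one; linarith
      have hb0 : 0 ≤ b w := by simp only [hb]; positivity
      have hb1 : b w ≤ 1 := by
        simp only [hb]
        rw [div_le_one (by positivity)]
        nlinarith [sq_nonneg (y - 1)]
      have hj := (abs_le.1 (js_abs (α + W * c) w)).2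
      have : b w * (jacobiSym (α + W * c) w : ℝ) ≤ 1 * 1 := by
        calc b w * (jacobiSym (α + W * c) w : ℝ) ≤ b w * 1 := mul_le_mul_of_nonneg_left hj hb0
          _ ≤ 1 * 1 := by linarith
      linarith
    calc ∏ w ∈ oddp W z, (1 - 1 / ((w : ℝ) - 1) * (jacobiSym (α + W * c) w : ℝ)) ^ 2
        ≤ ∏ w ∈ oddp W z, ((1 + (1 / ((w : ℝ) - 1)) ^ 2) *
          (1 - b w * (jacobiSym (α + W * c) w : ℝ))) := by
          apply prod_le_prod (fun _ _ => sq_nonneg _)
          intro w hw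
          have h3 := oddp_ge hw
          set y : ℝ := 1 / ((w : ℝ) - 1) with hy
          set x : ℝ := (jacobiSym (α + W * c) w : ℝ) with hx
          have hx2 : x ^ 2 ≤ 1 := by
            rw [sq_le_one_iff_abs_le_one]
            exact js_abs _ _
          have e : (1 + y ^ 2) * (1 - b w * x) = 1 + y ^ 2 - 2 * y * x := by
            simp only [hb]
            rw [← hy]
            field_simp
          rw [e]
          nlinarith [sq_nonneg y]
      _ = (∏ w ∈ oddp W z, (1 + (1 / ((w : ℝ) - 1)) ^ 2)) *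
          ∏ w ∈ oddp W z, (1 - b w * (jacobiSym (α + W * c) w : ℝ)) := prod_mul_distrib
      _ ≤ 3 * ∏ w ∈ oddp W z, (1 - b w * (jacobiSym (α + W * c) w : ℝ)) :=
          mul_le_mul_of_nonneg_right (prod_sq_le W z) (prod_nonneg hpos)
  refine (sum_le_sum h1).trans ?_
  rw [← mul_sum]
  have h2 := prod_mean (oddp W z) α W (fun p hp => oddp_mem hp) b (by
    intro p hp
    have h3 := oddp_ge hp
    set y : ℝ := 1 / ((p : ℝ) - 1) with hy
    have hy0 : 0 < y := by rw [hy]; apply div_pos zero_lt_one; linarith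
    have hyp : y * p ≤ 3 / 2 := by
      rw [hy, div_mul_eq_mul_div, one_mul, div_le_iff₀ (by linarith)]
      linarith
    have hb0 : 0 ≤ b p := by simp only [hb]; positivity
    rw [abs_of_nonneg hb0]
    have hb1 : b p ≤ 2 * y := by
      simp only [hb]
      rw [← hy, div_le_iff₀ (by positivity)]
      nlinarith [sq_nonneg y]
    calc b p * p ≤ 2 * y * p := mul_le_mul_of_nonneg_right hb1 (by linarith)
      _ ≤ 3 := by linarith) N
  have h3 := (abs_le.1 h2).2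
  linarith

end Pool.Agent.W2helper20.MQ
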