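import Pool.Agent.TH892.SW.S4

set_option autoImplicit false
set_option exponentiation.threshold 2000

/-!
# Project MQ: for all but `X^(3/4)` of the `K`, the product over the primes is close to the product
up to a small power of `X` (helper20, after `Pool.Agent.TH892.SW.hp_most`)
-/

namespace Pool.Agent.W2helper20.MQ

open Finset Filter Topology
open Pool.Agent.W468.ConjF
open Pool.Agent.TH892
open Pool.Agent.TH892.SW
open Pool.Agent.H442R2.EHI (evt_log_pow evt_log_ge)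

lemma c2_exists : ∃ C2 : ℝ, 0 < C2 ∧ ∀ (I : ℕ) (t : ℝ), (I : ℝ) ≤ 2 * t → 0 ≤ t →
    (I : ℝ) * (8 * (2 * ((61 : ℕ) : ℝ) * (I : ℝ) ^ (2 * 3)) ^ 61) ≤ C2 * t ^ 367 := by
  refine ⟨16 * 122 ^ 61 * 2 ^ 366, by positivity, fun I t hI ht => ?_⟩
  calc (I : ℝ) * (8 * (2 * ((61 : ℕ) : ℝ) * (I : ℝ) ^ (2 * 3)) ^ 61)
      ≤ (2 * t) * (8 * (2 * ((61 : ℕ) : ℝ) * (2 * t) ^ (2 * 3)) ^ 61) := by gcongr
    _ = 16 * 122 ^ 61 * 2 ^ 366 * (t * t ^ 366) := by
        have h1 : ((2 * t) ^ (2 * 3)) ^ 61 = 2 ^ 366 * t ^ 366 := by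
          rw [← pow_mul, mul_pow]
        have h2 : (2 * ((61 : ℕ) : ℝ) * (2 * t) ^ (2 * 3)) ^ 61 =
            122 ^ 61 * ((2 * t) ^ (2 * 3)) ^ 61 := by
          rw [← mul_pow]; norm_num
        rw [h2, h1]
        ring
    _ = 16 * 122 ^ 61 * 2 ^ 366 * t ^ 367 := by rw [← pow_succ']

theorem hp_tail : ∃ X0 : ℕ, ∀ X : ℕ, X0 ≤ X →
    ∃ (B : Finset ℕ) (Z : ℕ), (#B : ℝ) ≤ (X : ℝ) ^ (3 / 4 : ℝ) ∧ Z ^ 20 ≤ X ∧ X ≤ (2 * Z) ^ 20 ∧
    ∀ K ∈ Icc 1 X, K ∉ B → ¬ IsSquare (K : ℤ) → ∀ z : ℕ, 2 ≤ z → z ≤ Z →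
      ∀ᶠ N in atTop, |Real.log (CF 1 0 (-(K : ℤ)) N) - Real.log (CF 1 0 (-(K : ℤ)) z)| ≤
        |LOW 1 (0 ^ 2 - 4 * 1 * -(K : ℤ)) z Z| + 1 / Real.log X + 12 / z := by
  classical
  obtain ⟨n₁, hn₁⟩ := tail (2 * (1600 + 1))
  obtain ⟨C2, hC20, hC2⟩ := c2_exists
  set κ : ℝ := 1 / 1600 with hκ
  have hκ0 : 0 < κ := by positivity
  have hev : ∀ᶠ H : ℕ in atTop, 100000 + 64 * C2 + n₁ ≤ Real.log H ∧
      Real.log H ^ 3 ≤ (H:ℝ) ^ κ ∧ 1 ≤ H := by
    filter_upwards [evt_log_ge (100000 + 64 * C2 + n₁), evt_log_pow 3 κ hκ0,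
      eventually_ge_atTop 1] with H h1 h4 h5
    exact ⟨h1, h4, h5⟩
  obtain ⟨H0, hH0⟩ := eventually_atTop.mp hev
  refine ⟨H0, fun H hH => ?_⟩
  obtain ⟨hL, hLV, hH1⟩ := hH0 H hH
  set L := Real.log H with hLd
  set t : ℝ := (H:ℝ) ^ κ with ht
  have hn₁0 : (0:ℝ) ≤ n₁ := Nat.cast_nonneg _
  have hL5 : 100000 ≤ L := by linarith
  have hL0 : 0 < L := by linarith
  have hL1 : 1 ≤ L := by linarith
  have hHr : (1:ℝ) ≤ H := by exact_mod_cast hH1
  have hH0' : (0:ℝ) < H := by linarith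
  -- t
  have hLt3 : L ^ 3 ≤ t := hLV
  have hLt : L ≤ t := le_trans (le_self_pow₀ hL1 (by norm_num)) hLV
  have ht1 : 1 ≤ t := hL1.trans hLt
  have ht0 : 0 < t := by linarith
  have htp : ∀ n : ℕ, 1 ≤ t ^ n := fun n => one_le_pow₀ ht1
  have ht200 : t ^ 1600 = H := by
    rw [ht, ← Real.rpow_natCast, ← Real.rpow_mul hH0'.le, hκ]
    norm_num
  -- I
  set I := ⌈t⌉₊ with hI
  have htI : t ≤ I := Nat.le_ceil t
  have hI2t : (I : ℝ) ≤ 2 * t := by
    have := Nat.ceil_lt_add_one (show 0 ≤ t by linarith)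
    linarith
  have hI20 : 20 ≤ I := by
    have : (20:ℝ) ≤ I := by linarith
    exact_mod_cast this
  have hn₁I : n₁ ≤ I := by
    have : (n₁:ℝ) ≤ I := by linarith
    exact_mod_cast this
  -- i0
  set i0 := Nat.log 2 H / 20 with hi0
  have hlog1 := natlog_le H hH1
  have hlog2 := le_natlog H hH1
  rw [← hLd] at hlog1 hlog2
  have hdm : Nat.log 2 H < 20 * (i0 + 1) := by
    have := Nat.div_add_mod (Nat.log 2 H) 20
    have := Nat.mod_lt (Nat.log 2 H) (show 0 < 20 by norm_num)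
    omega
  have hi0L : L / 20 ≤ (i0:ℝ) - 1 := by
    have h1 : (Nat.log 2 H : ℝ) ≤ 20 * (i0 + 1) := by exact_mod_cast hdm.le
    linarith
  have hi0le : (i0:ℝ) ≤ L := by
    have h1 : ((Nat.log 2 H / 20 : ℕ) : ℝ) ≤ (Nat.log 2 H : ℝ) / 20 := by
      exact_mod_cast Nat.cast_div_le
    rw [hi0]
    linarith [(Nat.cast_nonneg (Nat.log 2 H) : (0:ℝ) ≤ _)]
  have hi02 : 2 ≤ i0 := by
    have : (2:ℝ) ≤ i0 := by linarith
    exact_mod_cast this
  have hi0I : i0 ≤ I := by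
    have : (i0:ℝ) ≤ I := by linarith
    exact_mod_cast this
  have hp1 : (2 ^ i0) ^ 20 ≤ H := by
    rw [← pow_mul]
    calc 2 ^ (i0 * 20) ≤ 2 ^ Nat.log 2 H := Nat.pow_le_pow_right (by norm_num) (Nat.div_mul_le_self _ _)
      _ ≤ H := Nat.pow_log_le_self 2 (by omega)
  have hp2 : H ≤ (2 * 2 ^ i0) ^ 20 := by
    have h1 : H < 2 ^ (Nat.log 2 H + 1) := Nat.lt_pow_succ_log_self (by norm_num) H
    calc H ≤ 2 ^ (Nat.log 2 H + 1) := h1.le
      _ ≤ 2 ^ (20 * (i0 + 1)) := Nat.pow_le_pow_right (by norm_num) (by omega)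
      _ = (2 * 2 ^ i0) ^ 20 := by rw [← pow_succ', ← pow_mul]; ring_nf
  -- 2^i0 is large
  have h2i : t ^ 80 ≤ 2 * 2 ^ i0 := by
    have h1 : (t ^ 80) ^ 20 ≤ (2 * (2:ℝ) ^ i0) ^ 20 := by
      calc (t ^ 80) ^ 20 = t ^ 1600 := by rw [← pow_mul]
        _ = (H : ℝ) := ht200
        _ ≤ (2 * (2:ℝ) ^ i0) ^ 20 := by exact_mod_cast hp2
    exact (pow_le_pow_iff_left₀ (by positivity) (by positivity) (by norm_num)).1 h1
  have ht2i : t ^ 2 ≤ 2 * 2 ^ i0 := (pow_le_pow_right₀ ht1 (by omega)).trans h2i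
  have htt : 100000 * t ≤ t ^ 2 := by
    rw [sq]; exact mul_le_mul_of_nonneg_right (by linarith) ht0.le
  -- the exceptional set
  have hΔ3 : (4 * H) ^ 3 ≤ (2 * 2 ^ i0) ^ 61 := by
    have h1 : 64 ≤ 2 * 2 ^ i0 := by
      have h2 : (64:ℝ) ≤ 2 * 2 ^ i0 := by linarith
      exact_mod_cast h2
    calc (4 * H) ^ 3 = 64 * H ^ 3 := by ring
      _ ≤ (2 * 2 ^ i0) * ((2 * 2 ^ i0) ^ 20) ^ 3 := Nat.mul_le_mul h1 (Nat.pow_le_pow_left hp2 3)
      _ = (2 * 2 ^ i0) ^ 61 := by ring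
  obtain ⟨X2, hX2c, hX2⟩ := mid_countK 3 H i0 I 61 (by omega) (by norm_num) hΔ3
  have hIt : (I : ℝ) * (8 * (2 * ((61 : ℕ) : ℝ) * (I : ℝ) ^ (2 * 3)) ^ 61) ≤ C2 * t ^ 367 :=
    hC2 I t hI2t ht0.le
  have hsqrt : (Nat.sqrt H : ℝ) ≤ t ^ 800 := by
    have h1 : ((Nat.sqrt H : ℕ) : ℝ) ^ 2 ≤ (t ^ 800) ^ 2 := by
      rw [← pow_mul, ht200]
      exact_mod_cast Nat.sqrt_le' H
    exact (pow_le_pow_iff_left₀ (by positivity) (by positivity) (by norm_num)).1 h1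
  have hH34 : (H : ℝ) ^ (3 / 4 : ℝ) = t ^ 1200 := by
    rw [ht, ← Real.rpow_natCast, ← Real.rpow_mul hH0'.le, hκ]
    norm_num
  have hX2c' : (#X2 : ℝ) ≤ (H : ℝ) ^ (3 / 4 : ℝ) := by
    refine hX2c.trans ?_
    rw [hH34]
    have h5 : 2 * (Nat.sqrt H : ℝ) + 3 ≤ 5 * t ^ 800 := by
      have := htp 800
      linarith
    have h6 : 20 * C2 ≤ t := by linarith
    calc 4 * (2 * (Nat.sqrt H : ℝ) + 3) * ((I : ℝ) * (8 * (2 * ((61 : ℕ) : ℝ) * (I : ℝ) ^ (2 * 3)) ^ 61))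
        ≤ 4 * (5 * t ^ 800) * (C2 * t ^ 367) := by
          apply mul_le_mul _ hIt (by positivity) (by positivity)
          linarith
      _ = 20 * C2 * t ^ 1167 := by
          rw [show (1167 : ℕ) = 800 + 367 by norm_num, pow_add]
          ring
      _ ≤ t * t ^ 1167 := mul_le_mul_of_nonneg_right h6 (by positivity)
      _ = t ^ 1168 := by rw [← pow_succ']
      _ ≤ t ^ 1200 := pow_le_pow_right₀ ht1 (by norm_num)
  refine ⟨X2, 2 ^ i0, hX2c', hp1, hp2, ?_⟩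
  intro K hK hKX hsq0 z hz2 hzZ
  have hK' := mem_Icc.1 hK
  set D : ℤ := 0 ^ 2 - 4 * 1 * -(K : ℤ) with hDd
  have hDe : D = 4 * (K : ℤ) := by rw [hDd]; ring
  have hsq : ¬ IsSquare D := by
    intro h
    apply hsq0
    rw [hDe] at h
    obtain ⟨r, hr⟩ := h
    have h2 : (2 : ℤ) ∣ r := by
      have h3 : (2 : ℤ) ∣ r * r := by rw [← hr]; exact ⟨2 * K, by ring⟩
      rcases Int.prime_two.dvd_or_dvd h3 with h4 | h4 <;> exact h4
    obtain ⟨k, rfl⟩ := h2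
    exact ⟨k, by linarith⟩
  -- logs
  have hlogΔ : (Nat.log 2 (4 * H) : ℝ) ≤ 4 * L := by
    have h1 := natlog_le (4 * H) (by omega)
    have h2 : Real.log ((4 * H : ℕ) : ℝ) = Real.log 4 + L := by
      push_cast
      rw [Real.log_mul (by norm_num) (by positivity)]
    have h3 : Real.log 4 ≤ 3 := by
      have := Real.log_le_sub_one_of_pos (show (0:ℝ) < 4 by norm_num)
      linarith
    rw [h2] at h1
    linarith
  have hI0 : (i0:ℝ) - 1 > 0 := by linarith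
  have b2 : |SJ D (2 ^ i0) (2 ^ (I + 1))| ≤ 1 / (2 * L) := by
    refine (mid_sumW D 1 i0 I (Nat.log 2 (4 * H)) (by positivity) hi02 hi0I
      (hX2 K hK hKX)).trans ?_
    have h1 : 4 / ((i0:ℝ) - 1) ^ (1 + 1) ≤ 1 / (4 * L) := by
      calc 4 / ((i0:ℝ) - 1) ^ (1 + 1) ≤ 4 / (L / 20) ^ (1 + 1) := by
            apply div_le_div_of_nonneg_left (by norm_num) (by positivity)
            exact pow_le_pow_left₀ (by positivity) hi0L _
        _ = 1 / (4 * L) * (6400 / L) := by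
            field_simp
            ring
        _ ≤ 1 / (4 * L) * 1 := by
            apply mul_le_mul_of_nonneg_left _ (by positivity)
            rw [div_le_one hL0]
            linarith
        _ = _ := mul_one _
    have h2 : 8 * (Nat.log 2 (4 * H) : ℝ) / 2 ^ i0 ≤ 1 / (4 * L) := by
      calc 8 * (Nat.log 2 (4 * H) : ℝ) / 2 ^ i0 ≤ 8 * (4 * L) / (t ^ 2 / 2) := by
            apply div_le_div₀ (by positivity) (by linarith) (by positivity) (by linarith)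
        _ ≤ 1 / (4 * L) := by
            rw [div_le_div_iff₀ (by positivity) (by positivity)]
            have h3 : L ^ 2 ≤ t := (pow_le_pow_right₀ hL1 (by omega)).trans hLV
            have h4 : 8 * (4 * L) * (4 * L) = 128 * L ^ 2 := by ring
            rw [h4]
            linarith
    have h3 : 1 / (2 * L) = 1 / (4 * L) + 1 / (4 * L) := by
      field_simp
      norm_num
    rw [h3]
    linarith
  have hII : 2 ^ i0 ≤ 2 ^ (I + 1) := Nat.pow_le_pow_right (by norm_num) (by omega)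
  have hIlt : I + 1 < 2 ^ (I + 1) := Nat.lt_two_pow_self
  filter_upwards [eventually_ge_atTop (2 ^ (I + 1))] with N hN
  have b3 : |SJ D (2 ^ (I + 1)) N| ≤ 1 / (2 * L) := by
    refine (hn₁ (2 ^ (I + 1)) (by omega) D hsq ?_ N hN).trans ?_
    · have h1 : (4 * D.natAbs : ℝ) ≤ 16 * t ^ 1600 := by
        have h2 : 4 * D.natAbs ≤ 16 * H := by
          rw [hDe]; omega
        calc (4 * D.natAbs : ℝ) ≤ 16 * (H:ℝ) := by exact_mod_cast h2
          _ = 16 * t ^ 1600 := by rw [← ht200]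
      have h3 : Real.log ((2 ^ (I + 1) : ℕ) : ℝ) = ((I + 1 : ℕ) : ℝ) * Real.log 2 := by
        push_cast
        rw [Real.log_pow]
        push_cast
        ring
      rw [h3]
      refine h1.trans ?_
      set y : ℝ := ((I + 1 : ℕ) : ℝ) with hy
      have hy20 : 20 ≤ y := by
        rw [hy]; exact_mod_cast (by omega : 20 ≤ I + 1)
      have hyt : t ≤ y := by rw [hy]; push_cast; linarith
      have h8 : (0.6 : ℝ) < Real.log 2 := by have := Real.log_two_gt_d9; linarith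
      have h4 : y ≤ (y * Real.log 2) ^ 2 := by
        have h5 : y * 0.6 ≤ y * Real.log 2 := mul_le_mul_of_nonneg_left h8.le (by linarith)
        have h6 : (y * 0.6) ^ 2 ≤ (y * Real.log 2) ^ 2 := pow_le_pow_left₀ (by positivity) h5 2
        have h7 : 20 * y ≤ y * y := mul_le_mul_of_nonneg_right hy20 (by linarith)
        have h9 : (y * 0.6) ^ 2 = 0.36 * (y * y) := by ring
        linarith
      calc 16 * t ^ 1600 ≤ y * y ^ 1600 := by
            gcongr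
            linarith
        _ = y ^ (1600 + 1) := (pow_succ' y 1600).symm
        _ ≤ ((y * Real.log 2) ^ 2) ^ (1600 + 1) := pow_le_pow_left₀ (by linarith) h4 _
        _ = (y * Real.log 2) ^ (2 * (1600 + 1)) := by rw [← pow_mul]
    · have h1 : t / 2 ≤ Real.log (((2 ^ (I + 1) : ℕ) : ℝ) - 1) := by
        have h2 : (2:ℝ) ^ I ≤ ((2 ^ (I + 1) : ℕ) : ℝ) - 1 := by
          push_cast
          rw [pow_succ]
          have : (1:ℝ) ≤ 2 ^ I := one_le_pow₀ (by norm_num)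
          linarith
        have h3 := Real.log_le_log (by positivity) h2
        rw [Real.log_pow] at h3
        have h8 : (0.6 : ℝ) < Real.log 2 := by have := Real.log_two_gt_d9; linarith
        have h9 : t * 0.6 ≤ I * Real.log 2 := by
          apply mul_le_mul htI h8.le (by norm_num) (by positivity)
        linarith
      calc 140 / Real.log (((2 ^ (I + 1) : ℕ) : ℝ) - 1) ≤ 140 / (t / 2) := by
            apply div_le_div_of_nonneg_left (by norm_num) (by positivity) h1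
        _ ≤ 1 / (2 * L) := by
            rw [div_le_div_iff₀ (by positivity) (by positivity)]
            have h3 : L ^ 2 ≤ t := (pow_le_pow_right₀ hL1 (by omega)).trans hLV
            have h4 : 100000 * L ≤ L ^ 2 := by
              rw [sq]
              exact mul_le_mul_of_nonneg_right hL5 hL0.le
            linarith
  have hcmp : |Real.log (CF 1 0 (-(K : ℤ)) N) - Real.log (CF 1 0 (-(K : ℤ)) z)| ≤
      |LOW 1 D z (2 ^ i0)| + |SJ D (2 ^ i0) N| + 12 / (z:ℝ) + 3 * (Nat.log 2 (1 : ℤ).toNat) / z :=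
    CF_compare 1 0 (-(K : ℤ)) one_pos z (2 ^ i0) N hz2 hzZ (hII.trans hN)
  refine hcmp.trans ?_
  have hSJ : |SJ D (2 ^ i0) N| ≤ 1 / L := by
    rw [SJ_add D (2 ^ i0) (2 ^ (I + 1)) N hII hN]
    refine (abs_add_le _ _).trans ?_
    have h3 : 1 / L = 1 / (2 * L) + 1 / (2 * L) := by
      field_simp
      norm_num
    rw [h3]
    exact add_le_add b2 b3
  have h1 : 3 * (Nat.log 2 (1 : ℤ).toNat : ℝ) / z = 0 := by simp
  rw [h1]
  linarith

/-- the constant exists -/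
theorem hp_lim (K : ℕ) (hK : ¬ IsSquare (K : ℤ)) : ∃ h : ℝ, 0 < h ∧
    Tendsto (fun N => HP K N) atTop (𝓝 h) ∧
    ∀ (z : ℕ) (θ : ℝ), θ ≤ 1 → (∀ᶠ N in atTop, |Real.log (CF 1 0 (-(K : ℤ)) N) -
      Real.log (CF 1 0 (-(K : ℤ)) z)| ≤ θ) → |HP K z - h| ≤ 2 * θ * h := by
  have hsq' : ¬ IsSquare (0 ^ 2 - 4 * 1 * -(K : ℤ)) := by
    intro h
    apply hK
    have hDe : (0 ^ 2 - 4 * 1 * -(K : ℤ)) = 4 * (K : ℤ) := by ring
    rw [hDe] at h
    obtain ⟨r, hr⟩ := h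
    have h2 : (2 : ℤ) ∣ r := by
      have h3 : (2 : ℤ) ∣ r * r := by rw [← hr]; exact ⟨2 * K, by ring⟩
      rcases Int.prime_two.dvd_or_dvd h3 with h4 | h4 <;> exact h4
    obtain ⟨k, rfl⟩ := h2
    exact ⟨k, by linarith⟩
  obtain ⟨h, hh0, hlim⟩ := CF_tendsto 1 0 (-(K : ℤ)) one_pos hsq'
  refine ⟨2 * h, by positivity, ?_, ?_⟩
  · have h6 := hlim.const_mul 2
    refine h6.congr fun N => ?_
    rw [CF_HP]
  · intro z θ hθ hev
    have h5 := CF_limit 1 0 (-(K : ℤ)) h hh0 hlim z θ hθ hev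
    rw [CF_HP, ← mul_sub, abs_mul, abs_of_pos (show (0 : ℝ) < 2 by norm_num)]
    calc 2 * |CF 1 0 (-(K : ℤ)) z - h| ≤ 2 * (2 * θ * h) :=
          mul_le_mul_of_nonneg_left h5 (by norm_num)
      _ = _ := by ring

end Pool.Agent.W2helper20.MQ
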