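import Pool.Agent.W2helper20.MQ.Cmb
import Pool.Agent.W2helper20.MQ.Jac
import Pool.Agent.W2helper20.MQ.Tail
import Pool.Agent.N610.MS.CNT

set_option autoImplicit false

/-!
# Project MQ: the constant in the rows (helper20)
-/

namespace Pool.Agent.W2helper20.MQ

open Finset Filter Topology
open Pool.Agent.H378R2
open Pool.Agent.TH892.SW (HP js_four)
open Pool.Agent.TH892 (LOW)
open Pool.Agent.W468.ConjF (low_count)

/-- the number `K = -a` of the row `(t, c)` -/
def Kv (W t c : ℕ) : ℕ := (W * t) ^ 2 + W * (c + 1)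

lemma Kv_cast (W t c : ℕ) : ((Kv W t c : ℕ) : ℤ) = (((W * t) ^ 2 + W : ℕ) : ℤ) + (W : ℤ) * c := by
  unfold Kv
  push_cast
  ring

lemma Kv_lt {W t c : ℕ} (hc : c < 2 * t) : Kv W t c < (W * t + 1) * (W * t + 1) := by
  unfold Kv
  have h1 : W * (c + 1) ≤ W * (2 * t) := Nat.mul_le_mul_left W (by omega)
  have h2 : (W * t + 1) * (W * t + 1) = (W * t) ^ 2 + W * (2 * t) + 1 := by ring
  omega

lemma Kv_gt {W t c : ℕ} (hW : 1 ≤ W) : (W * t) * (W * t) < Kv W t c := by
  unfold Kv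
  have h1 : 0 < W * (c + 1) := by positivity
  rw [← sq]
  omega

lemma sqrt_Kv {W t c : ℕ} (hW : 1 ≤ W) (hc : c < 2 * t) : Nat.sqrt (Kv W t c) = W * t :=
  (Nat.eq_sqrt.2 ⟨(Kv_gt hW).le, Kv_lt hc⟩).symm

lemma Kv_inj {W t c t' c' : ℕ} (hW : 1 ≤ W) (hc : c < 2 * t) (hc' : c' < 2 * t')
    (h : Kv W t c = Kv W t' c') : t = t' ∧ c = c' := by
  have h1 : W * t = W * t' := by rw [← sqrt_Kv hW hc, ← sqrt_Kv hW hc', h]
  have h2 : t = t' := Nat.eq_of_mul_eq_mul_left (by omega) h1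
  refine ⟨h2, ?_⟩
  unfold Kv at h
  rw [h2] at h
  have h3 : W * (c + 1) = W * (c' + 1) := by omega
  have h4 := Nat.eq_of_mul_eq_mul_left (by omega : 0 < W) h3
  omega

lemma Kv_nsq {W t c : ℕ} (hW : 1 ≤ W) (hc : c < 2 * t) : ¬ IsSquare ((Kv W t c : ℕ) : ℤ) := by
  rintro ⟨r, hr⟩
  have h1 : r.natAbs * r.natAbs = Kv W t c := by
    zify
    rw [abs_mul_abs_self]
    exact hr.symm
  have h2 := Kv_gt (t := t) (c := c) hW
  have h3 := Kv_lt (W := W) hc
  rw [← h1] at h2 h3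
  have h4 : W * t < r.natAbs := by
    by_contra hcon
    push Not at hcon
    have := Nat.mul_le_mul hcon hcon
    omega
  have h5 : r.natAbs < W * t + 1 := by
    by_contra hcon
    push Not at hcon
    have := Nat.mul_le_mul hcon hcon
    omega
  omega

lemma Kv_le {X : ℕ} {R0 : ℝ} (h : Big X R0) {W t c : ℕ} (hW : 1 ≤ W)
    (hWR : (W : ℝ) ≤ Real.exp (Real.log X / 32)) (ht : t ∈ Icc 1 (Tx X W)) (hc : c < 2 * t) :
    Kv W t c ∈ Icc 1 X := by
  rw [mem_Icc] at ht ⊢
  have hT := Tx_le X W hW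
  have hRS := h.RS
  have hR := h.R1000
  have hX : (X : ℝ) = 16 * Sx X ^ 2 := by
    unfold Sx
    rw [div_pow, Real.sq_sqrt (Nat.cast_nonneg _)]
    ring
  constructor
  · have := Kv_gt (t := t) (c := c) hW
    omega
  · have h1 : ((Kv W t c : ℕ) : ℝ) ≤ (X : ℝ) := by
      have h2 : ((Kv W t c : ℕ) : ℝ) ≤ ((W : ℝ) * t + 1) * (W * t + 1) := by
        exact_mod_cast (Kv_lt (W := W) hc).le
      have h3 : (W : ℝ) * t ≤ 3 * Sx X + W := by
        have h4 : (t : ℝ) ≤ Tx X W := by exact_mod_cast ht.2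
        exact (mul_le_mul_of_nonneg_left h4 (Nat.cast_nonneg _)).trans hT
      have h5 : (W : ℝ) * t + 1 ≤ 4 * Sx X := by linarith
      have h6 : (0 : ℝ) ≤ (W : ℝ) * t + 1 := by positivity
      rw [hX]
      calc ((Kv W t c : ℕ) : ℝ) ≤ ((W : ℝ) * t + 1) * (W * t + 1) := h2
        _ ≤ (4 * Sx X) * (4 * Sx X) := mul_le_mul h5 h5 h6 (by linarith)
        _ = 16 * Sx X ^ 2 := by ring
    exact_mod_cast h1

/-- the primes of `LOW` not dividing `W` -/
def lowp (W z Z : ℕ) : Finset ℕ := (Ioc z Z).filter (fun p => p.Prime ∧ ¬ p ∣ W)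

lemma LOW_lowp (K W z Z : ℕ) (hz : 2 ≤ z) (hK : W ∣ K) :
    LOW 1 (0 ^ 2 - 4 * 1 * -(K : ℤ)) z Z =
      ∑ p ∈ lowp W z Z, (jacobiSym (K : ℤ) p : ℝ) / p := by
  classical
  unfold LOW
  have hsub : lowp W z Z ⊆ (Ioc z Z).filter (fun p : ℕ => p.Prime ∧ ¬ (p : ℤ) ∣ 1) := by
    intro p hp
    rw [lowp, mem_filter] at hp
    rw [mem_filter]
    refine ⟨hp.1, hp.2.1, ?_⟩
    intro h
    have h6 : p ∣ 1 := by exact_mod_cast h
    exact hp.2.1.one_lt.ne' (Nat.dvd_one.1 h6)
  symm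
  have e : ∀ p : ℕ, p.Prime → z < p →
      jacobiSym (0 ^ 2 - 4 * 1 * -(K : ℤ)) p = jacobiSym (K : ℤ) p := fun p hp hzp =>
    js_four K p hp (by omega)
  have h1 : ∑ p ∈ lowp W z Z, (jacobiSym (K : ℤ) p : ℝ) / p =
      ∑ p ∈ lowp W z Z, (jacobiSym (0 ^ 2 - 4 * 1 * -(K : ℤ)) p : ℝ) / p := by
    apply sum_congr rfl
    intro p hp
    rw [lowp, mem_filter, mem_Ioc] at hp
    rw [e p hp.2.1 hp.1.1]
  rw [h1]
  apply sum_subset hsub
  intro p hp hp'
  rw [mem_filter] at hp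
  have hzp := (mem_Ioc.1 hp.1).1
  have hdv : p ∣ W := by
    by_contra hcon
    exact hp' (by rw [lowp, mem_filter]; exact ⟨hp.1, hp.2.1, hcon⟩)
  rw [e p hp.2.1 hzp]
  have h0 : jacobiSym (K : ℤ) p = 0 := by
    have : NeZero p := ⟨hp.2.1.ne_zero⟩
    rw [jacobiSym.eq_zero_iff_not_coprime]
    intro hcop
    have h1 : (p : ℤ) ∣ K := Int.natCast_dvd_natCast.2 (hdv.trans hK)
    have h2 : (p : ℤ) ∣ (Int.gcd K p : ℤ) := Int.dvd_coe_gcd h1 dvd_rfl
    rw [hcop] at h2
    have h3 : p ∣ 1 := by exact_mod_cast h2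
    exact hp.2.1.one_lt.ne' (Nat.dvd_one.1 h3)
  rw [h0]
  simp

lemma W_dvd_Kv (W t c : ℕ) : W ∣ Kv W t c := by
  unfold Kv
  apply dvd_add
  · exact (dvd_mul_right W t).trans (dvd_pow_self _ two_ne_zero)
  · exact dvd_mul_right _ _

/-- the rows with a large `LOW` -/
lemma low_rows (W t z Z : ℕ) (hz : 2 ≤ z) (τ : ℝ) (hτ : 0 < τ) :
    (#((range (2 * t)).filter (fun c =>
      τ < |LOW 1 (0 ^ 2 - 4 * 1 * -((Kv W t c : ℕ) : ℤ)) z Z|)) : ℝ) ≤
      (((2 * t : ℕ) : ℝ) / z + (Z : ℝ) ^ 2) / τ ^ 2 := by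
  have h := low_count (((W * t) ^ 2 + W : ℕ) : ℤ) (W : ℤ) (lowp W z Z) z Z (2 * t) (by omega) (by
    intro p hp
    rw [lowp, mem_filter, mem_Ioc] at hp
    refine ⟨hp.2.1, by omega, hp.1.1, hp.1.2, ?_⟩
    rw [Int.natCast_dvd_natCast]
    exact hp.2.2) τ hτ
  refine le_trans (le_of_eq ?_) h
  congr 2
  apply filter_congr
  intro c _
  rw [LOW_lowp _ W z Z hz (W_dvd_Kv W t c), Kv_cast]

/-- sum of the weights of the rows in a set -/
lemma exc_rows (X : ℝ) (W : ℕ) (hW : 1 ≤ W) (hS : 0 < Sx X) (B : Finset ℕ) :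
    ∑ t ∈ Icc 1 (Tx X W), wt ((W : ℝ) / Sx X) t *
      (#((range (2 * t)).filter (fun c => Kv W t c ∈ B)) : ℝ) ≤ (W : ℝ) / Sx X / 2 * #B := by
  classical
  have hlam : 0 ≤ (W : ℝ) / Sx X := by positivity
  have h1 : ∑ t ∈ Icc 1 (Tx X W), #((range (2 * t)).filter (fun c => Kv W t c ∈ B)) ≤ #B := by
    rw [← card_sigma]
    apply card_le_card_of_injOn (fun x : (_ : ℕ) × ℕ => Kv W x.1 x.2)
    · intro x hx
      rw [mem_coe, mem_sigma, mem_filter] at hx
      exact hx.2.2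
    · rintro ⟨t, c⟩ hx ⟨t', c'⟩ hx' he
      rw [mem_coe, mem_sigma, mem_filter, mem_range] at hx hx'
      obtain ⟨h2, h3⟩ := Kv_inj hW hx.2.1 hx'.2.1 he
      simp only at h2 h3
      subst h2 h3
      rfl
  calc ∑ t ∈ Icc 1 (Tx X W), wt ((W : ℝ) / Sx X) t *
      (#((range (2 * t)).filter (fun c => Kv W t c ∈ B)) : ℝ) ≤
      ∑ t ∈ Icc 1 (Tx X W), (W : ℝ) / Sx X / 2 *
        (#((range (2 * t)).filter (fun c => Kv W t c ∈ B)) : ℝ) :=
        sum_le_sum fun t _ => mul_le_mul_of_nonneg_right (wt_le hlam t) (Nat.cast_nonneg _)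
    _ = (W : ℝ) / Sx X / 2 *
        ((∑ t ∈ Icc 1 (Tx X W), #((range (2 * t)).filter (fun c => Kv W t c ∈ B)) : ℕ) : ℝ) := by
        rw [← mul_sum]
        push_cast
        rfl
    _ ≤ _ := by
        apply mul_le_mul_of_nonneg_left _ (by positivity)
        exact_mod_cast h1

/-- **the constant in the rows** -/
theorem good_ev (c1 ε : ℝ) (hc1 : 0 < c1) (hε : 0 < ε) (hε1 : ε ≤ 1) :
    ∀ᶠ X : ℕ in atTop, ∃ z0 : ℕ, ∀ W : ℕ, 1 ≤ W → (W : ℝ) ≤ Real.exp (Real.log X / 32) →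
      |∑ t ∈ Icc 1 (Tx X W), wt ((W : ℝ) / Sx X) t * ∑ c ∈ range (2 * t), HP (Kv W t c : ℕ) z0 -
        tot X W| ≤ ε * tot X W ∧
      ∑ t ∈ Icc 1 (Tx X W), wt ((W : ℝ) / Sx X) t * ∑ c ∈ range (2 * t),
        HP (Kv W t c : ℕ) z0 ^ 2 ≤ 4 * tot X W ∧
      ∃ Bad : ℕ → Finset ℕ, (∀ t, Bad t ⊆ range (2 * t)) ∧
        ∑ t ∈ Icc 1 (Tx X W), wt ((W : ℝ) / Sx X) t * (#(Bad t) : ℝ) ≤
          c1 * tot X W / Real.log X ∧
        ∀ t ∈ Icc 1 (Tx X W), ∀ c ∈ range (2 * t), c ∉ Bad t →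
          ∃ h : ℝ, 0 < h ∧ Tendsto (fun N => HP (Kv W t c : ℕ) N) atTop (𝓝 h) ∧
            |HP (Kv W t c : ℕ) z0 - h| ≤ ε * h := by
  classical
  obtain ⟨X0, hX0⟩ := hp_tail
  obtain ⟨τ, hτ⟩ : ∃ τ : ℝ, τ = ε / 6 := ⟨_, rfl⟩
  have hτ0 : 0 < τ := by rw [hτ]; positivity
  obtain ⟨C0, hC0⟩ : ∃ C0 : ℝ, C0 = max 1 (6 / (c1 * τ ^ 2)) := ⟨_, rfl⟩
  have hC01 : 1 ≤ C0 := by rw [hC0]; exact le_max_left _ _
  have hC02 : 6 / (c1 * τ ^ 2) ≤ C0 := by rw [hC0]; exact le_max_right _ _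
  have hC0p : 0 < C0 := by linarith
  have hnat : Tendsto (fun X : ℕ => (X : ℝ)) atTop atTop := tendsto_natCast_atTop_atTop
  have hcard := Pool.Agent.N610.MS.CNTaux.card_small 1 (1 / (64 * C0)) one_pos (by positivity)
  have hlogC : Tendsto (fun X : ℕ => C0 * Real.log X) atTop atTop :=
    (Real.tendsto_log_atTop.comp hnat).const_mul_atTop hC0p
  have hexp : ∀ᶠ X : ℕ in atTop, 2 * C0 * Real.log X ≤ Real.exp (Real.log X / 32) := by
    obtain ⟨a, ha⟩ := M1.exp_dominates (64 * C0) 1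
    filter_upwards [(Real.tendsto_log_atTop.comp hnat).eventually_ge_atTop (32 * a)] with X h1
    have h2 := ha (Real.log X / 32) (by
      have : 32 * a ≤ Real.log X := h1
      linarith)
    rw [pow_one] at h2
    linarith
  filter_upwards [eventually_ge_atTop X0, hlogC.eventually hcard, hexp,
    hnat.eventually (big_ev (max (1000 / ε) (max (1000 / c1) (max (1000 / (τ ^ 2 * c1))
      (40 / τ))))), hlogC.eventually_ge_atTop (40 / τ),
    (Real.tendsto_log_atTop.comp hnat).eventually_ge_atTop (2 / τ)] with X hXX hcd hex hb hbig hL2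
  obtain ⟨B, Z, hBc, hZ1, hZ2, hmain⟩ := hX0 X hXX
  have hL := hb.hL
  have hS := hb.Sx_pos
  have hSeq := hb.Sx
  have hR1000 := hb.R1000
  have hR := (le_max_right _ _).trans hb.hR
  have hLR := hb.hLR
  have hXpos := hb.hX
  have hexpL : Real.exp (Real.log X / 32) ^ 32 = (X : ℝ) := by
    rw [← Real.exp_nat_mul]
    rw [show ((32 : ℕ) : ℝ) * (Real.log X / 32) = Real.log X by push_cast; ring]
    exact Real.exp_log hb.hX
  have hL2' : 2 / τ ≤ Real.log X := hL2
  set L := Real.log (X : ℝ) with hLd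
  set R := Real.exp (L / 32) with hRd
  set S := Sx (X : ℝ) with hSd
  have hL0 : 0 < L := by linarith
  have hR0 : 0 < R := by linarith
  have hRa : 1000 / ε ≤ R := (le_max_left _ _).trans hR
  have hRb : 1000 / c1 ≤ R := ((le_max_left _ _).trans (le_max_right _ _)).trans hR
  have hRc : 1000 / (τ ^ 2 * c1) ≤ R :=
    (((le_max_left _ _).trans (le_max_right _ _)).trans (le_max_right _ _)).trans hR
  set z0 := ⌊C0 * L⌋₊ with hz0
  have hz0le : (z0 : ℝ) ≤ C0 * L := Nat.floor_le (by positivity)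
  have hz0ge : C0 * L / 2 ≤ z0 := by
    have h1 := Nat.lt_floor_add_one (C0 * L)
    rw [← hz0] at h1
    have h2 : 2 ≤ C0 * L := by
      calc (2 : ℝ) ≤ 1 * L := by linarith
        _ ≤ C0 * L := mul_le_mul_of_nonneg_right hC01 hL0.le
    linarith
  have hz0L : L / 2 ≤ z0 := by
    have : 1 * L ≤ C0 * L := mul_le_mul_of_nonneg_right hC01 hL0.le
    linarith
  have hz02 : 2 ≤ z0 := by
    have : (2 : ℝ) ≤ z0 := by linarith
    exact_mod_cast this
  have hz0pos : (0 : ℝ) < z0 := by linarith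
  -- `z0 ≤ Z`
  have hZR : R ≤ 2 * Z := by
    have h1 : R ^ 20 ≤ (2 * (Z : ℝ)) ^ 20 := by
      calc R ^ 20 ≤ R ^ 32 := pow_le_pow_right₀ (by linarith) (by norm_num)
        _ = (X : ℝ) := hexpL
        _ ≤ (2 * (Z : ℝ)) ^ 20 := by exact_mod_cast hZ2
    exact (pow_le_pow_iff_left₀ hR0.le (by positivity) (by norm_num)).1 h1
  have hZR2 : (Z : ℝ) ≤ R ^ 2 := by
    have h1 : (Z : ℝ) ^ 20 ≤ (R ^ 2) ^ 20 := by
      calc (Z : ℝ) ^ 20 ≤ (X : ℝ) := by exact_mod_cast hZ1
        _ = R ^ 32 := hexpL.symm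
        _ ≤ R ^ 40 := pow_le_pow_right₀ (by linarith) (by norm_num)
        _ = (R ^ 2) ^ 20 := by ring
    exact (pow_le_pow_iff_left₀ (by positivity) (by positivity) (by norm_num)).1 h1
  have hz0Z : z0 ≤ Z := by
    have : (z0 : ℝ) ≤ Z := by
      have h1 : 2 * C0 * L ≤ R := hex
      linarith
    exact_mod_cast this
  refine ⟨z0, fun W hW hWR => ?_⟩
  have hWr : (1 : ℝ) ≤ W := by exact_mod_cast hW
  have hlam : 0 ≤ (W : ℝ) / S := by positivity
  have hwn : ∀ t : ℕ, 0 ≤ wt ((W : ℝ) / S) t := fun t => wt_nonneg hlam t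
  have hwtot : ∑ t ∈ Icc 1 (Tx X W), wt ((W : ℝ) / S) t ≤ 1 := wt_total_le _
  have hwtot0 : 0 ≤ ∑ t ∈ Icc 1 (Tx X W), wt ((W : ℝ) / S) t := sum_nonneg fun t _ => hwn t
  obtain ⟨ht1, ht2⟩ := tot_bounds hb W hW
  rw [← hSd] at ht1 ht2
  have hc0 := c0_pos
  have htotR : R ^ 15 / 80 ≤ tot X W := by
    refine le_trans ?_ ht1
    rw [le_div_iff₀ (by linarith), hSeq]
    calc R ^ 15 / 80 * (W : ℝ) ≤ R ^ 15 / 80 * R := mul_le_mul_of_nonneg_left hWR (by positivity)
      _ = R ^ 16 / 80 := by ring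
      _ ≤ 2 * c0 * (R ^ 16 / 4) := by
          have h16 : 0 < R ^ 16 := by positivity
          nlinarith
  have htot0 : 0 < tot X W := lt_of_lt_of_le (by positivity) htotR
  -- the number of characters
  have hoddp : (#(oddp W z0) : ℝ) ≤ L / 64 := by
    rw [Real.rpow_one] at hcd
    have h1 : #(oddp W z0) ≤ ((Ioc 0 ⌊C0 * L⌋₊).filter Nat.Prime).card := by
      apply card_le_card
      intro p hp
      rw [oddp, mem_filter, mem_range] at hp
      rw [mem_filter, mem_Ioc, ← hz0]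
      exact ⟨⟨hp.2.1.pos, by omega⟩, hp.2.1⟩
    have h2 : (#(oddp W z0) : ℝ) ≤ (((Ioc 0 ⌊C0 * L⌋₊).filter Nat.Prime).card : ℝ) := by
      exact_mod_cast h1
    have h3 : 1 / (64 * C0) * (C0 * L) = L / 64 := by field_simp
    rw [h3] at hcd
    linarith
  have h4R : (4 : ℝ) ^ #(oddp W z0) ≤ R := by
    have h1 : (4 : ℝ) ^ #(oddp W z0) = Real.exp (Real.log 4 * #(oddp W z0)) := by
      rw [mul_comm, Real.exp_nat_mul, Real.exp_log (by norm_num)]
    rw [h1, hRd]
    apply Real.exp_le_exp.2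
    have h2 : Real.log 4 ≤ 2 := by
      rw [show (4 : ℝ) = 2 ^ 2 by norm_num, Real.log_pow]
      have := Real.log_two_lt_d9
      push_cast; linarith
    calc Real.log 4 * (#(oddp W z0) : ℝ) ≤ 2 * (L / 64) := by
          apply mul_le_mul h2 hoddp (Nat.cast_nonneg _) (by norm_num)
      _ = L / 32 := by ring
  have hRtot : R ≤ ε * tot X W := by
    have h1 : 1000 ≤ ε * R := by rwa [div_le_iff₀ hε, mul_comm] at hRa
    have h2 : R ^ 2 * 80 ≤ R ^ 15 := by
      calc R ^ 2 * 80 ≤ R ^ 2 * R := mul_le_mul_of_nonneg_left (by linarith) (by positivity)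
        _ = R ^ 3 := by ring
        _ ≤ R ^ 15 := pow_le_pow_right₀ (by linarith) (by norm_num)
    have h3 : R ^ 2 ≤ tot X W := by linarith
    calc R = 1 * R := (one_mul R).symm
      _ ≤ (ε * R) * R := mul_le_mul_of_nonneg_right (by linarith) hR0.le
      _ = ε * R ^ 2 := by ring
      _ ≤ ε * tot X W := mul_le_mul_of_nonneg_left h3 hε.le
  have hRtot3 : 3 * R ≤ tot X W := by
    have h2 : 240 * R ≤ R ^ 15 := by
      calc 240 * R ≤ R * R := mul_le_mul_of_nonneg_right (by linarith) hR0.le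
        _ = R ^ 2 := by ring
        _ ≤ R ^ 15 := pow_le_pow_right₀ (by linarith) (by norm_num)
    linarith
  have hdvd : ∀ t : ℕ, (W : ℤ) ∣ (((W * t) ^ 2 + W : ℕ) : ℤ) := by
    intro t
    rw [Int.natCast_dvd_natCast]
    apply dvd_add _ dvd_rfl
    exact (dvd_mul_right W t).trans (dvd_pow_self _ two_ne_zero)
  refine ⟨?_, ?_, ?_⟩
  · -- the mean
    have h1 : ∑ t ∈ Icc 1 (Tx X W), wt ((W : ℝ) / S) t * ∑ c ∈ range (2 * t),
        HP (Kv W t c : ℕ) z0 - tot X W =
        ∑ t ∈ Icc 1 (Tx X W), wt ((W : ℝ) / S) t * (∑ c ∈ range (2 * t),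
          HP (Kv W t c : ℕ) z0 - ((2 * t : ℕ) : ℝ)) := by
      unfold tot
      rw [← sum_sub_distrib]
      apply sum_congr rfl
      intro t _
      rw [← mul_sub, sum_const, card_range, nsmul_eq_mul, mul_one]
    rw [h1]
    calc |∑ t ∈ Icc 1 (Tx X W), wt ((W : ℝ) / S) t * (∑ c ∈ range (2 * t),
          HP (Kv W t c : ℕ) z0 - ((2 * t : ℕ) : ℝ))| ≤
          ∑ t ∈ Icc 1 (Tx X W), wt ((W : ℝ) / S) t * R := by
          refine (abs_sum_le_sum_abs _ _).trans (sum_le_sum fun t _ => ?_)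
          rw [abs_mul, abs_of_nonneg (hwn t)]
          apply mul_le_mul_of_nonneg_left _ (hwn t)
          have h2 := HP_mean W z0 (2 * t) (((W * t) ^ 2 + W : ℕ) : ℤ) (hdvd t)
          refine le_trans (le_of_eq ?_) (h2.trans h4R)
          congr 2
          apply sum_congr rfl
          intro c _
          rw [Kv_cast]
      _ = (∑ t ∈ Icc 1 (Tx X W), wt ((W : ℝ) / S) t) * R := by rw [sum_mul]
      _ ≤ 1 * R := mul_le_mul_of_nonneg_right hwtot hR0.le
      _ ≤ _ := by rw [one_mul]; exact hRtot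
  · -- the second moment
    calc ∑ t ∈ Icc 1 (Tx X W), wt ((W : ℝ) / S) t * ∑ c ∈ range (2 * t),
        HP (Kv W t c : ℕ) z0 ^ 2 ≤
        ∑ t ∈ Icc 1 (Tx X W), wt ((W : ℝ) / S) t * (3 * (((2 * t : ℕ) : ℝ) + R)) := by
          apply sum_le_sum
          intro t _
          apply mul_le_mul_of_nonneg_left _ (hwn t)
          have h2 := HP_sq W z0 (2 * t) (((W * t) ^ 2 + W : ℕ) : ℤ) (hdvd t)
          have h3 : ∑ c ∈ range (2 * t), HP (Kv W t c : ℕ) z0 ^ 2 =
              ∑ c ∈ range (2 * t), HP ((((W * t) ^ 2 + W : ℕ) : ℤ) + W * c) z0 ^ 2 := by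
            apply sum_congr rfl
            intro c _
            rw [Kv_cast]
          rw [h3]
          linarith
      _ = 3 * tot X W + 3 * ((∑ t ∈ Icc 1 (Tx X W), wt ((W : ℝ) / S) t) * R) := by
          unfold tot
          rw [sum_mul, mul_sum, mul_sum, ← sum_add_distrib]
          apply sum_congr rfl
          intro t _
          rw [sum_const, card_range, nsmul_eq_mul, mul_one]
          ring
      _ ≤ 3 * tot X W + 3 * (1 * R) := by
          have := mul_le_mul_of_nonneg_right hwtot hR0.le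
          linarith
      _ ≤ 4 * tot X W := by linarith
  · -- the bad rows
    set BL : ℕ → Finset ℕ := fun t => (range (2 * t)).filter (fun c =>
      τ < |LOW 1 (0 ^ 2 - 4 * 1 * -((Kv W t c : ℕ) : ℤ)) z0 Z|) with hBL
    set BE : ℕ → Finset ℕ := fun t => (range (2 * t)).filter (fun c => Kv W t c ∈ B) with hBE
    refine ⟨fun t => BL t ∪ BE t, ?_, ?_, ?_⟩
    · intro t
      exact union_subset (filter_subset _ _) (filter_subset _ _)
    · have h1 : ∑ t ∈ Icc 1 (Tx X W), wt ((W : ℝ) / S) t * (#(BL t) : ℝ) ≤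
          c1 * tot X W / L / 2 := by
        calc ∑ t ∈ Icc 1 (Tx X W), wt ((W : ℝ) / S) t * (#(BL t) : ℝ) ≤
            ∑ t ∈ Icc 1 (Tx X W), wt ((W : ℝ) / S) t *
              ((((2 * t : ℕ) : ℝ) / z0 + (Z : ℝ) ^ 2) / τ ^ 2) :=
              sum_le_sum fun t _ => mul_le_mul_of_nonneg_left (low_rows W t z0 Z hz02 τ hτ0) (hwn t)
          _ = (tot X W / z0 + (Z : ℝ) ^ 2 * ∑ t ∈ Icc 1 (Tx X W), wt ((W : ℝ) / S) t) / τ ^ 2 := by
              unfold tot
              rw [sum_div, mul_sum, ← sum_add_distrib, sum_div]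
              apply sum_congr rfl
              intro t _
              rw [sum_const, card_range, nsmul_eq_mul, mul_one]
              ring
          _ ≤ (tot X W / z0 + R ^ 4 * 1) / τ ^ 2 := by
              apply div_le_div_of_nonneg_right _ (by positivity)
              have h2 : (Z : ℝ) ^ 2 ≤ R ^ 4 := by
                calc (Z : ℝ) ^ 2 ≤ (R ^ 2) ^ 2 := pow_le_pow_left₀ (by positivity) hZR2 2
                  _ = R ^ 4 := by ring
              have h3 := mul_le_mul h2 hwtot hwtot0 (by positivity)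
              linarith
          _ ≤ c1 * tot X W / L / 2 := by
              have h4 : tot X W / z0 / τ ^ 2 ≤ c1 * tot X W / L / 3 := by
                rw [div_le_iff₀ (by positivity), div_le_iff₀ hz0pos]
                have h5 : 3 * L ≤ c1 * τ ^ 2 * z0 := by
                  have h6 : 6 ≤ C0 * (c1 * τ ^ 2) := by
                    rwa [div_le_iff₀ (by positivity)] at hC02
                  calc 3 * L = 6 * (L / 2) := by ring
                    _ ≤ C0 * (c1 * τ ^ 2) * (L / 2) :=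
                        mul_le_mul_of_nonneg_right h6 (by positivity)
                    _ = c1 * τ ^ 2 * (C0 * L / 2) := by ring
                    _ ≤ c1 * τ ^ 2 * z0 := mul_le_mul_of_nonneg_left hz0ge (by positivity)
                have e1 : c1 * tot X W / L / 3 * τ ^ 2 * z0 =
                    tot X W * (c1 * τ ^ 2 * z0 / (3 * L)) := by field_simp
                rw [e1]
                have h7 : 1 ≤ c1 * τ ^ 2 * z0 / (3 * L) := by
                  rw [le_div_iff₀ (by positivity)]; linarith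
                calc tot X W = tot X W * 1 := (mul_one _).symm
                  _ ≤ _ := mul_le_mul_of_nonneg_left h7 htot0.le
              have h8 : R ^ 4 * 1 / τ ^ 2 ≤ c1 * tot X W / L / 6 := by
                rw [mul_one, div_le_iff₀ (by positivity)]
                have h9 : 1000 ≤ τ ^ 2 * c1 * R := by
                  rwa [div_le_iff₀ (by positivity), mul_comm] at hRc
                have h10 : c1 * (R ^ 15 / 80) / R / 6 * τ ^ 2 ≤ c1 * tot X W / L / 6 * τ ^ 2 := by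
                  gcongr
                refine le_trans ?_ h10
                have e2 : c1 * (R ^ 15 / 80) / R / 6 * τ ^ 2 = (τ ^ 2 * c1 * R) * R ^ 13 / 480 := by
                  field_simp
                  ring
                rw [e2]
                have h11 : R ^ 4 ≤ R ^ 13 := pow_le_pow_right₀ (by linarith) (by norm_num)
                have h12 : 1000 * R ^ 13 ≤ (τ ^ 2 * c1 * R) * R ^ 13 :=
                  mul_le_mul_of_nonneg_right h9 (by positivity)
                have h13 : 0 < R ^ 13 := by positivity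
                linarith
              rw [add_div]
              have e3 : c1 * tot X W / L / 2 = c1 * tot X W / L / 3 + c1 * tot X W / L / 6 := by
                ring
              rw [e3]
              exact add_le_add h4 h8
      have h2 : ∑ t ∈ Icc 1 (Tx X W), wt ((W : ℝ) / S) t * (#(BE t) : ℝ) ≤
          c1 * tot X W / L / 2 := by
        refine (exc_rows X W hW hS B).trans ?_
        have hB24 : (#B : ℝ) ≤ R ^ 24 := by
          refine hBc.trans (le_of_eq ?_)
          rw [← hexpL, ← Real.rpow_natCast, ← Real.rpow_natCast, ← Real.rpow_mul hR0.le]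
          norm_num
        have h3 : (W : ℝ) / S / 2 * #B ≤ R / S / 2 * R ^ 24 := by gcongr
        refine h3.trans ?_
        have h9 : 1000 ≤ c1 * R := by rwa [div_le_iff₀ hc1, mul_comm] at hRb
        have e1 : R / S / 2 * R ^ 24 = 2 * R ^ 9 := by
          rw [hSeq]
          field_simp
          ring
        rw [e1]
        have h10 : c1 * (R ^ 15 / 80) / R / 2 ≤ c1 * tot X W / L / 2 := by gcongr
        refine le_trans ?_ h10
        have e2 : c1 * (R ^ 15 / 80) / R / 2 = (c1 * R) * R ^ 13 / 160 := by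
          field_simp
          ring
        rw [e2]
        have h11 : R ^ 9 ≤ R ^ 13 := pow_le_pow_right₀ (by linarith) (by norm_num)
        have h12 : 1000 * R ^ 13 ≤ (c1 * R) * R ^ 13 := mul_le_mul_of_nonneg_right h9 (by positivity)
        have h13 : 0 < R ^ 13 := by positivity
        linarith
      calc ∑ t ∈ Icc 1 (Tx X W), wt ((W : ℝ) / S) t * (#(BL t ∪ BE t) : ℝ) ≤
          ∑ t ∈ Icc 1 (Tx X W), (wt ((W : ℝ) / S) t * (#(BL t) : ℝ) +
            wt ((W : ℝ) / S) t * (#(BE t) : ℝ)) := by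
            apply sum_le_sum
            intro t _
            rw [← mul_add]
            apply mul_le_mul_of_nonneg_left _ (hwn t)
            exact_mod_cast card_union_le _ _
        _ ≤ c1 * tot X W / L / 2 + c1 * tot X W / L / 2 := by
            rw [sum_add_distrib]
            exact add_le_add h1 h2
        _ = c1 * tot X W / L := by ring
    · intro t ht c hc hcB
      have hcr := mem_range.1 hc
      rw [mem_union, not_or] at hcB
      have hnE : Kv W t c ∉ B := by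
        intro h
        exact hcB.2 (by rw [hBE]; exact mem_filter.2 ⟨hc, h⟩)
      have hnL : |LOW 1 (0 ^ 2 - 4 * 1 * -((Kv W t c : ℕ) : ℤ)) z0 Z| ≤ τ := by
        by_contra hcon
        push Not at hcon
        exact hcB.1 (by rw [hBL]; exact mem_filter.2 ⟨hc, hcon⟩)
      have hnsq := Kv_nsq (W := W) hW hcr
      have hmem := Kv_le hb hW hWR ht hcr
      obtain ⟨h, hh0, hlim, hcl⟩ := hp_lim (Kv W t c) hnsq
      refine ⟨h, hh0, hlim, ?_⟩
      have hev := hmain (Kv W t c) hmem hnE hnsq z0 hz02 hz0Z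
      have h3τ : |HP (Kv W t c : ℕ) z0 - h| ≤ 2 * (3 * τ) * h := by
        apply hcl z0 (3 * τ) (by rw [hτ]; linarith)
        filter_upwards [hev] with N hN
        refine hN.trans ?_
        have h5 : 1 / L ≤ τ := by
          rw [div_le_iff₀ hL0]
          rw [div_le_iff₀ hτ0] at hL2'
          linarith
        have h6 : 12 / (z0 : ℝ) ≤ τ := by
          rw [div_le_iff₀ hz0pos]
          have h7 : 40 / τ ≤ C0 * L := hbig
          rw [div_le_iff₀ hτ0] at h7
          have h8 : τ * (C0 * L / 2) ≤ τ * z0 := mul_le_mul_of_nonneg_left hz0ge hτ0.le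
          linarith
        exact (add_le_add (add_le_add hnL h5) h6).trans (le_of_eq (by ring))
      refine h3τ.trans (le_of_eq ?_)
      rw [hτ]
      ring

end Pool.Agent.W2helper20.MQ
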