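import Pool.Agent.W2helper20.MQ.Cmb

set_option autoImplicit false

/-!
# Project MQ: number of primes of the rows on average (helper20)
-/

namespace Pool.Agent.W2helper20.MQ

open Finset Filter Topology
open Pool.Agent.H378R2
open Pool.Agent.N610.MS (V rel)

lemma cop_aux {a : ℕ} {s : Finset ℕ} (ha : a.Prime) (hs : ∀ p ∈ s, p.Prime) (h : a ∉ s) :
    Nat.Coprime a (∏ p ∈ s, p) := by
  apply Nat.Coprime.prod_right
  intro i hi
  rw [Nat.coprime_primes ha (hs i hi)]
  rintro rfl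
  exact h hi

lemma sqf_prod (P : Finset ℕ) (hP : ∀ p ∈ P, p.Prime) : Squarefree (∏ p ∈ P, p) := by
  induction P using Finset.induction_on with
  | empty => simp
  | insert a s ha ih =>
    have hap := hP a (mem_insert_self _ _)
    have hs : ∀ p ∈ s, p.Prime := fun p hp => hP p (mem_insert_of_mem hp)
    rw [prod_insert ha, Nat.squarefree_mul_iff]
    exact ⟨cop_aux hap hs ha, hap.squarefree, ih hs⟩

lemma tot_prod (P : Finset ℕ) (hP : ∀ p ∈ P, p.Prime) :
    ((∏ p ∈ P, p : ℕ).totient : ℝ) = (∏ p ∈ P, p : ℕ) * ∏ p ∈ P, (1 - 1 / (p : ℝ)) := by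
  induction P using Finset.induction_on with
  | empty => simp
  | insert a s ha ih =>
    have hap := hP a (mem_insert_self _ _)
    have hs : ∀ p ∈ s, p.Prime := fun p hp => hP p (mem_insert_of_mem hp)
    have ih := ih hs
    rw [prod_insert ha, Nat.totient_mul (cop_aux hap hs ha), Nat.totient_prime hap,
      prod_insert ha]
    push_cast [hap.one_le] at ih ⊢
    rw [ih]
    have : (a : ℝ) ≠ 0 := by exact_mod_cast hap.ne_zero
    field_simp

lemma cop_iff (P : Finset ℕ) (hP : ∀ p ∈ P, p.Prime) (i : ℕ) (h : ∀ p ∈ P, ¬ p ∣ i) :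
    i.Coprime (∏ p ∈ P, p) := by
  apply Nat.Coprime.prod_right
  intro p hp
  exact ((hP p hp).coprime_iff_not_dvd.2 (h p hp)).symm

/-- **number of primes in the rows, on average** -/
theorem pn_ev (B ε : ℝ) (hB : 1 < B) (hε : 0 < ε) (hε1 : ε ≤ 1) : ∀ᶠ X : ℝ in atTop,
    ∃ ps : ℕ, ∀ P : Finset ℕ, (∀ p ∈ P, p.Prime ∧ p ≠ ps) →
      ((∏ p ∈ P, p : ℕ) : ℝ) ≤ Real.exp ((Real.log X) ^ (1 / 40 : ℝ) / 32) →
      1 / 2 ≤ ∏ p ∈ P, (1 - 1 / (p : ℝ)) →
      ∀ H : ℕ, Real.log X ^ B ≤ H → (H : ℝ) ≤ Real.exp (√(Real.log X)) →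
        |∑ t ∈ Icc 1 (Tx X (∏ p ∈ P, p)), wt (((∏ p ∈ P, p : ℕ) : ℝ) / Sx X) t *
          ∑ c ∈ range (2 * t), Pn (∏ p ∈ P, p) H t c -
            tot X (∏ p ∈ P, p) * (2 * H / Real.log X) * rel P H| ≤
          ε * (tot X (∏ p ∈ P, p) * (2 * H / Real.log X)) := by
  have hpow : Tendsto (fun X : ℝ => Real.log X ^ (B - 1)) atTop atTop :=
    (tendsto_rpow_atTop (by linarith)).comp Real.tendsto_log_atTop
  set ε' : ℝ := ε / 20 with hε'
  have hε'0 : 0 < ε' := by positivity
  filter_upwards [lam_rows ε' hε'0, big_ev (320 / ε), sqrt_small ε' hε'0,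
    hpow.eventually_ge_atTop (40 / ε)] with X hlam hb hsm hpw
  obtain ⟨ps, hps, hlam⟩ := hlam
  refine ⟨ps, fun P hP hWl hhalf H hH1 hH2 => ?_⟩
  have hPp : ∀ p ∈ P, p.Prime := fun p hp => (hP p hp).1
  have hVdef : ((V P H : ℕ) : ℝ) = ∑ i ∈ Icc 1 H, (if ∀ p ∈ P, ¬ p ∣ i then (1 : ℝ) else 0) := by
    unfold V
    rw [Finset.sum_ite, sum_const_zero, add_zero, sum_const, nsmul_eq_mul, mul_one]
  have htp := tot_prod P hPp
  have hsq := sqf_prod P hPp
  have hcopi := cop_iff P hPp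
  have hzero := fun i => Pr_zero X P hPp i
  have hWcop : (∏ p ∈ P, p).Coprime ps := by
    rcases hps with h | h
    · rw [h]; exact Nat.coprime_one_right _
    · apply Nat.Coprime.prod_left
      intro p hp
      exact (Nat.coprime_primes (hPp p hp) h).2 (hP p hp).2
  have hW : 1 ≤ ∏ p ∈ P, p := Finset.prod_pos fun p hp => (hPp p hp).pos
  set W := ∏ p ∈ P, p with hWd
  set Bp : ℝ := ∏ p ∈ P, (1 - 1 / (p : ℝ)) with hBp
  have hS := hb.Sx_pos
  have hL := hb.hL
  have hWR : (W : ℝ) ≤ Real.exp (Real.log X / 32) := hWl.trans (exp40_le (by linarith))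
  have hc0 := c0_pos
  have hWr : (1 : ℝ) ≤ W := by exact_mod_cast hW
  have hφ0 : (0 : ℝ) < Nat.totient W := by exact_mod_cast Nat.totient_pos.mpr (by omega)
  obtain ⟨ht1, ht2⟩ := tot_bounds hb W hW
  have hR := (le_max_right _ _).trans hb.hR
  have hR1000 := hb.R1000
  have hSeq := hb.Sx
  set L := Real.log X with hLd
  set R := Real.exp (L / 32) with hRd
  set S := Sx X with hSd
  have hL0 : 0 < L := by linarith
  have hR0 : 0 < R := by linarith
  have hB0 : 0 < Bp := by linarith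
  -- `A = tot / Bp` up to a constant
  set A := 2 * c0 * S / W.totient with hA
  have hA0 : 0 < A := by
    rw [hA]
    apply div_pos _ hφ0
    apply mul_pos _ hS
    linarith
  have hAB : A * Bp = 2 * c0 * S / W := by
    rw [hA, htp]
    field_simp
  rw [← hAB] at ht1 ht2
  have hBp1 : Bp ≤ 1 := by
    rw [hBp]
    apply prod_le_one
    · intro p hp
      have : (1 : ℝ) ≤ p := by exact_mod_cast (hPp p hp).one_lt.le
      have h2 : 1 / (p : ℝ) ≤ 1 := by rw [div_le_one (by linarith)]; exact this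
      linarith
    · intro p hp
      have : (0 : ℝ) ≤ 1 / (p : ℝ) := by positivity
      linarith
  set τ := tot X W with hτ
  have hAτ : A ≤ 2 * τ := by nlinarith
  have hτ0 : 0 < τ := lt_of_lt_of_le (by positivity) ht1
  -- `τ` is large
  have hτbig : 80 / ε ≤ τ := by
    refine le_trans ?_ ht1
    rw [hAB, hSeq, le_div_iff₀ (by linarith)]
    have h1 : 80 / ε ≤ R := by
      refine le_trans ?_ hR
      apply div_le_div_of_nonneg_right (by norm_num) hε.le
    calc 80 / ε * (W : ℝ) ≤ R * R := mul_le_mul h1 hWR (by linarith) hR0.le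
      _ ≤ R ^ 16 / 160 := by
          have h2 : R ^ 3 ≤ R ^ 16 := pow_le_pow_right₀ (by linarith) (by norm_num)
          have h3 : 160 * (R * R) ≤ R ^ 3 := by
            calc 160 * (R * R) ≤ R * (R * R) :=
                  mul_le_mul_of_nonneg_right (by linarith) (by positivity)
              _ = R ^ 3 := by ring
          linarith
      _ ≤ 2 * c0 * (R ^ 16 / 4) := by
          have h16 : 0 < R ^ 16 := by positivity
          nlinarith
  -- `H / L` is large
  have hHL : 40 / ε ≤ H / L := by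
    have h1 : L ^ B = L ^ (B - 1) * L := by
      rw [← Real.rpow_add_one hL0.ne']
      congr 1; ring
    rw [h1] at hH1
    refine hpw.trans ?_
    rw [le_div_iff₀ hL0]; exact hH1
  have hHpos : 0 < (H : ℝ) / L := lt_of_lt_of_le (by positivity) hHL
  have hH0 : (0 : ℝ) < H := by
    by_contra hcon
    push Not at hcon
    have : (H : ℝ) / L ≤ 0 := div_nonpos_of_nonpos_of_nonneg hcon hL0.le
    linarith
  have hH1' : 1 ≤ H := by exact_mod_cast hH0
  -- termwise
  have hterm : ∀ i ∈ Icc 1 H, |Pr X W i - 2 / L * A * (if ∀ p ∈ P, ¬ p ∣ i then (1 : ℝ) else 0)| ≤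
      3 * ε' * (2 / L * A) + (if i = 1 then τ + 2 / L * A else 0) := by
    intro i hi
    rw [mem_Icc] at hi
    have hpos : 0 < 2 / L * A := by positivity
    have hpos' : 0 < 3 * ε' * (2 / L * A) := by positivity
    by_cases h1 : i = 1
    · rw [if_pos h1]
      have h2 := Pr_nonneg X W i hS
      have h3 := Pr_le_tot X W i hS
      rw [abs_le]
      split_ifs <;> constructor <;> nlinarith
    · rw [if_neg h1, add_zero]
      have hi2 : 2 ≤ i := by omega
      have hiH : (i : ℝ) ≤ H := by exact_mod_cast hi.2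
      by_cases h2 : ∀ p ∈ P, ¬ p ∣ i
      · rw [if_pos h2, mul_one]
        obtain ⟨h3, h4⟩ := hlam W hW hsq hWcop hWl i hi2 (hiH.trans hH2) (hcopi i h2)
        exact Pr_main hb ε' hε'0 (by rw [hε']; linarith) W i hW hWR hi2 (hiH.trans hH2) hsm h3 h4
      · rw [if_neg h2, mul_zero, sub_zero, hzero i h2 hi2, abs_zero]
        exact hpos'.le
  rw [sum_Pn]
  have hsum : |∑ i ∈ Icc 1 H, Pr X W i - 2 / L * A * V P H| ≤
      H * (3 * ε' * (2 / L * A)) + (τ + 2 / L * A) := by
    rw [hVdef, mul_sum, ← sum_sub_distrib]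
    refine (abs_sum_le_sum_abs _ _).trans ((sum_le_sum hterm).trans ?_)
    rw [sum_add_distrib, sum_const, Nat.card_Icc, nsmul_eq_mul, Nat.add_sub_cancel, sum_ite_eq',
      if_pos (mem_Icc.2 ⟨le_rfl, hH1'⟩)]
  have hVH : ((V P H : ℕ) : ℝ) ≤ H := by
    unfold V
    have := card_filter_le (Icc 1 H) (fun h => ∀ p ∈ P, ¬ p ∣ h)
    rw [Nat.card_Icc, Nat.add_sub_cancel] at this
    exact_mod_cast this
  have hV0 : (0 : ℝ) ≤ (V P H : ℕ) := Nat.cast_nonneg _
  have hrel : τ * (2 * H / L) * rel P H = 2 / L * (τ / Bp) * V P H := by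
    unfold rel
    rw [Nat.floor_natCast, ← hBp]
    field_simp
  have hcmp : |2 / L * A * V P H - 2 / L * (τ / Bp) * V P H| ≤ 2 / L * 4 * H := by
    have e1 : 2 / L * A * (V P H : ℝ) - 2 / L * (τ / Bp) * V P H =
        2 / L * (A - τ / Bp) * V P H := by ring
    have e2 : |A - τ / Bp| ≤ 4 := by
      have e3 : A - τ / Bp = (A * Bp - τ) / Bp := by field_simp
      rw [e3, abs_div, abs_of_pos hB0, div_le_iff₀ hB0, abs_le]
      constructor <;> nlinarith
    rw [e1, abs_mul, abs_mul, abs_of_pos (by positivity : 0 < 2 / L), abs_of_nonneg hV0]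
    apply mul_le_mul _ hVH hV0 (by positivity)
    exact mul_le_mul_of_nonneg_left e2 (by positivity)
  rw [hrel]
  calc |∑ i ∈ Icc 1 H, Pr X W i - 2 / L * (τ / Bp) * V P H| =
        |(∑ i ∈ Icc 1 H, Pr X W i - 2 / L * A * V P H) +
          (2 / L * A * V P H - 2 / L * (τ / Bp) * V P H)| := by ring_nf
    _ ≤ |∑ i ∈ Icc 1 H, Pr X W i - 2 / L * A * V P H| +
          |2 / L * A * V P H - 2 / L * (τ / Bp) * V P H| := abs_add_le _ _
    _ ≤ H * (3 * ε' * (2 / L * A)) + (τ + 2 / L * A) + 2 / L * 4 * H := add_le_add hsum hcmp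
    _ ≤ H * (3 * ε' * (2 / L * (2 * τ))) + (τ + 2 / L * (2 * τ)) + 2 / L * 4 * H := by gcongr
    _ ≤ ε * (τ * (2 * H / L)) := by
        set h := (H : ℝ) / L with hh
        have e1 : (H : ℝ) * (3 * ε' * (2 / L * (2 * τ))) = 3 / 5 * (ε * (τ * h)) := by
          rw [hε', hh]; ring
        have e2 : ε * (τ * (2 * H / L)) = 2 * (ε * (τ * h)) := by rw [hh]; ring
        have e3 : 2 / L * 4 * (H : ℝ) = 8 * h := by rw [hh]; ring
        have e4 : 2 / L * (2 * τ) ≤ τ := by
          have h2 : 2 / L ≤ 1 / 2 := by rw [div_le_iff₀ hL0]; linarith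
          nlinarith
        have e5 : 40 ≤ ε * h := by rwa [div_le_iff₀ hε, mul_comm] at hHL
        have e6 : 80 ≤ ε * τ := by rwa [div_le_iff₀ hε, mul_comm] at hτbig
        have e7 : 40 * τ ≤ ε * (τ * h) := by
          calc 40 * τ ≤ (ε * h) * τ := mul_le_mul_of_nonneg_right e5 hτ0.le
            _ = ε * (τ * h) := by ring
        have e8 : 80 * h ≤ ε * (τ * h) := by
          calc 80 * h ≤ (ε * τ) * h := mul_le_mul_of_nonneg_right e6 hHpos.le
            _ = ε * (τ * h) := by ring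
        rw [e1, e2, e3]
        linarith

end Pool.Agent.W2helper20.MQ
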