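import Pool.Agent.W2helper20.MQ.Cnt
import Pool.Agent.W2helper20.MQ.Pnev
import Pool.Agent.W2helper20.MQ.Good
import Pool.Agent.W2helper20.MQ.Abs

set_option autoImplicit false

/-!
# Project MQ: the main theorem in terms of the rows (helper20)
-/

namespace Pool.Agent.W2helper20.MQ

open Finset Filter Topology
open Pool.Agent.H378R2
open Pool.Agent.TH892.SW (HP)
open Pool.Agent.N610.MS (V rel)

/-- the constant -/
noncomputable def hl (K : ℕ) : ℝ := limUnder atTop (fun N => HP (K : ℤ) N)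

lemma HP_nonneg (K : ℤ) (z : ℕ) : 0 ≤ HP K z := by
  unfold HP
  apply prod_nonneg
  intro w hw
  rw [mem_filter] at hw
  have h2 := hw.2.1.two_le
  have h3 : (3 : ℝ) ≤ w := by
    have : 3 ≤ w := by omega
    exact_mod_cast this
  have h4 := (abs_le.1 (Pool.Agent.W468.ConjF.js_abs K w)).2
  have h5 : (jacobiSym K w : ℝ) / ((w : ℝ) - 1) ≤ 1 := by
    rw [div_le_one (by linarith)]
    linarith
  linarith

lemma Pn_bd (W H t c : ℕ) : 0 ≤ Pn W H t c ∧ Pn W H t c ≤ H := by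
  unfold Pn
  constructor
  · apply sum_nonneg
    intro i _
    split_ifs <;> norm_num
  · calc ∑ i ∈ Icc 1 H, (if (qv W i t c).Prime then (1 : ℝ) else 0) ≤ ∑ i ∈ Icc 1 H, (1 : ℝ) := by
          apply sum_le_sum
          intro i _
          split_ifs <;> norm_num
      _ = H := by simp

/-- powers of the logarithm against `exp` -/
lemma size_ev (ε ε' C3 : ℝ) (hε' : 0 < ε') (hεε : ε' < ε) (hC3 : 0 < C3) : ∀ᶠ L : ℝ in atTop,
    C3 * L * (Real.exp (L ^ ε') * Real.exp (L ^ ε')) ≤ Real.exp (L ^ ε) := by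
  have h1 : ∀ᶠ L : ℝ in atTop, Real.log L ≤ 1 / 2 * L ^ ε' := by
    have := (isLittleO_log_rpow_atTop hε').bound (show (0 : ℝ) < 1 / 2 by norm_num)
    filter_upwards [this, eventually_ge_atTop (1 : ℝ)] with L h2 h3
    rw [Real.norm_of_nonneg (Real.log_nonneg h3),
      Real.norm_of_nonneg (Real.rpow_nonneg (by linarith) _)] at h2
    exact h2
  have h2 : ∀ᶠ L : ℝ in atTop, 2 * Real.log C3 ≤ L ^ ε' :=
    (tendsto_rpow_atTop hε').eventually_ge_atTop _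
  have h3 : ∀ᶠ L : ℝ in atTop, 3 ≤ L ^ (ε - ε') :=
    (tendsto_rpow_atTop (by linarith)).eventually_ge_atTop _
  filter_upwards [h1, h2, h3, eventually_gt_atTop (0 : ℝ)] with L h4 h5 h6 h7
  have h8 : C3 * L ≤ Real.exp (L ^ ε') := by
    rw [← Real.log_le_iff_le_exp (by positivity), Real.log_mul hC3.ne' h7.ne']
    linarith
  have h9 : 0 < L ^ ε' := Real.rpow_pos_of_pos h7 _
  calc C3 * L * (Real.exp (L ^ ε') * Real.exp (L ^ ε')) ≤
        Real.exp (L ^ ε') * (Real.exp (L ^ ε') * Real.exp (L ^ ε')) :=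
        mul_le_mul_of_nonneg_right h8 (by positivity)
    _ = Real.exp (3 * L ^ ε') := by
        rw [← Real.exp_add, ← Real.exp_add]
        congr 1
        ring
    _ ≤ Real.exp (L ^ ε) := by
        apply Real.exp_le_exp.2
        have : L ^ ε = L ^ (ε - ε') * L ^ ε' := by
          rw [← Real.rpow_add h7]
          congr 1
          ring
        rw [this]
        exact mul_le_mul_of_nonneg_right h6 h9.le

/-- powers of the logarithm against `exp √L` -/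
lemma pow_ev (B : ℝ) : ∀ᶠ L : ℝ in atTop, L ^ B ≤ Real.exp (√L) := by
  have h1 : ∀ᶠ L : ℝ in atTop, |B| * Real.log L ≤ √L := by
    have := (isLittleO_log_rpow_atTop (show (0 : ℝ) < 1 / 2 by norm_num)).bound
      (show (0 : ℝ) < 1 / (|B| + 1) by positivity)
    filter_upwards [this, eventually_ge_atTop (1 : ℝ)] with L h2 h3
    rw [Real.norm_of_nonneg (Real.log_nonneg h3),
      Real.norm_of_nonneg (Real.rpow_nonneg (by linarith) _), ← Real.sqrt_eq_rpow,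
      div_mul_eq_mul_div, one_mul, le_div_iff₀ (by positivity)] at h2
    have h4 := Real.log_nonneg h3
    nlinarith [abs_nonneg B]
  filter_upwards [h1, eventually_ge_atTop (1 : ℝ)] with L h2 h3
  rw [Real.rpow_def_of_pos (by linarith)]
  apply Real.exp_le_exp.2
  have h4 := Real.log_nonneg h3
  have h5 : Real.log L * B ≤ |B| * Real.log L := by
    rw [mul_comm]
    exact mul_le_mul_of_nonneg_right (le_abs_self B) h4
  linarith

/-- `L ^ ε'` against `L ^ (1 / 40)` -/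
lemma forty_ev (ε' : ℝ) (hε' : ε' < 1 / 40) : ∀ᶠ L : ℝ in atTop,
    L ^ ε' ≤ L ^ (1 / 40 : ℝ) / 32 := by
  have h3 : ∀ᶠ L : ℝ in atTop, 32 ≤ L ^ (1 / 40 - ε') :=
    (tendsto_rpow_atTop (by linarith)).eventually_ge_atTop _
  filter_upwards [h3, eventually_gt_atTop (0 : ℝ)] with L h6 h7
  rw [le_div_iff₀ (by norm_num)]
  have : L ^ (1 / 40 : ℝ) = L ^ ε' * L ^ (1 / 40 - ε') := by
    rw [← Real.rpow_add h7]
    congr 1
    ring
  rw [this]
  exact mul_le_mul_of_nonneg_left h6 (Real.rpow_nonneg h7.le _)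

/-- the three inequalities -/
lemma three_ineq (C σ δ ε₀ D N TM ρ : ℝ) (hC : 0 < C) (hσ : σ = 1 ∨ σ = -1) (hδ0 : 0 < δ)
    (hTM : 0 < TM) (h1 : 20 * ε₀ ≤ 1 / 20) (h2 : 20 * ε₀ ≤ δ / 20) (h3 : 20 * ε₀ ≤ δ / C / 20)
    (hD : |D - TM * (ρ - 1)| ≤ 20 * ε₀ * TM) (hN : |N - TM| ≤ 20 * ε₀ * TM) :
    (2 * δ ≤ σ * (ρ - 1) → δ * N ≤ σ * D ∧ 3 / 2 * δ * TM ≤ σ * D) ∧
    (-(δ / (2 * C)) ≤ σ * (ρ - 1) → -(δ / C) * N ≤ σ * D) ∧
    (|ρ - 1| ≤ δ / (2 * C) → |D| ≤ δ / C * N) ∧ N ≤ 11 / 10 * TM ∧ 0 < N := by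
  obtain ⟨n1, n2⟩ := abs_le.1 hN
  have g1 : 20 * ε₀ * TM ≤ 1 / 20 * TM := mul_le_mul_of_nonneg_right h1 hTM.le
  have g2 : 20 * ε₀ * TM ≤ δ / 20 * TM := mul_le_mul_of_nonneg_right h2 hTM.le
  have g3 : 20 * ε₀ * TM ≤ δ / C / 20 * TM := mul_le_mul_of_nonneg_right h3 hTM.le
  have hσD : σ * D ≥ TM * (σ * (ρ - 1)) - 20 * ε₀ * TM := by
    have e : σ * D = TM * (σ * (ρ - 1)) + σ * (D - TM * (ρ - 1)) := by ring
    rw [e]
    obtain ⟨d1, d2⟩ := abs_le.1 hD
    rcases hσ with h | h <;> rw [h] <;> linarith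
  have hδC : 0 < δ / C := by positivity
  have e2C : δ / (2 * C) = δ / C / 2 := by field_simp
  have hNlo : 19 / 20 * TM ≤ N := by linarith
  have hNhi : N ≤ 21 / 20 * TM := by linarith
  refine ⟨fun h => ?_, fun h => ?_, fun h => ?_, by linarith, by linarith⟩
  · have h4 : TM * (2 * δ) ≤ TM * (σ * (ρ - 1)) := mul_le_mul_of_nonneg_left h hTM.le
    have h5 : δ * N ≤ δ * (21 / 20 * TM) := mul_le_mul_of_nonneg_left hNhi hδ0.le
    have h6 : 0 < δ * TM := mul_pos hδ0 hTM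
    constructor <;> nlinarith
  · rw [e2C] at h
    have h4 : TM * (-(δ / C / 2)) ≤ TM * (σ * (ρ - 1)) := mul_le_mul_of_nonneg_left h hTM.le
    have h5 : δ / C * (19 / 20 * TM) ≤ δ / C * N := mul_le_mul_of_nonneg_left hNlo hδC.le
    have h6 : 0 < δ / C * TM := mul_pos hδC hTM
    nlinarith
  · rw [e2C] at h
    have h5 : δ / C * (19 / 20 * TM) ≤ δ / C * N := mul_le_mul_of_nonneg_left hNlo hδC.le
    have h6 : 0 < δ / C * TM := mul_pos hδC hTM
    have h7 : |TM * (ρ - 1)| ≤ TM * (δ / C / 2) := by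
      rw [abs_mul, abs_of_pos hTM]
      exact mul_le_mul_of_nonneg_left h hTM.le
    have h8 : |D| ≤ |D - TM * (ρ - 1)| + |TM * (ρ - 1)| := by
      have := abs_add_le (D - TM * (ρ - 1)) (TM * (ρ - 1))
      rwa [sub_add_cancel] at this
    nlinarith

/-- the excess of the row -/
noncomputable def Dx (W H : ℕ) (x : (_ : ℕ) × ℕ) : ℝ :=
  Pn W H x.1 x.2 - hl (Kv W x.1 x.2) * Mn W H x.1 x.2

/-- the predicted number of the row -/
noncomputable def Nx (W H : ℕ) (x : (_ : ℕ) × ℕ) : ℝ := hl (Kv W x.1 x.2) * Mn W H x.1 x.2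

set_option maxHeartbeats 4000000 in
/-- **the main theorem in terms of the rows** -/
theorem rowmain (B ε η : ℝ) (hB : 1 < B) (hε : 0 < ε) (hη : 0 < η) : ∃ κ : ℝ, 0 < κ ∧
    ∀ C σ : ℝ, 0 < C → (σ = 1 ∨ σ = -1) → ∃ δ : ℝ, 0 < δ ∧ ∀ᶠ X : ℕ in atTop,
      ∃ (W : ℕ) (G : Finset ((_ : ℕ) × ℕ)) (w : (_ : ℕ) × ℕ → ℝ), 1 ≤ W ∧
        (∀ x ∈ G, x.2 < 2 * x.1 ∧ Kv W x.1 x.2 ∈ Icc 1 X ∧ 0 < hl (Kv W x.1 x.2) ∧
          Tendsto (fun N => HP (Kv W x.1 x.2 : ℕ) N) atTop (𝓝 (hl (Kv W x.1 x.2)))) ∧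
        (∀ x ∈ G, 0 ≤ w x ∧ w x ≤ Real.exp (Real.log X ^ ε) / X) ∧ ∑ x ∈ G, w x = 1 ∧
        ∀ H : ℕ, Real.log X ^ B ≤ H →
          (H ≤ Real.log X ^ (B + κ) → δ * ∑ x ∈ G, w x * Nx W H x ≤ σ * ∑ x ∈ G, w x * Dx W H x) ∧
          (H ≤ Real.exp (√(Real.log X)) →
            -(δ / C) * ∑ x ∈ G, w x * Nx W H x ≤ σ * ∑ x ∈ G, w x * Dx W H x) ∧
          (Real.log X ^ (B + η) ≤ H → H ≤ Real.exp (√(Real.log X)) →
            |∑ x ∈ G, w x * Dx W H x| ≤ δ / C * ∑ x ∈ G, w x * Nx W H x) ∧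
          (H ≤ Real.log X ^ (B + κ) → X * Real.exp (-(Real.log X ^ ε)) ≤
            #(G.filter (fun x => δ * Nx W H x ≤ σ * Dx W H x))) := by
  classical
  set ε' : ℝ := min (ε / 2) (1 / 80) with hε'
  have hε'0 : 0 < ε' := by rw [hε']; positivity
  have hε'1 : ε' < ε := by
    have : ε' ≤ ε / 2 := min_le_left _ _
    linarith
  have hε'2 : ε' < 1 / 40 := by
    have : ε' ≤ 1 / 80 := min_le_right _ _
    linarith
  obtain ⟨κ, hκ, hcnt⟩ := cnt B η ε' (by linarith) hη hε'0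
  refine ⟨κ, hκ, fun C σ hC hσ => ?_⟩
  obtain ⟨δ, hδ0, hδ1, hP⟩ := hcnt (2 * C) σ (by positivity) hσ
  refine ⟨δ, hδ0, ?_⟩
  obtain ⟨ε₀, he0, he1, he2, he3⟩ : ∃ ε₀ : ℝ, 0 < ε₀ ∧ 20 * ε₀ ≤ 1 / 20 ∧ 20 * ε₀ ≤ δ / 20 ∧
      20 * ε₀ ≤ δ / C / 20 := by
    refine ⟨min (1 / 400) (min (δ / 400) (δ / C / 400)), by positivity, ?_, ?_, ?_⟩
    · have := min_le_left (1 / 400 : ℝ) (min (δ / 400) (δ / C / 400))
      linarith
    · have := (min_le_right (1 / 400 : ℝ) (min (δ / 400) (δ / C / 400))).trans (min_le_left _ _)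
      linarith
    · have := (min_le_right (1 / 400 : ℝ) (min (δ / 400) (δ / C / 400))).trans (min_le_right _ _)
      linarith
  have he10 : ε₀ ≤ 1 / 10 := by linarith
  have he11 : ε₀ ≤ 1 := by linarith
  have hnat : Tendsto (fun X : ℕ => (X : ℝ)) atTop atTop := tendsto_natCast_atTop_atTop
  have hlog : Tendsto (fun X : ℕ => Real.log (X : ℝ)) atTop atTop :=
    Real.tendsto_log_atTop.comp hnat
  filter_upwards [hnat.eventually (pn_ev B ε₀ hB he0 he11),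
    hnat.eventually (mn_ev B ε₀ hB he0 he11), hlog.eventually hP,
    good_ev (ε₀ ^ 2) ε₀ (by positivity) he0 he11, hnat.eventually (big_ev 0),
    hlog.eventually_ge_atTop (80 / δ), hlog.eventually (pow_ev (B + κ)),
    hlog.eventually (forty_ev ε' hε'2),
    hlog.eventually (size_ev ε ε' (600 / δ) hε'0 hε'1 (by positivity)),
    hlog.eventually (pow_ev B)] with X hpn hmn hPX hgood hb hLδ hpw hforty hsize hpwB
  obtain ⟨ps, hpn⟩ := hpn
  obtain ⟨P, hPp, hPW, hhalf, hc1, hc2, hc3⟩ := hPX ps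
  obtain ⟨z0, hgood⟩ := hgood
  have hpn := hpn P (fun p hp => ⟨(hPp p hp).1, (hPp p hp).2.2.1⟩)
    (hPW.trans (Real.exp_le_exp.2 hforty)) hhalf
  have hW : 1 ≤ ∏ p ∈ P, p := Finset.prod_pos fun p hp => (hPp p hp).1.pos
  obtain ⟨W, hWd⟩ : ∃ W, W = ∏ p ∈ P, p := ⟨_, rfl⟩
  rw [← hWd] at hpn hPW hW
  have hL := hb.hL
  have hWR : (W : ℝ) ≤ Real.exp (Real.log X / 32) :=
    (hPW.trans (Real.exp_le_exp.2 hforty)).trans (exp40_le (by linarith))
  obtain ⟨hg1, hg2, Bad, hBs, hBw, hBg⟩ := hgood W hW hWR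
  have hmn := hmn W hW hWR
  have hS := hb.Sx_pos
  obtain ⟨ht1, ht2⟩ := tot_bounds hb W hW
  have hc0 := c0_pos
  have hX0 := hb.hX
  have hSX : Sx (X : ℝ) ^ 2 = X / 16 := by
    unfold Sx
    rw [div_pow, Real.sq_sqrt (Nat.cast_nonneg _)]
    norm_num
  set L := Real.log (X : ℝ) with hLd
  set S := Sx (X : ℝ) with hSd
  set T := tot X W with hTd
  have hL0 : 0 < L := by linarith
  have hWr : (1 : ℝ) ≤ W := by exact_mod_cast hW
  have hW0 : (0 : ℝ) < W := by linarith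
  have hlam : 0 ≤ (W : ℝ) / S := by positivity
  have hT0 : 0 < T := lt_of_lt_of_le (by positivity) ht1
  set I : Finset ((_ : ℕ) × ℕ) := (Icc 1 (Tx X W)).sigma (fun t => range (2 * t)) with hI
  set w0 : (_ : ℕ) × ℕ → ℝ := fun x => wt ((W : ℝ) / S) x.1 with hw0
  have hsumI : ∀ f : ℕ → ℕ → ℝ, ∑ x ∈ I, w0 x * f x.1 x.2 =
      ∑ t ∈ Icc 1 (Tx X W), wt ((W : ℝ) / S) t * ∑ c ∈ range (2 * t), f t c := by
    intro f
    rw [hI, sum_sigma]
    apply sum_congr rfl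
    intro t _
    rw [mul_sum]
  have hIm : ∀ x ∈ I, x.1 ∈ Icc 1 (Tx X W) ∧ x.2 < 2 * x.1 := by
    intro x hx
    rw [hI, mem_sigma, mem_range] at hx
    exact hx
  set G := I.filter (fun x => x.2 ∉ Bad x.1) with hG
  have hGI : G ⊆ I := filter_subset _ _
  have hwn : ∀ x : (_ : ℕ) × ℕ, 0 ≤ w0 x := fun x => wt_nonneg hlam _
  have hwle : ∀ x : (_ : ℕ) × ℕ, w0 x ≤ (W : ℝ) / S / 2 := fun x => wt_le hlam _
  have hbad : ∑ x ∈ I \ G, w0 x ≤ ε₀ ^ 2 / L * T := by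
    have h1 : ∑ x ∈ I \ G, w0 x = ∑ t ∈ Icc 1 (Tx X W), wt ((W : ℝ) / S) t * (#(Bad t) : ℝ) := by
      have h2 : I \ G = I.filter (fun x => x.2 ∈ Bad x.1) := by
        ext x
        rw [hG, Finset.mem_sdiff, mem_filter, mem_filter]
        tauto
      rw [h2, sum_filter]
      have h3 := hsumI (fun t c => if c ∈ Bad t then 1 else 0)
      have h4 : ∑ x ∈ I, w0 x * (if x.2 ∈ Bad x.1 then 1 else 0) =
          ∑ x ∈ I, (if x.2 ∈ Bad x.1 then w0 x else 0) := by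
        apply sum_congr rfl
        intro x _
        split_ifs <;> simp
      rw [← h4]
      refine Eq.trans h3 ?_
      apply sum_congr rfl
      intro t _
      congr 1
      rw [sum_ite_mem, inter_eq_right.2 (hBs t), sum_const, nsmul_eq_mul, mul_one]
    rw [h1]
    refine hBw.trans (le_of_eq ?_)
    ring
  have hconst : ∀ x ∈ G, 0 < hl (Kv W x.1 x.2) ∧
      Tendsto (fun N => HP (Kv W x.1 x.2 : ℕ) N) atTop (𝓝 (hl (Kv W x.1 x.2))) ∧
      |HP (Kv W x.1 x.2 : ℕ) z0 - hl (Kv W x.1 x.2)| ≤ ε₀ * hl (Kv W x.1 x.2) := by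
    intro x hx
    rw [hG, mem_filter] at hx
    obtain ⟨h1, h2⟩ := hIm x hx.1
    obtain ⟨h, hh0, hlim, hcl⟩ := hBg x.1 h1 x.2 (mem_range.2 h2) hx.2
    have : hl (Kv W x.1 x.2) = h := hlim.limUnder_eq
    rw [this]
    exact ⟨hh0, hlim, hcl⟩
  have hT1 : ∑ x ∈ I, w0 x = T := by
    have := hsumI (fun _ _ => 1)
    simp only [mul_one] at this
    rw [this]
    rfl
  set TG := ∑ x ∈ G, w0 x with hTG
  have hsplit : TG + ∑ x ∈ I \ G, w0 x = T := by
    rw [← hT1, hTG, add_comm, sum_sdiff hGI]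
  have hβ0 : ε₀ ^ 2 / L ≤ ε₀ ^ 2 := div_le_self (by positivity) (by linarith)
  have he2' : ε₀ ^ 2 ≤ 1 / 2 := by nlinarith
  have hTG1 : T / 2 ≤ TG := by
    have h1 : ε₀ ^ 2 / L * T ≤ 1 / 2 * T := mul_le_mul_of_nonneg_right (hβ0.trans he2') hT0.le
    linarith
  have hTG0 : 0 < TG := by linarith
  have hWsq : (W : ℝ) * W ≤ Real.exp (L ^ ε') * Real.exp (L ^ ε') :=
    mul_le_mul hPW hPW hW0.le (Real.exp_pos _).le
  have hsize2 : 600 / δ * L * (W * W) ≤ Real.exp (L ^ ε) :=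
    (mul_le_mul_of_nonneg_left hWsq (by positivity)).trans hsize
  refine ⟨W, G, fun x => w0 x / TG, hW, ?_, ?_, ?_, ?_⟩
  · intro x hx
    obtain ⟨h1, h2, _⟩ := hconst x hx
    obtain ⟨h3, h4⟩ := hIm x (hGI hx)
    exact ⟨h4, Kv_le hb hW hWR h3 h4, h1, h2⟩
  · intro x hx
    refine ⟨div_nonneg (hwn x) hTG0.le, ?_⟩
    have h1 : w0 x / TG ≤ (W : ℝ) / S / 2 / (T / 2) :=
      div_le_div₀ (by positivity) (hwle x) (by linarith) hTG1
    refine h1.trans ?_
    have h2 : (W : ℝ) / S / 2 / (T / 2) ≤ (W : ℝ) / S / (2 * c0 * S / W) := by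
      rw [div_div, show (2 : ℝ) * (T / 2) = T by ring]
      apply div_le_div_of_nonneg_left hlam (by positivity) ht1
    refine h2.trans ?_
    have h3 : (W : ℝ) / S / (2 * c0 * S / W) = 8 * (W * W) / (c0 * X) := by
      have : (W : ℝ) / S / (2 * c0 * S / W) = (W * W) / (2 * c0 * S ^ 2) := by
        field_simp
      rw [this, hSX]
      field_simp
      norm_num
    rw [h3, div_le_div_iff₀ (by positivity) hX0]
    have h4 : 8 * ((W : ℝ) * W) ≤ Real.exp (L ^ ε) * c0 := by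
      have h5 : 320 * ((W : ℝ) * W) ≤ 600 / δ * L * (W * W) := by
        apply mul_le_mul_of_nonneg_right _ (by positivity)
        have h6 : 600 ≤ 600 / δ := by
          rw [le_div_iff₀ hδ0]; linarith
        nlinarith
      have h7 : Real.exp (L ^ ε) * (1 / 40) ≤ Real.exp (L ^ ε) * c0 :=
        mul_le_mul_of_nonneg_left hc0 (Real.exp_pos _).le
      linarith
    calc 8 * ((W : ℝ) * W) * X ≤ Real.exp (L ^ ε) * c0 * X :=
          mul_le_mul_of_nonneg_right h4 hX0.le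
      _ = Real.exp (L ^ ε) * (c0 * X) := by ring
  · rw [← sum_div]
    exact div_self hTG0.ne'
  · intro H hH1
    have hLB : 1 ≤ L ^ B := Real.one_le_rpow (by linarith) (by linarith)
    have hHpos : (0 : ℝ) < H := by linarith
    set M0 : ℝ := 2 * H / L with hM0
    have hM00 : 0 < M0 := by rw [hM0]; positivity
    have hTM : 0 < T * M0 := mul_pos hT0 hM00
    have hscale : ∀ f : (_ : ℕ) × ℕ → ℝ, ∑ x ∈ G, w0 x / TG * f x =
        (∑ x ∈ G, w0 x * f x) / TG := by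
      intro f
      rw [sum_div]
      apply sum_congr rfl
      intro x _
      ring
    -- the main estimate
    have hmain : H ≤ Real.exp (√L) →
        (2 * δ ≤ σ * (rel P H - 1) → δ * ∑ x ∈ G, w0 x * Nx W H x ≤ σ * ∑ x ∈ G, w0 x * Dx W H x ∧
          3 / 2 * δ * (T * M0) ≤ σ * ∑ x ∈ G, w0 x * Dx W H x) ∧
        (-(δ / (2 * C)) ≤ σ * (rel P H - 1) →
          -(δ / C) * ∑ x ∈ G, w0 x * Nx W H x ≤ σ * ∑ x ∈ G, w0 x * Dx W H x) ∧
        (|rel P H - 1| ≤ δ / (2 * C) →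
          |∑ x ∈ G, w0 x * Dx W H x| ≤ δ / C * ∑ x ∈ G, w0 x * Nx W H x) ∧
        ∑ x ∈ G, w0 x * Nx W H x ≤ 11 / 10 * (T * M0) ∧ 0 < ∑ x ∈ G, w0 x * Nx W H x := by
      intro hH2
      obtain ⟨a1, a2⟩ := abs1 I G hGI w0 (fun x => Pn W H x.1 x.2) (fun x => Mn W H x.1 x.2)
        (fun x => HP (Kv W x.1 x.2 : ℕ) z0) (fun x => hl (Kv W x.1 x.2)) T M0 H (rel P H) ε₀
        (ε₀ ^ 2 / L) (fun x _ => hwn x) hT0 hM00 he0 he10 (fun x _ => Pn_bd W H x.1 x.2)
        (fun x hx hne => hmn H hH1 hH2 x.1 (hIm x hx).1 hne x.2 (hIm x hx).2)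
        (fun x _ => HP_nonneg _ _) (by
          rw [hsumI (fun t c => HP (Kv W t c : ℕ) z0)]
          exact hg1) (by
          rw [hsumI (fun t c => HP (Kv W t c : ℕ) z0 ^ 2)]
          exact hg2) hbad hHpos.le (by
          rw [hM0]
          have e1 : (H : ℝ) * (ε₀ ^ 2 / L) = ε₀ * (ε₀ * (H / L)) := by ring
          have e2 : ε₀ * (2 * H / L) = ε₀ * (2 * (H / L)) := by ring
          rw [e1, e2]
          apply mul_le_mul_of_nonneg_left _ he0.le
          apply mul_le_mul_of_nonneg_right _ (by positivity)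
          linarith) hβ0
        (fun x hx => (hconst x hx).2.2) (by
          rw [hsumI (fun t c => Pn W H t c)]
          exact hpn H hH1 hH2)
      exact three_ineq C σ δ ε₀ _ _ (T * M0) (rel P H) hC hσ hδ0 hTM he1 he2 he3 a1 a2
    refine ⟨fun hH2 => ?_, fun hH2 => ?_, fun hH2 hH3 => ?_, fun hH2 => ?_⟩
    · obtain ⟨b1, _⟩ := hmain (hH2.trans hpw)
      rw [hscale, hscale, ← mul_div_assoc, ← mul_div_assoc]
      exact div_le_div_of_nonneg_right (b1 (hc1 H hH1 hH2)).1 hTG0.le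
    · obtain ⟨_, b2, _⟩ := hmain hH2
      rw [hscale, hscale, ← mul_div_assoc, ← mul_div_assoc]
      exact div_le_div_of_nonneg_right (b2 (hc2 H hH1)) hTG0.le
    · obtain ⟨_, _, b3, _⟩ := hmain hH3
      rw [hscale, hscale, abs_div, abs_of_pos hTG0, ← mul_div_assoc]
      exact div_le_div_of_nonneg_right (b3 (hc3 H hH2)) hTG0.le
    · obtain ⟨b1, _, _, b4, _⟩ := hmain (hH2.trans hpw)
      have hD := (b1 (hc1 H hH1 hH2)).2
      have ab2 := abs2 I G hGI w0 (fun x => Pn W H x.1 x.2) (fun x => Mn W H x.1 x.2)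
        (fun x => HP (Kv W x.1 x.2 : ℕ) z0) (fun x => hl (Kv W x.1 x.2)) T M0 H ε₀ δ σ
        (fun x _ => hwn x) hT0 hM00 he0 he10 (fun x _ => Pn_bd W H x.1 x.2)
        (fun x hx hne => hmn H hH1 (hH2.trans hpw) x.1 (hIm x hx).1 hne x.2 (hIm x hx).2)
        (fun x _ => HP_nonneg _ _) (by
          rw [hsumI (fun t c => HP (Kv W t c : ℕ) z0 ^ 2)]
          exact hg2) (fun x hx => (hconst x hx).2.2) hσ hδ0 hD b4
      set A := G.filter (fun x => δ * Nx W H x ≤ σ * Dx W H x) with hA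
      have ab3 : 3 / 10 * δ * (T * M0) ≤ (H + 40 * M0 / δ) * ∑ x ∈ A, w0 x := ab2
      have hAw0 : 0 ≤ ∑ x ∈ A, w0 x := sum_nonneg fun x _ => hwn x
      have hAw : ∑ x ∈ A, w0 x ≤ #A * ((W : ℝ) / S / 2) := by
        calc ∑ x ∈ A, w0 x ≤ ∑ x ∈ A, (W : ℝ) / S / 2 := sum_le_sum fun x _ => hwle x
          _ = _ := by rw [sum_const, nsmul_eq_mul]
      have hH2' : (H : ℝ) + 40 * M0 / δ ≤ 2 * H := by
        have h1 : 40 * M0 / δ ≤ H := by
          rw [div_le_iff₀ hδ0, hM0]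
          have h2 : 80 ≤ L * δ := by rwa [div_le_iff₀ hδ0] at hLδ
          have h3 : 40 * (2 * (H : ℝ) / L) = 80 * (H / L) := by ring
          rw [h3]
          calc 80 * ((H : ℝ) / L) ≤ L * δ * (H / L) :=
                mul_le_mul_of_nonneg_right h2 (by positivity)
            _ = H * δ := by field_simp
        linarith
      have h5 : 3 / 10 * δ * T ≤ L * ∑ x ∈ A, w0 x := by
        have h6 : 3 / 10 * δ * (T * M0) ≤ 2 * H * ∑ x ∈ A, w0 x :=
          ab3.trans (mul_le_mul_of_nonneg_right hH2' hAw0)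
        have e1 : 3 / 10 * δ * (T * M0) = (3 / 10 * δ * T) * (2 * H / L) := by
          rw [hM0]; ring
        have e2 : 2 * (H : ℝ) * ∑ x ∈ A, w0 x = (L * ∑ x ∈ A, w0 x) * (2 * H / L) := by
          field_simp
        rw [e1, e2] at h6
        exact le_of_mul_le_mul_right h6 hM00
      -- the count
      have h7 : 3 / 10 * δ * (2 * c0 * S / W) ≤ L * (#A * ((W : ℝ) / S / 2)) := by
        calc 3 / 10 * δ * (2 * c0 * S / W) ≤ 3 / 10 * δ * T :=
              mul_le_mul_of_nonneg_left ht1 (by positivity)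
          _ ≤ L * ∑ x ∈ A, w0 x := h5
          _ ≤ _ := mul_le_mul_of_nonneg_left hAw hL0.le
      have h8 : 6 / 5 * δ * c0 * S ^ 2 ≤ L * (W * W) * #A := by
        have e1 : 6 / 5 * δ * c0 * S ^ 2 = 3 / 10 * δ * (2 * c0 * S / W) * (2 * W * S) := by
          field_simp
          ring
        have e2 : L * ((W : ℝ) * W) * #A = L * (#A * ((W : ℝ) / S / 2)) * (2 * W * S) := by
          field_simp
        rw [e1, e2]
        exact mul_le_mul_of_nonneg_right h7 (by positivity)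
      rw [hSX] at h8
      have h9 : δ * X ≤ 600 * (L * (W * W) * #A) := by
        have h10 : 6 / 5 * δ * (1 / 40) * (X / 16) ≤ 6 / 5 * δ * c0 * (X / 16) := by gcongr
        have h12 : 0 ≤ L * ((W : ℝ) * W) * #A := by positivity
        linarith
      have h11 : (X : ℝ) ≤ Real.exp (L ^ ε) * #A := by
        calc (X : ℝ) = δ * X / δ := by field_simp
          _ ≤ 600 * (L * (W * W) * #A) / δ := div_le_div_of_nonneg_right h9 hδ0.le
          _ = (600 / δ * L * (W * W)) * #A := by ring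
          _ ≤ _ := mul_le_mul_of_nonneg_right hsize2 (Nat.cast_nonneg _)
      rw [Real.exp_neg, ← div_eq_mul_inv, div_le_iff₀ (Real.exp_pos _), mul_comm]
      exact h11

end Pool.Agent.W2helper20.MQ
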