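import Pool.Agent.W2helper20.MQ.Prm
import Pool.Agent.N610.MS.Stm

set_option autoImplicit false

/-!
# Project MQ: number of primes and its prediction, averaged over the rows (helper20)
-/

namespace Pool.Agent.W2helper20.MQ

open Finset Filter Topology
open Pool.Agent.H378R2
open Pool.Agent.N610.MS (V rel)

/-- number of primes of the row `(t, c)` -/
noncomputable def Pn (W H t c : ℕ) : ℝ :=
  ∑ i ∈ Icc 1 H, (if (qv W i t c).Prime then (1 : ℝ) else 0)

/-- predicted number, without the constant -/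
noncomputable def Mn (W H t c : ℕ) : ℝ := ∑ i ∈ Icc 1 H, 1 / Real.log (qv W i t c)

/-- total weight -/
noncomputable def tot (X : ℝ) (W : ℕ) : ℝ :=
  ∑ t ∈ Icc 1 (Tx X W), wt ((W : ℝ) / Sx X) t * ∑ _c ∈ range (2 * t), (1 : ℝ)

/-- weight of the primes at the place `i` -/
noncomputable def Pr (X : ℝ) (W i : ℕ) : ℝ :=
  ∑ t ∈ Icc 1 (Tx X W), wt ((W : ℝ) / Sx X) t *
    ∑ c ∈ range (2 * t), (if (qv W i t c).Prime then (1 : ℝ) else 0)

lemma wt_ne {X : ℝ} {W t : ℕ} (hS : 0 < Sx X) (ht : 1 ≤ t) (h : wt ((W : ℝ) / Sx X) t ≠ 0) :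
    Sx X < W * t := by
  by_contra hcon
  push Not at hcon
  apply h
  have ht1 : (1 : ℝ) ≤ t := by exact_mod_cast ht
  have h1 : (W : ℝ) / Sx X * t ≤ 1 := by
    rw [div_mul_eq_mul_div, div_le_one hS]
    exact hcon
  have hl : 0 ≤ (W : ℝ) / Sx X := by positivity
  have h2 : (W : ℝ) / Sx X * ((t : ℝ) - 1) ≤ (W : ℝ) / Sx X * t :=
    mul_le_mul_of_nonneg_left (by linarith) hl
  unfold wt
  rw [Ps_small (by positivity) h1, Ps_small (mul_nonneg hl (by linarith)) (h2.trans h1), sub_self]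

lemma qv_ge (W i t c : ℕ) (hi : 2 ≤ i) (hc : c < 2 * t) : 2 * (W * t) ≤ qv W i t c := by
  unfold qv
  have h1 : 2 * t ≤ 2 * t * i - (c + 1) := by
    have h2 : 2 * t * 2 ≤ 2 * t * i := Nat.mul_le_mul_left _ hi
    omega
  have h3 := Nat.mul_le_mul_left W h1
  have e : 2 * (W * t) = W * (2 * t) := by ring
  omega

lemma qv_le (W i t c : ℕ) : qv W i t c ≤ W * (2 * t * i) + i ^ 2 := by
  unfold qv
  have h1 : 2 * t * i - (c + 1) ≤ 2 * t * i := Nat.sub_le _ _
  have h3 := Nat.mul_le_mul_left W h1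
  omega

/-- the logarithms of the values -/
lemma log_qv {X R0 : ℝ} (h : Big X R0) (W i t c : ℕ) (hW : 1 ≤ W)
    (hWR : (W : ℝ) ≤ Real.exp (Real.log X / 32)) (hi : 2 ≤ i)
    (hil : (i : ℝ) ≤ Real.exp (√(Real.log X))) (ht : t ∈ Icc 1 (Tx X W))
    (hw : wt ((W : ℝ) / Sx X) t ≠ 0) (hc : c < 2 * t) :
    |Real.log (qv W i t c) - Real.log X / 2| ≤ √(Real.log X) + 1 := by
  rw [mem_Icc] at ht
  have hS := h.Sx_pos
  have hSW := wt_ne hS ht.1 hw
  have hRS := h.RS
  have hL := h.hL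
  have hSeq := h.Sx
  have hTle := Tx_le X W hW
  have hiR : (i : ℝ) ≤ Real.exp (Real.log X / 32) := hil.trans (expsqrt_le (by linarith))
  set L := Real.log X with hLd
  set R := Real.exp (L / 32) with hR
  set S := Sx X with hSd
  have hR0 : 0 < R := Real.exp_pos _
  have hi2 : (2 : ℝ) ≤ i := by exact_mod_cast hi
  have hlogR : Real.log R = L / 32 := Real.log_exp _
  have hlogS : Real.log S = L / 2 - Real.log 4 := by
    rw [hSeq, Real.log_div (by positivity) (by norm_num), Real.log_pow, hlogR]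
    push_cast
    ring
  have hlow : 2 * S ≤ (qv W i t c : ℝ) := by
    have h1 : ((2 * (W * t) : ℕ) : ℝ) ≤ (qv W i t c : ℝ) := by
      exact_mod_cast qv_ge W i t c hi hc
    push_cast at h1
    linarith
  have hup : (qv W i t c : ℝ) ≤ 7 * i * S := by
    have h1 : (qv W i t c : ℝ) ≤ ((W * (2 * t * i) + i ^ 2 : ℕ) : ℝ) := by
      exact_mod_cast qv_le W i t c
    push_cast at h1
    refine h1.trans ?_
    have h2 : (t : ℝ) ≤ Tx X W := by exact_mod_cast ht.2
    have h3 : (W : ℝ) * t ≤ 3 * S + W :=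
      (mul_le_mul_of_nonneg_left h2 (Nat.cast_nonneg _)).trans hTle
    have h4 : (W : ℝ) * (2 * t * i) + (i : ℝ) ^ 2 = i * (2 * (W * t) + i) := by ring
    rw [h4]
    have h5 : 2 * ((W : ℝ) * t) + i ≤ 7 * S := by linarith
    calc (i : ℝ) * (2 * (W * t) + i) ≤ i * (7 * S) := mul_le_mul_of_nonneg_left h5 (by linarith)
      _ = 7 * i * S := by ring
  have hq0 : (0 : ℝ) < qv W i t c := by linarith
  have hl1 := Real.log_le_log (by positivity) hlow
  have hl2 := Real.log_le_log hq0 hup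
  rw [Real.log_mul (by norm_num) hS.ne', hlogS] at hl1
  rw [Real.log_mul (by positivity) hS.ne', Real.log_mul (by norm_num) (by positivity), hlogS]
    at hl2
  have hli : Real.log i ≤ √L := by
    rw [Real.log_le_iff_le_exp (by linarith)]
    exact hil
  have h7 : Real.log 7 - Real.log 4 ≤ 1 := by
    rw [← Real.log_div (by norm_num) (by norm_num)]
    have := Real.log_le_sub_one_of_pos (show (0 : ℝ) < 7 / 4 by norm_num)
    linarith
  have h24 : Real.log 4 - Real.log 2 ≤ 1 := by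
    rw [← Real.log_div (by norm_num) (by norm_num)]
    have := Real.log_le_sub_one_of_pos (show (0 : ℝ) < 4 / 2 by norm_num)
    linarith
  have hsq : 0 ≤ √L := Real.sqrt_nonneg _
  rw [abs_le]
  constructor <;> linarith

/-- `√L + 1` is small against `L` -/
lemma sqrt_small (ε : ℝ) (hε : 0 < ε) : ∀ᶠ X : ℝ in atTop,
    √(Real.log X) + 1 ≤ ε * (Real.log X / 2) := by
  have h1 : Tendsto (fun X : ℝ => √(Real.log X)) atTop atTop :=
    Real.tendsto_sqrt_atTop.comp Real.tendsto_log_atTop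
  filter_upwards [h1.eventually_ge_atTop (4 / ε), h1.eventually_ge_atTop 1,
    Real.tendsto_log_atTop.eventually_ge_atTop 0] with X h2 h3 h4
  rw [div_le_iff₀ hε] at h2
  have h5 : √(Real.log X) * √(Real.log X) = Real.log X := Real.mul_self_sqrt h4
  nlinarith

/-- the prediction -/
theorem mn_ev (B ε : ℝ) (hB : 1 < B) (hε : 0 < ε) (hε1 : ε ≤ 1) : ∀ᶠ X : ℝ in atTop,
    ∀ W : ℕ, 1 ≤ W → (W : ℝ) ≤ Real.exp (Real.log X / 32) → ∀ H : ℕ, Real.log X ^ B ≤ H →
      (H : ℝ) ≤ Real.exp (√(Real.log X)) → ∀ t ∈ Icc 1 (Tx X W), wt ((W : ℝ) / Sx X) t ≠ 0 →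
        ∀ c < 2 * t, |Mn W H t c - 2 * H / Real.log X| ≤ ε * (2 * H / Real.log X) := by
  have hpow : Tendsto (fun X : ℝ => Real.log X ^ (B - 1)) atTop atTop :=
    (tendsto_rpow_atTop (by linarith)).comp Real.tendsto_log_atTop
  filter_upwards [big_ev 0, sqrt_small (ε / 4) (by positivity),
    hpow.eventually_ge_atTop (3 / ε)] with X hb hsm hpw
  intro W hW hWR H hH1 hH2 t ht hw c hc
  have hL := hb.hL
  set L := Real.log X with hLd
  have hL0 : 0 < L := by linarith
  have hHL : 3 ≤ ε * (H / L) := by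
    have h1 : L ^ B = L ^ (B - 1) * L := by
      rw [← Real.rpow_add_one hL0.ne']
      congr 1; ring
    rw [h1] at hH1
    have h2 : L ^ (B - 1) ≤ H / L := by rw [le_div_iff₀ hL0]; exact hH1
    rw [div_le_iff₀ hε] at hpw
    nlinarith
  have hH1' : 1 ≤ H := by
    rcases Nat.eq_zero_or_pos H with h | h
    · rw [h, Nat.cast_zero, zero_div, mul_zero] at hHL
      linarith
    · exact h
  have hterm : ∀ i ∈ Icc 1 H, |1 / Real.log (qv W i t c) - 2 / L| ≤
      ε / 2 * (2 / L) + (if i = 1 then (2 : ℝ) + 2 / L else 0) := by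
    intro i hi
    rw [mem_Icc] at hi
    split_ifs with h1
    · have h2 : 0 ≤ 1 / Real.log (qv W i t c) ∧ 1 / Real.log (qv W i t c) ≤ 2 := by
        rcases Nat.lt_or_ge (qv W i t c) 2 with h3 | h3
        · have h4 : Real.log (qv W i t c) = 0 := by
            have h5 : qv W i t c = 0 ∨ qv W i t c = 1 := by omega
            rcases h5 with h5 | h5 <;> rw [h5] <;> simp
          rw [h4]
          norm_num
        · have h4 : Real.log 2 ≤ Real.log (qv W i t c) := by
            apply Real.log_le_log (by norm_num)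
            exact_mod_cast h3
          have h5 := Real.log_two_gt_d9
          refine ⟨by apply div_nonneg zero_le_one; linarith, ?_⟩
          rw [div_le_iff₀ (by linarith)]
          linarith
      have h3 : 0 < 2 / L := by positivity
      have h4 : 0 < ε / 2 * (2 / L) := by positivity
      rw [abs_le]
      constructor <;> linarith [h2.1, h2.2]
    · have hi2 : 2 ≤ i := by omega
      have hiH : (i : ℝ) ≤ H := by exact_mod_cast hi.2
      have h2 := log_qv hb W i t c hW hWR hi2 (hiH.trans hH2) ht hw hc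
      rw [← hLd] at h2
      set x := Real.log (qv W i t c) with hx
      have h3 : |x - L / 2| ≤ ε / 4 * (L / 2) := h2.trans hsm
      obtain ⟨h4, h5⟩ := abs_le.1 h3
      have hεL : ε / 4 * (L / 2) ≤ 1 / 4 * (L / 2) :=
        mul_le_mul_of_nonneg_right (by linarith) (by linarith)
      have hx0 : L / 4 ≤ x := by linarith
      have hx0' : 0 < x := by linarith
      have e1 : 1 / x - 2 / L = (L / 2 - x) * (2 / L) / x := by field_simp
      rw [e1, add_zero, abs_div, abs_mul, abs_of_pos hx0', abs_of_pos (by positivity : 0 < 2 / L),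
        div_le_iff₀ hx0', abs_sub_comm]
      have e2 : ε / 2 * (2 / L) * x = (ε / 2 * x) * (2 / L) := by ring
      rw [e2]
      apply mul_le_mul_of_nonneg_right _ (by positivity)
      refine h3.trans ?_
      have : ε / 2 * (L / 4) ≤ ε / 2 * x := mul_le_mul_of_nonneg_left hx0 (by positivity)
      linarith
  have hsum : Mn W H t c - 2 * H / L = ∑ i ∈ Icc 1 H, (1 / Real.log (qv W i t c) - 2 / L) := by
    unfold Mn
    rw [sum_sub_distrib, sum_const, Nat.card_Icc, nsmul_eq_mul, Nat.add_sub_cancel]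
    ring
  rw [hsum]
  refine (abs_sum_le_sum_abs _ _).trans ((sum_le_sum hterm).trans ?_)
  rw [sum_add_distrib, sum_const, Nat.card_Icc, nsmul_eq_mul, Nat.add_sub_cancel, sum_ite_eq',
    if_pos (mem_Icc.2 ⟨le_rfl, hH1'⟩)]
  have e3 : (H : ℝ) * (ε / 2 * (2 / L)) = ε * (H / L) := by ring
  have e4 : ε * (2 * H / L) = ε * (H / L) + ε * (H / L) := by ring
  have h6 : 2 / L ≤ 1 := by rw [div_le_one hL0]; linarith
  rw [e3, e4]
  linarith

lemma tot_eq (X : ℝ) (W : ℕ) :
    tot X W = 2 * ∑ t ∈ Icc 1 (Tx X W), wt ((W : ℝ) / Sx X) t * t := by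
  unfold tot
  rw [mul_sum]
  apply sum_congr rfl
  intro t _
  rw [sum_const, card_range, nsmul_eq_mul]
  push_cast
  ring

lemma tot_bounds {X R0 : ℝ} (h : Big X R0) (W : ℕ) (hW : 1 ≤ W) :
    2 * c0 * Sx X / W ≤ tot X W ∧ tot X W ≤ 2 * c0 * Sx X / W + 2 := by
  have hS := h.Sx_pos
  have hWr : (1 : ℝ) ≤ W := by exact_mod_cast hW
  have hlam : 0 < (W : ℝ) / Sx X := by positivity
  have hlamT : 3 ≤ (W : ℝ) / Sx X * Tx X W := by
    rw [div_mul_eq_mul_div, le_div_iff₀ hS]
    exact Tx_ge X W hW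
  obtain ⟨h1, h2⟩ := wt_rows hlam (Tx X W) hlamT
  have e : c0 / ((W : ℝ) / Sx X) = c0 * Sx X / W := by field_simp
  rw [e] at h1 h2
  rw [tot_eq]
  have e2 : 2 * c0 * Sx X / W = 2 * (c0 * Sx X / W) := by ring
  rw [e2]
  constructor <;> linarith

lemma Pr_nonneg (X : ℝ) (W i : ℕ) (hS : 0 < Sx X) : 0 ≤ Pr X W i := by
  unfold Pr
  apply sum_nonneg
  intro t _
  apply mul_nonneg (wt_nonneg (by positivity) _)
  apply sum_nonneg
  intro c _
  split_ifs <;> norm_num

lemma Pr_le_tot (X : ℝ) (W i : ℕ) (hS : 0 < Sx X) : Pr X W i ≤ tot X W := by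
  unfold Pr tot
  apply sum_le_sum
  intro t _
  apply mul_le_mul_of_nonneg_left _ (wt_nonneg (by positivity) _)
  apply sum_le_sum
  intro c _
  split_ifs <;> norm_num

lemma Pr_zero (X : ℝ) (P : Finset ℕ) (hP : ∀ p ∈ P, p.Prime) (i : ℕ)
    (h : ¬ ∀ p ∈ P, ¬ p ∣ i) (hi : 2 ≤ i) : Pr X (∏ p ∈ P, p) i = 0 := by
  push Not at h
  obtain ⟨p, hp, hpi⟩ := h
  unfold Pr
  apply sum_eq_zero
  intro t _
  rw [sum_eq_zero, mul_zero]
  intro c _
  rw [if_neg]
  intro hq
  have hpp := hP p hp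
  have h1 : p ∣ qv (∏ p ∈ P, p) i t c := by
    unfold qv
    apply dvd_add
    · exact (dvd_prod_of_mem _ hp).mul_right _
    · exact (hpi.trans (dvd_pow_self i two_ne_zero))
  have h2 := (Nat.prime_dvd_prime_iff_eq hpp hq).1 h1
  have h3 : i ^ 2 ≤ qv (∏ p ∈ P, p) i t c := by unfold qv; omega
  rw [← h2] at h3
  have h4 := Nat.le_of_dvd (by omega) hpi
  nlinarith

/-- the weight of the primes at a place -/
lemma Pr_main {X R0 : ℝ} (h : Big X R0) (ε : ℝ) (hε : 0 < ε) (hε1 : ε ≤ 1 / 10) (W i : ℕ)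
    (hW : 1 ≤ W) (hWR : (W : ℝ) ≤ Real.exp (Real.log X / 32)) (hi : 2 ≤ i)
    (hil : (i : ℝ) ≤ Real.exp (√(Real.log X)))
    (hsm : √(Real.log X) + 1 ≤ ε * (Real.log X / 2))
    (hF : |∑ t ∈ Icc 1 (Tx X W), wt ((W : ℝ) / Sx X) t * ∑ c ∈ range (2 * t),
          ArithmeticFunction.vonMangoldt (qv W i t c) - 2 * c0 * Sx X / W.totient| ≤
            ε * (2 * c0 * Sx X / W.totient))
    (hPP : ∑ t ∈ Icc 1 (Tx X W), wt ((W : ℝ) / Sx X) t * ∑ c ∈ range (2 * t),
          (if (qv W i t c).Prime then 0 else ArithmeticFunction.vonMangoldt (qv W i t c)) ≤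
            ε * (2 * c0 * Sx X / W.totient)) :
    |Pr X W i - 2 / Real.log X * (2 * c0 * Sx X / W.totient)| ≤
      3 * ε * (2 / Real.log X * (2 * c0 * Sx X / W.totient)) := by
  have hS := h.Sx_pos
  have hL := h.hL
  set L := Real.log X with hLd
  have hL0 : 0 < L := by linarith
  have hc0 := c0_pos
  have hφ0 : (0 : ℝ) < Nat.totient W := by exact_mod_cast Nat.totient_pos.mpr (by omega)
  set A := 2 * c0 * Sx X / W.totient with hA
  have hA0 : 0 < A := by
    rw [hA]
    apply div_pos _ hφ0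
    apply mul_pos _ hS
    linarith
  set F := ∑ t ∈ Icc 1 (Tx X W), wt ((W : ℝ) / Sx X) t * ∑ c ∈ range (2 * t),
          ArithmeticFunction.vonMangoldt (qv W i t c) with hFd
  set PP := ∑ t ∈ Icc 1 (Tx X W), wt ((W : ℝ) / Sx X) t * ∑ c ∈ range (2 * t),
          (if (qv W i t c).Prime then 0 else ArithmeticFunction.vonMangoldt (qv W i t c)) with hPPd
  have hwn : ∀ t : ℕ, 0 ≤ wt ((W : ℝ) / Sx X) t := fun t => wt_nonneg (by positivity) t
  have hPP0 : 0 ≤ PP := by
    apply sum_nonneg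
    intro t _
    apply mul_nonneg (hwn t)
    apply sum_nonneg
    intro c _
    split_ifs
    · exact le_rfl
    · exact ArithmeticFunction.vonMangoldt_nonneg
  have hdiff : F - PP = ∑ t ∈ Icc 1 (Tx X W), wt ((W : ℝ) / Sx X) t * ∑ c ∈ range (2 * t),
      (if (qv W i t c).Prime then Real.log (qv W i t c) else 0) := by
    rw [hFd, hPPd, ← sum_sub_distrib]
    apply sum_congr rfl
    intro t _
    rw [← mul_sub, ← sum_sub_distrib]
    congr 1
    apply sum_congr rfl
    intro c _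
    split_ifs with hq
    · rw [ArithmeticFunction.vonMangoldt_apply_prime hq, sub_zero]
    · rw [sub_self]
  have hkey : ∀ t ∈ Icc 1 (Tx X W), wt ((W : ℝ) / Sx X) t ≠ 0 → ∀ c < 2 * t,
      (1 - ε) * (L / 2) ≤ Real.log (qv W i t c) ∧ Real.log (qv W i t c) ≤ (1 + ε) * (L / 2) := by
    intro t ht hw c hc
    have h1 := (log_qv h W i t c hW hWR hi hil ht hw hc).trans hsm
    rw [← hLd] at h1
    obtain ⟨h2, h3⟩ := abs_le.1 h1
    constructor <;> linarith
  have hup : F - PP ≤ (1 + ε) * (L / 2) * Pr X W i := by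
    rw [hdiff]
    unfold Pr
    rw [mul_sum]
    apply sum_le_sum
    intro t ht
    by_cases hw : wt ((W : ℝ) / Sx X) t = 0
    · rw [hw]; simp
    · rw [mul_left_comm]
      apply mul_le_mul_of_nonneg_left _ (hwn t)
      rw [mul_sum]
      apply sum_le_sum
      intro c hc
      split_ifs
      · rw [mul_one]; exact (hkey t ht hw c (mem_range.1 hc)).2
      · rw [mul_zero]
  have hlow : (1 - ε) * (L / 2) * Pr X W i ≤ F - PP := by
    rw [hdiff]
    unfold Pr
    rw [mul_sum]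
    apply sum_le_sum
    intro t ht
    by_cases hw : wt ((W : ℝ) / Sx X) t = 0
    · rw [hw]; simp
    · rw [mul_left_comm]
      apply mul_le_mul_of_nonneg_left _ (hwn t)
      rw [mul_sum]
      apply sum_le_sum
      intro c hc
      split_ifs
      · rw [mul_one]; exact (hkey t ht hw c (mem_range.1 hc)).1
      · rw [mul_zero]
  obtain ⟨hF1, hF2⟩ := abs_le.1 hF
  set p := Pr X W i with hp
  have hp0 : 0 ≤ p := Pr_nonneg X W i hS
  -- in terms of `y = (L / 2) p`
  have e1 : p = 2 / L * (L / 2 * p) := by field_simp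
  set y := L / 2 * p with hy
  have hy0 : 0 ≤ y := by rw [hy]; positivity
  have hy1 : (1 - ε) * y ≤ (1 + ε) * A := by
    have : (1 - ε) * y = (1 - ε) * (L / 2) * p := by rw [hy]; ring
    rw [this]
    linarith
  have hy2 : (1 - 2 * ε) * A ≤ (1 + ε) * y := by
    have : (1 + ε) * y = (1 + ε) * (L / 2) * p := by rw [hy]; ring
    rw [this]
    linarith
  have hy3 : |y - A| ≤ 3 * ε * A := by
    rw [abs_le]
    constructor
    · by_contra hcon
      push Not at hcon
      have h1 : y < (1 - 3 * ε) * A := by linarith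
      have h2 : (1 + ε) * y < (1 + ε) * ((1 - 3 * ε) * A) :=
        mul_lt_mul_of_pos_left h1 (by linarith)
      nlinarith [mul_pos hε hA0, mul_pos (mul_pos hε hε) hA0]
    · by_contra hcon
      push Not at hcon
      have h1 : (1 + 3 * ε) * A < y := by linarith
      have h2 : (1 - ε) * ((1 + 3 * ε) * A) < (1 - ε) * y :=
        mul_lt_mul_of_pos_left h1 (by linarith)
      have h3 : (1 - ε) * ((1 + 3 * ε) * A) < (1 + ε) * A := by linarith
      have h4 : (1 - ε) * (1 + 3 * ε) < 1 + ε := by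
        by_contra h5
        push Not at h5
        have := mul_le_mul_of_nonneg_right h5 hA0.le
        linarith
      nlinarith
  rw [e1, ← mul_sub, abs_mul, abs_of_pos (by positivity : 0 < 2 / L)]
  calc 2 / L * |y - A| ≤ 2 / L * (3 * ε * A) := mul_le_mul_of_nonneg_left hy3 (by positivity)
    _ = _ := by ring

/-- exchange of the sums -/
lemma sum_Pn (X : ℝ) (W H : ℕ) :
    ∑ t ∈ Icc 1 (Tx X W), wt ((W : ℝ) / Sx X) t * ∑ c ∈ range (2 * t), Pn W H t c =
      ∑ i ∈ Icc 1 H, Pr X W i := by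
  unfold Pn Pr
  rw [sum_comm]
  apply sum_congr rfl
  intro t _
  rw [← mul_sum]
  congr 1
  exact sum_comm

end Pool.Agent.W2helper20.MQ
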