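import Pool.Agent.H378R2.M1
import Pool.Agent.H378R2.LSBV5

set_option autoImplicit false

/-!
# Project MQ: primes in progressions to moduli up to `exp ((log X)^c)`, away from one exceptional
prime, uniformly in the length (helper20, after `Pool.Agent.H378R2.small_conductor`)
-/

namespace Pool.Agent.W2helper20.MQ

open DirichletCharacter Finset Filter Topology
open Pool.Agent.H378R2 Pool.Agent.H378R2.M1
open Pool.Agent.H378R2.LSBV (exists_ps TT TT_nonneg)

/-- characters of conductor up to `exp l` -/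
theorem small_cond (Z : ℕ) : ∃ l1 : ℝ, 1 ≤ l1 ∧ ∀ l : ℝ, l1 ≤ l → ∃ fs : ℕ, (fs = 0 ∨ Z < fs) ∧
    ∀ f : ℕ, 1 < f → Real.log f ≤ l → f ≠ fs →
      ∀ χ : DirichletCharacter ℂ f, χ.IsPrimitive → ∀ Y : ℝ, 0 < Y → l ^ 40 / 4 ≤ Real.log Y →
        Real.log Y ≤ 2 * l ^ 40 → ‖psiPhi χ Y‖ ≤ Y * Real.exp (-(l / 4)) := by
  obtain ⟨d, hd0, hd2, hnzr⟩ := nzr_exc
  obtain ⟨l0, hl0⟩ := hnzr Z
  obtain ⟨C, hC1, hC⟩ := vM_sum_bound
  obtain ⟨a, ha⟩ := exp_dominates ((48 / d + 192 * C) * 4 ^ 80) 80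
  refine ⟨max (max (4 * a) l0) (max 8 (4 / d)), ?_, fun l hl => ?_⟩
  · exact le_trans (by norm_num) ((le_max_left (8 : ℝ) (4 / d)).trans (le_max_right _ _))
  have hla : 4 * a ≤ l := ((le_max_left _ _).trans (le_max_left _ _)).trans hl
  have hll0 : l0 ≤ l := ((le_max_right _ _).trans (le_max_left _ _)).trans hl
  have hl8 : 8 ≤ l := ((le_max_left _ _).trans (le_max_right _ _)).trans hl
  have hld : 4 / d ≤ l := ((le_max_right _ _).trans (le_max_right _ _)).trans hl
  have hlpos : 0 < l := by linarith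
  have hl1 : 1 ≤ l := by linarith
  have hdl : 4 ≤ d * l := by rwa [div_le_iff₀ hd0, mul_comm] at hld
  obtain ⟨fs, hfs, hmain⟩ := hl0 l hll0
  refine ⟨fs, hfs, ?_⟩
  intro f hf1 hlogf hffs χ hχ Y hY0 hY1 hY2
  have : NeZero f := ⟨by omega⟩
  have hχ1 : χ ≠ 1 := primitive_ne_one hf1 hχ
  have hdom : (48 / d + 192 * C) * l ^ 80 ≤ Real.exp (l / 4) := by
    have h1 := ha (l / 4) (by linarith)
    have h2 : (48 / d + 192 * C) * 4 ^ 80 * (l / 4) ^ 80 = (48 / d + 192 * C) * l ^ 80 := by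
      rw [div_pow]; field_simp
    rwa [h2] at h1
  set LY := Real.log Y with hLY
  have hp : ∀ n : ℕ, 0 < l ^ n := fun n => by positivity
  have hp1 : ∀ n : ℕ, 1 ≤ l ^ n := fun n => one_le_pow₀ hl1
  have hl40 : l ≤ l ^ 40 / 4 := by
    have h1 : l ^ 2 ≤ l ^ 40 := pow_le_pow_right₀ hl1 (by norm_num)
    nlinarith
  have hLYpos : 0 < LY := by linarith
  have hLY1 : 1 ≤ LY := by linarith
  set δ : ℝ := d / l ^ 18 with hδ
  set M : ℝ := l ^ 18 / d with hM
  set T : ℝ := Real.exp (l / 2) with hT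
  have hδ0 : 0 < δ := by positivity
  have hM0 : 0 ≤ M := by positivity
  have hT3 : 3 ≤ T := by
    rw [hT]
    have h1 := Real.add_one_le_exp (l / 2)
    linarith
  -- `δ log Y ≥ l`
  have hδY : l ≤ δ * LY := by
    calc l = (4 * l) / 4 := by ring
      _ ≤ (d * l * l) / 4 := by
          apply div_le_div_of_nonneg_right _ (by norm_num)
          exact mul_le_mul_of_nonneg_right hdl hlpos.le
      _ ≤ d * l ^ 22 / 4 := by
          apply div_le_div_of_nonneg_right _ (by norm_num)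
          have : l ^ 2 ≤ l ^ 22 := pow_le_pow_right₀ hl1 (by norm_num)
          calc d * l * l = d * l ^ 2 := by ring
            _ ≤ d * l ^ 22 := mul_le_mul_of_nonneg_left this hd0.le
      _ = δ * (l ^ 40 / 4) := by
          rw [hδ]
          field_simp
      _ ≤ δ * LY := mul_le_mul_of_nonneg_left hY1 hδ0.le
  have hδ4 : δ ≤ 1 / 4 := by
    rw [hδ, div_le_iff₀ (by positivity)]
    have h3 : (2 : ℝ) ^ 18 ≤ l ^ 18 := pow_le_pow_left₀ (by norm_num) (by linarith) _
    norm_num at h3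
    linarith
  set c : ℝ := 1 + 1 / LY with hc
  have hc1 : 1 < c := by
    rw [hc]
    have : 0 < 1 / LY := by positivity
    linarith
  have hcδ : c ≤ 1 + δ := by
    rw [hc]
    have h2 : 1 / LY ≤ δ := by
      rw [div_le_iff₀ hLYpos]
      linarith
    linarith
  have hY1' : 1 ≤ Y := by
    rw [← Real.exp_log hY0]
    exact Real.one_le_exp hLYpos.le
  have hYc : Y ^ c ≤ 3 * Y := by
    rw [hc, Real.rpow_add hY0, Real.rpow_one]
    have h1 : Y ^ (1 / LY) = Real.exp 1 := by
      rw [Real.rpow_def_of_pos hY0, ← hLY, mul_one_div_cancel hLYpos.ne']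
    rw [h1]
    have := Real.exp_one_lt_d9
    nlinarith
  have hA : ∑' n : ℕ, ArithmeticFunction.vonMangoldt n * (n : ℝ) ^ (-c) ≤ C * (4 * l ^ 80) := by
    refine (hC c hc1 (by linarith)).trans ?_
    have h1 : c - 1 = 1 / LY := by rw [hc]; ring
    rw [h1]
    have h2 : C / (1 / LY) ^ 2 = C * LY ^ 2 := by field_simp
    rw [h2]
    apply mul_le_mul_of_nonneg_left _ (by linarith)
    calc LY ^ 2 ≤ (2 * l ^ 40) ^ 2 := pow_le_pow_left₀ hLYpos.le hY2 2
      _ = 4 * l ^ 80 := by ring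
  have hcont := contour χ hχ1 hY1' hc1 hδ0 hδ4 hcδ hYc (by linarith : (1 : ℝ) ≤ T) hM0 hA (by
    intro s h1 h2
    refine hmain f hf1 hlogf hffs χ hχ s h1 ?_
    have h3 : 2 * |s.im| + 3 ≤ Real.exp l := by
      have h4 : Real.exp l = T * T := by
        rw [hT, ← Real.exp_add]; congr 1; ring
      rw [h4]
      nlinarith
    rw [Real.log_le_iff_le_exp (by positivity)]
    exact h3)
  refine hcont.trans ?_
  -- the three terms
  have hM48 : 48 * M ≤ Real.exp (l / 4) := by
    refine le_trans ?_ hdom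
    have h1 : 48 * M = 48 / d * l ^ 18 := by rw [hM]; ring
    have h2 : l ^ 18 ≤ l ^ 80 := pow_le_pow_right₀ hl1 (by norm_num)
    have h3 : 0 < 48 / d := by positivity
    rw [h1]
    calc 48 / d * l ^ 18 ≤ 48 / d * l ^ 80 := mul_le_mul_of_nonneg_left h2 h3.le
      _ ≤ (48 / d + 192 * C) * l ^ 80 := by
          apply mul_le_mul_of_nonneg_right _ (hp 80).le
          linarith
  have hC48 : 192 * C * l ^ 80 ≤ Real.exp (l / 4) := by
    refine le_trans ?_ hdom
    apply mul_le_mul_of_nonneg_right _ (hp 80).le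
    have h3 : 0 < 48 / d := by positivity
    linarith
  have hYδ : Y ^ (1 - δ) = Y * Real.exp (-(δ * LY)) := by
    rw [sub_eq_add_neg, Real.rpow_add hY0, Real.rpow_one, Real.rpow_def_of_pos hY0, ← hLY]
    congr 2; ring
  have t1 : 48 * (Y ^ (1 - δ) * M) ≤ Y * Real.exp (-(l / 4)) := by
    rw [hYδ]
    calc 48 * (Y * Real.exp (-(δ * LY)) * M)
        = Y * ((48 * M) * Real.exp (-(δ * LY))) := by ring
      _ ≤ Y * (Real.exp (l / 4) * Real.exp (-l)) := by
          apply mul_le_mul_of_nonneg_left _ hY0.le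
          apply mul_le_mul hM48 _ (Real.exp_pos _).le (Real.exp_pos _).le
          exact Real.exp_le_exp.2 (by linarith)
      _ ≤ Y * Real.exp (-(l / 4)) := by
          rw [← Real.exp_add]
          apply mul_le_mul_of_nonneg_left _ hY0.le
          exact Real.exp_le_exp.2 (by linarith)
  have hTT : 1 / T ^ 2 = Real.exp (-l) := by
    rw [hT, ← Real.exp_nat_mul, Real.exp_neg, one_div]
    congr 2
    push_cast
    ring
  have t2 : 48 * (Y * M / T ^ 2) ≤ Y * Real.exp (-(l / 4)) := by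
    calc 48 * (Y * M / T ^ 2) = Y * ((48 * M) * (1 / T ^ 2)) := by ring
      _ = Y * ((48 * M) * Real.exp (-l)) := by rw [hTT]
      _ ≤ Y * (Real.exp (l / 4) * Real.exp (-l)) := by
          apply mul_le_mul_of_nonneg_left _ hY0.le
          exact mul_le_mul_of_nonneg_right hM48 (Real.exp_pos _).le
      _ ≤ Y * Real.exp (-(l / 4)) := by
          rw [← Real.exp_add]
          apply mul_le_mul_of_nonneg_left _ hY0.le
          exact Real.exp_le_exp.2 (by linarith)
  have hT1 : 1 / T = Real.exp (-(l / 2)) := by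
    rw [hT, Real.exp_neg, one_div]
  have t3 : 48 * (Y * (C * (4 * l ^ 80)) / T) ≤ Y * Real.exp (-(l / 4)) := by
    calc 48 * (Y * (C * (4 * l ^ 80)) / T) = Y * ((192 * C * l ^ 80) * (1 / T)) := by ring
      _ = Y * ((192 * C * l ^ 80) * Real.exp (-(l / 2))) := by rw [hT1]
      _ ≤ Y * (Real.exp (l / 4) * Real.exp (-(l / 2))) := by
          apply mul_le_mul_of_nonneg_left _ hY0.le
          exact mul_le_mul_of_nonneg_right hC48 (Real.exp_pos _).le
      _ = Y * Real.exp (-(l / 4)) := by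
          rw [← Real.exp_add]
          congr 2
          ring
  linarith

/-- the discrepancy in residue classes, uniformly in the length -/
theorem EPhi_row : ∀ᶠ X : ℝ in atTop, ∃ ps : ℕ, (ps = 1 ∨ ps.Prime) ∧
    ∀ W : ℕ, 1 ≤ W → Squarefree W → W.Coprime ps →
      (W : ℝ) ≤ Real.exp ((Real.log X) ^ (1 / 40 : ℝ) / 32) →
      ∀ b : ℕ, b.Coprime W → ∀ Y : ℝ, 0 < Y → Real.log X / 4 ≤ Real.log Y →
        Real.log Y ≤ 2 * Real.log X →
        |EPhi Y W b| ≤ Y * Real.exp (-((Real.log X) ^ (1 / 40 : ℝ) / 8)) := by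
  obtain ⟨l1, hl1, h1⟩ := small_cond (primorial 0)
  obtain ⟨a, ha⟩ := exp_dominates (16 * 4 ^ 40) 40
  have htop : Tendsto (fun X : ℝ => (Real.log X) ^ (1 / 40 : ℝ)) atTop atTop :=
    (tendsto_rpow_atTop (by norm_num)).comp Real.tendsto_log_atTop
  filter_upwards [htop.eventually_ge_atTop l1, htop.eventually_ge_atTop (4 * a),
    htop.eventually_ge_atTop 32, eventually_gt_atTop (1 : ℝ)] with X e1 e2 e3 e4
  have hL0 : 0 < Real.log X := Real.log_pos e4
  set l := (Real.log X) ^ (1 / 40 : ℝ) with hl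
  have hlL : l ^ 40 = Real.log X := by
    rw [hl, ← Real.rpow_natCast, ← Real.rpow_mul hL0.le]
    norm_num
  obtain ⟨fs, hfs, h2⟩ := h1 l e1
  obtain ⟨ps, hps, h3⟩ := exists_ps 0 fs hfs
  refine ⟨ps, ?_, ?_⟩
  · rcases hps with h | h
    · exact Or.inl h
    · exact Or.inr h.1
  intro W hW hsq hcop hWl b hb Y hY0 hY1 hY2
  have hl0 : 0 < l := by linarith
  have hl1' : 1 ≤ l := by linarith
  rw [← hlL] at hY1 hY2
  have hl40 : l ≤ l ^ 40 / 4 := by
    have h1 : l ^ 2 ≤ l ^ 40 := pow_le_pow_right₀ hl1' (by norm_num)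
    nlinarith
  have hYe : Real.exp l ≤ Y := by
    rw [← Real.le_log_iff_exp_le hY0]
    linarith
  have hY1' : 1 ≤ Y := (Real.one_le_exp hl0.le).trans hYe
  have hWr : (1 : ℝ) ≤ W := by exact_mod_cast hW
  have hφ : (1 : ℝ) ≤ Nat.totient W := by exact_mod_cast Nat.totient_pos.mpr (by omega)
  set E := Y * Real.exp (-(l / 4)) with hE
  have hE0 : 0 ≤ E := by positivity
  have hTT : ∀ f ∈ W.divisors.filter (fun f => f ≠ 1), TT Y f ≤ W * E := by
    intro f hf
    rw [mem_filter, Nat.mem_divisors] at hf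
    obtain ⟨⟨hfW, _⟩, hf1⟩ := hf
    have hf0 : 0 < f := Nat.pos_of_dvd_of_pos hfW (by omega)
    have hfle : f ≤ W := Nat.le_of_dvd (by omega) hfW
    have h5 := LSBV.TT_le Y f hf0 E hE0 (fun χ hχ => by
      refine h2 f (by omega) ?_ ?_ χ hχ Y hY0 hY1 hY2
      · have hf0' : (0 : ℝ) < f := by exact_mod_cast hf0
        rw [Real.log_le_iff_le_exp hf0']
        have h6 : (f : ℝ) ≤ W := by exact_mod_cast hfle
        refine (h6.trans hWl).trans (Real.exp_le_exp.2 ?_)
        linarith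
      · exact h3 f (by omega) (hsq.squarefree_of_dvd hfW) (hcop.coprime_dvd_left hfW))
    refine h5.trans ?_
    apply mul_le_mul_of_nonneg_right _ hE0
    exact_mod_cast hfle
  have h4 := LSBV.EPhi_le Y hY1' W b hW hb
  refine h4.trans ?_
  have h5 : ∑ f ∈ W.divisors.filter (fun f => f ≠ 1), TT Y f ≤ W * (W * E) := by
    refine (sum_le_sum hTT).trans ?_
    rw [sum_const, nsmul_eq_mul]
    apply mul_le_mul_of_nonneg_right _ (by positivity)
    have : #(W.divisors.filter (fun f => f ≠ 1)) ≤ W :=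
      (card_filter_le _ _).trans (Nat.card_divisors_le_self W)
    exact_mod_cast this
  have h6 : (1 / (Nat.totient W : ℝ)) * (∑ f ∈ W.divisors.filter (fun f => f ≠ 1), TT Y f) ≤
      W * (W * E) := by
    have h7 : (1 / (Nat.totient W : ℝ)) ≤ 1 := by
      rw [div_le_one (by linarith)]; exact hφ
    have h8 : 0 ≤ ∑ f ∈ W.divisors.filter (fun f => f ≠ 1), TT Y f :=
      sum_nonneg fun f _ => TT_nonneg Y f
    calc _ ≤ 1 * ∑ f ∈ W.divisors.filter (fun f => f ≠ 1), TT Y f :=
          mul_le_mul_of_nonneg_right h7 h8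
      _ ≤ _ := by rw [one_mul]; exact h5
  have hexp2 : Real.exp (-(l / 16)) ≤ 1 / 2 := by
    rw [Real.exp_neg, inv_eq_one_div]
    apply one_div_le_one_div_of_le (by norm_num)
    have := Real.add_one_le_exp (l / 16)
    linarith
  have h7 : W * (W * E) ≤ 1 / 2 * (Y * Real.exp (-(l / 8))) := by
    calc (W : ℝ) * (W * E) ≤ Real.exp (l / 32) * (Real.exp (l / 32) * E) := by gcongr
      _ = Y * Real.exp (-(l / 8)) * Real.exp (-(l / 16)) := by
          rw [hE]
          have : Real.exp (l / 32) * (Real.exp (l / 32) * (Y * Real.exp (-(l / 4)))) =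
            Y * (Real.exp (l / 32) * Real.exp (l / 32) * Real.exp (-(l / 4))) := by ring
          rw [this, ← Real.exp_add, ← Real.exp_add, mul_assoc, ← Real.exp_add]
          congr 2
          ring
      _ ≤ Y * Real.exp (-(l / 8)) * (1 / 2) := by gcongr
      _ = _ := by ring
  have hlog3 : Real.log (3 * Y) ≤ 4 * l ^ 40 := by
    rw [Real.log_mul (by norm_num) hY0.ne']
    have h8 : Real.log 3 ≤ 2 := by
      have := Real.log_le_sub_one_of_pos (show (0:ℝ) < 3 by norm_num)
      linarith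
    have h9 : 1 ≤ l ^ 40 := one_le_pow₀ hl1'
    linarith
  have h8 : 2 * ((W.primeFactors.card : ℝ) * Real.log (3 * Y)) ≤
      1 / 2 * (Y * Real.exp (-(l / 8))) := by
    have h9 : (W.primeFactors.card : ℝ) ≤ W := by
      have : W.primeFactors.card ≤ W := by
        calc W.primeFactors.card ≤ W.divisors.card :=
              card_le_card fun p hp =>
                Nat.mem_divisors.2 ⟨Nat.dvd_of_mem_primeFactors hp, by omega⟩
          _ ≤ W := Nat.card_divisors_le_self W
      exact_mod_cast this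
    have h10 : 16 * l ^ 40 ≤ Real.exp (l / 4) := by
      have h11 := ha (l / 4) (by linarith)
      have h12 : (16 : ℝ) * 4 ^ 40 * (l / 4) ^ 40 = 16 * l ^ 40 := by
        rw [div_pow]; field_simp
      rwa [h12] at h11
    have hlog30 : 0 ≤ Real.log (3 * Y) := Real.log_nonneg (by linarith)
    calc 2 * ((W.primeFactors.card : ℝ) * Real.log (3 * Y)) ≤
          2 * (Real.exp (l / 32) * (4 * l ^ 40)) := by
          apply mul_le_mul_of_nonneg_left _ (by norm_num)
          exact mul_le_mul (h9.trans hWl) hlog3 hlog30 (Real.exp_pos _).le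
      _ = 1 / 2 * (Real.exp (l / 32) * (16 * l ^ 40)) := by ring
      _ ≤ 1 / 2 * (Real.exp (l / 32) * Real.exp (l / 4)) := by gcongr
      _ = 1 / 2 * Real.exp (l / 32 + l / 4) := by rw [Real.exp_add]
      _ ≤ 1 / 2 * Real.exp (l + -(l / 8)) := by
          apply mul_le_mul_of_nonneg_left _ (by norm_num)
          exact Real.exp_le_exp.2 (by linarith)
      _ = 1 / 2 * (Real.exp l * Real.exp (-(l / 8))) := by rw [← Real.exp_add]
      _ ≤ _ := by gcongr
  linarith

end Pool.Agent.W2helper20.MQ
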