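import Pool.Agent.W2helper20.MQ.Rows
import Pool.Agent.W2helper20.MQ.Psi

set_option autoImplicit false

/-!
# Project MQ: primes in the rows, asymptotically (helper20)
-/

namespace Pool.Agent.W2helper20.MQ

open Finset Filter Topology
open Pool.Agent.H378R2

/-- value at the place `i` after the square root, in the row `(t, c)` -/
def qv (W i t c : ℕ) : ℕ := W * (2 * t * i - (c + 1)) + i ^ 2

/-- size of the `W t` -/
noncomputable def Sx (X : ℝ) : ℝ := √X / 4

/-- number of row blocks -/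
noncomputable def Tx (X : ℝ) (W : ℕ) : ℕ := ⌈3 * Sx X / W⌉₊

/-- the standing size facts, with `R = exp (log X / 32)` -/
structure Big (X R0 : ℝ) : Prop where
  hX : 0 < X
  hL : 2048 ≤ Real.log X
  hR : max 1000 R0 ≤ Real.exp (Real.log X / 32)
  hLR : Real.log X ≤ Real.exp (Real.log X / 32)

lemma big_ev (R0 : ℝ) : ∀ᶠ X : ℝ in atTop, Big X R0 := by
  have htop : Tendsto (fun X : ℝ => Real.exp (Real.log X / 32)) atTop atTop :=
    Real.tendsto_exp_atTop.comp (Real.tendsto_log_atTop.atTop_div_const (by norm_num))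
  obtain ⟨a, ha⟩ := M1.exp_dominates 32 1
  filter_upwards [eventually_gt_atTop (0 : ℝ), Real.tendsto_log_atTop.eventually_ge_atTop 2048,
    htop.eventually_ge_atTop (max 1000 R0),
    Real.tendsto_log_atTop.eventually_ge_atTop (32 * a)] with X h1 h2 h3 h4
  refine ⟨h1, h2, h3, ?_⟩
  have h5 := ha (Real.log X / 32) (by linarith)
  rw [pow_one] at h5
  linarith

lemma Big.Sx {X R0 : ℝ} (h : Big X R0) : Sx X = Real.exp (Real.log X / 32) ^ 16 / 4 := by
  unfold MQ.Sx
  congr 1
  rw [← Real.exp_nat_mul, Real.sqrt_eq_iff_mul_self_eq (h.hX.le) (Real.exp_pos _).le,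
    ← Real.exp_add]
  rw [show ((16 : ℕ) : ℝ) * (Real.log X / 32) + ((16 : ℕ) : ℝ) * (Real.log X / 32) = Real.log X by
    push_cast; ring]
  exact (Real.exp_log h.hX).symm

lemma Big.Sx_pos {X R0 : ℝ} (h : Big X R0) : 0 < MQ.Sx X := by
  rw [h.Sx]; positivity

lemma Big.R1000 {X R0 : ℝ} (h : Big X R0) : 1000 ≤ Real.exp (Real.log X / 32) :=
  (le_max_left _ _).trans h.hR

/-- `1000 R ≤ S` -/
lemma Big.RS {X R0 : ℝ} (h : Big X R0) : 1000 * Real.exp (Real.log X / 32) ≤ MQ.Sx X := by
  rw [h.Sx]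
  have h1 := h.R1000
  set R := Real.exp (Real.log X / 32)
  have h2 : R ^ 3 ≤ R ^ 16 := pow_le_pow_right₀ (by linarith) (by norm_num)
  have h3 : 1000 * 1000 * R ≤ R ^ 3 := by
    calc 1000 * 1000 * R ≤ R * R * R := by gcongr
      _ = R ^ 3 := by ring
  linarith

lemma Tx_ge (X : ℝ) (W : ℕ) (hW : 1 ≤ W) : 3 * Sx X ≤ W * Tx X W := by
  have hWr : (1 : ℝ) ≤ W := by exact_mod_cast hW
  have h := Nat.le_ceil (3 * Sx X / W)
  rw [div_le_iff₀ (by linarith)] at h
  unfold Tx
  linarith

lemma Tx_le (X : ℝ) (W : ℕ) (hW : 1 ≤ W) : (W : ℝ) * Tx X W ≤ 3 * Sx X + W := by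
  have hWr : (1 : ℝ) ≤ W := by exact_mod_cast hW
  have h0 : 0 ≤ 3 * Sx X / W := by
    unfold Sx; positivity
  have h := (Nat.ceil_lt_add_one h0).le
  unfold Tx
  calc (W : ℝ) * (⌈3 * Sx X / W⌉₊ : ℝ) ≤ W * (3 * Sx X / W + 1) :=
        mul_le_mul_of_nonneg_left h (by linarith)
    _ = 3 * Sx X + W := by field_simp

lemma exp40_le {L : ℝ} (hL : 1 ≤ L) : Real.exp (L ^ (1 / 40 : ℝ) / 32) ≤ Real.exp (L / 32) := by
  apply Real.exp_le_exp.2
  apply div_le_div_of_nonneg_right _ (by norm_num)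
  calc L ^ (1 / 40 : ℝ) ≤ L ^ (1 : ℝ) := Real.rpow_le_rpow_of_exponent_le hL (by norm_num)
    _ = L := Real.rpow_one L

lemma expsqrt_le {L : ℝ} (hL : 1024 ≤ L) : Real.exp (√L) ≤ Real.exp (L / 32) := by
  apply Real.exp_le_exp.2
  rw [le_div_iff₀ (by norm_num)]
  have h1 : (32 : ℝ) ≤ √L := by
    rw [show (32 : ℝ) = √1024 by
      rw [show (1024 : ℝ) = 32 ^ 2 by norm_num, Real.sqrt_sq (by norm_num)]]
    exact Real.sqrt_le_sqrt hL
  calc √L * 32 ≤ √L * √L := mul_le_mul_of_nonneg_left h1 (Real.sqrt_nonneg L)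
    _ = L := Real.mul_self_sqrt (by linarith)

/-- size of the last value -/
lemma N1_le {X R0 : ℝ} (h : Big X R0) (W i : ℕ) (hW : 1 ≤ W)
    (hWR : (W : ℝ) ≤ Real.exp (Real.log X / 32)) (hiR : (i : ℝ) ≤ Real.exp (Real.log X / 32)) :
    ((W * (2 * Tx X W * i) + i ^ 2 : ℕ) : ℝ) ≤ 7 * Real.exp (Real.log X / 32) * Sx X := by
  have h1 := h.R1000
  have h2 := h.RS
  have h3 := Tx_le X W hW
  have hS := h.Sx_pos
  set R := Real.exp (Real.log X / 32)
  have hi0 : (0 : ℝ) ≤ i := Nat.cast_nonneg _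
  push_cast
  have e1 : (W : ℝ) * (2 * Tx X W * i) = 2 * i * (W * Tx X W) := by ring
  rw [e1]
  have h4 : 2 * (i : ℝ) * (W * Tx X W) ≤ 2 * R * (3 * Sx X + R) := by
    apply mul_le_mul (by linarith) (by linarith) (by positivity) (by linarith)
  have h5 : (i : ℝ) ^ 2 ≤ R ^ 2 := pow_le_pow_left₀ hi0 hiR 2
  have h6 : 3 * R ^ 2 ≤ R * Sx X := by
    calc 3 * R ^ 2 = R * (3 * R) := by ring
      _ ≤ R * Sx X := mul_le_mul_of_nonneg_left (by linarith) (by linarith)
  nlinarith

/-- **primes in the rows** -/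
theorem lam_rows (ε : ℝ) (hε : 0 < ε) : ∀ᶠ X : ℝ in atTop, ∃ ps : ℕ, (ps = 1 ∨ ps.Prime) ∧
    ∀ W : ℕ, 1 ≤ W → Squarefree W → W.Coprime ps →
      (W : ℝ) ≤ Real.exp ((Real.log X) ^ (1 / 40 : ℝ) / 32) →
      ∀ i : ℕ, 2 ≤ i → (i : ℝ) ≤ Real.exp (√(Real.log X)) → i.Coprime W →
        |∑ t ∈ Icc 1 (Tx X W), wt ((W : ℝ) / Sx X) t * ∑ c ∈ range (2 * t),
          ArithmeticFunction.vonMangoldt (qv W i t c) - 2 * c0 * Sx X / W.totient| ≤
            ε * (2 * c0 * Sx X / W.totient) ∧
        ∑ t ∈ Icc 1 (Tx X W), wt ((W : ℝ) / Sx X) t * ∑ c ∈ range (2 * t),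
          (if (qv W i t c).Prime then 0 else ArithmeticFunction.vonMangoldt (qv W i t c)) ≤
            ε * (2 * c0 * Sx X / W.totient) := by
  have hc0 := c0_pos
  have hc0p : 0 < c0 := by linarith
  set ε₁ : ℝ := ε * c0 / 2 with hε₁
  have hε₁0 : 0 < ε₁ := by positivity
  obtain ⟨Y0, hY0⟩ := eventually_atTop.1
    (Pool.Agent.H510R2.Maier.lphi_mphi (ε₁ / 3) (by positivity))
  have htop : Tendsto (fun X : ℝ => (Real.log X) ^ (1 / 40 : ℝ)) atTop atTop :=
    (tendsto_rpow_atTop (by norm_num)).comp Real.tendsto_log_atTop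
  have hdec : ∀ᶠ X : ℝ in atTop,
      Real.exp (-(3 / 32 * (Real.log X) ^ (1 / 40 : ℝ))) ≤ ε₁ / 3 := by
    have h1 : Tendsto (fun X : ℝ => Real.exp (-(3 / 32 * (Real.log X) ^ (1 / 40 : ℝ)))) atTop
        (𝓝 0) := by
      apply Real.tendsto_exp_atBot.comp
      apply tendsto_neg_atTop_atBot.comp
      exact htop.const_mul_atTop (by norm_num)
    exact h1.eventually (eventually_le_nhds (by positivity))
  filter_upwards [EPhi_row, hdec, big_ev (max (13440 / ε) (max Y0 (max 4 (12 / ε₁))))] with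
    X hE hdecX hB
  obtain ⟨ps, hps, hE⟩ := hE
  refine ⟨ps, hps, fun W hW hsq hcop hWl i hi hil hiW => ?_⟩
  have hR1000 := hB.R1000
  have hRS := hB.RS
  have hS := hB.Sx_pos
  have hSeq := hB.Sx
  have hL := hB.hL
  have hLR := hB.hLR
  have hR0 := (le_max_right _ _).trans hB.hR
  have hWR : (W : ℝ) ≤ Real.exp (Real.log X / 32) := hWl.trans (exp40_le (by linarith))
  have hiR : (i : ℝ) ≤ Real.exp (Real.log X / 32) := hil.trans (expsqrt_le (by linarith))
  have hN1 := N1_le hB W i hW hWR hiR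
  set L := Real.log X with hLd
  set R := Real.exp (L / 32) with hR
  set S := Sx X with hSd
  set l := L ^ (1 / 40 : ℝ) with hl
  have hR1 : 13440 / ε ≤ R := (le_max_left _ _).trans hR0
  have hR2 : Y0 ≤ R := ((le_max_left _ _).trans (le_max_right _ _)).trans hR0
  have hR3 : 4 ≤ R := by linarith
  have hR4 : 12 / ε₁ ≤ R :=
    (((le_max_right _ _).trans (le_max_right _ _)).trans (le_max_right _ _)).trans hR0
  have hR0' : 0 < R := by linarith
  have hWr : (1 : ℝ) ≤ W := by exact_mod_cast hW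
  have hi2 : (2 : ℝ) ≤ i := by exact_mod_cast hi
  have hφ : (1 : ℝ) ≤ Nat.totient W := by exact_mod_cast Nat.totient_pos.mpr (by omega)
  have hφW : (Nat.totient W : ℝ) ≤ W := by exact_mod_cast Nat.totient_le W
  have hφ0 : (0 : ℝ) < Nat.totient W := by linarith
  have hRR : R ≤ 13440 * R / 13440 := by linarith
  have hεR : 13440 ≤ ε * R := by rwa [div_le_iff₀ hε, mul_comm] at hR1
  -- the lower bound for the main term
  have hmain : R ^ 15 / 160 ≤ 2 * c0 * S / W.totient := by
    rw [le_div_iff₀ hφ0, hSeq]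
    calc R ^ 15 / 160 * (Nat.totient W : ℝ) ≤ R ^ 15 / 160 * R :=
          mul_le_mul_of_nonneg_left (hφW.trans hWR) (by positivity)
      _ ≤ 2 * c0 * (R ^ 16 / 4) := by
          have : R ^ 15 / 160 * R = R ^ 16 / 160 := by ring
          rw [this]
          have h16 : 0 < R ^ 16 := by positivity
          nlinarith
  have hpsiN : Chebyshev.psi ((W * (2 * Tx X W * i) + i ^ 2 : ℕ) : ℝ) ≤ 42 * R * S := by
    refine (Chebyshev.psi_le_const_mul_self (Nat.cast_nonneg _)).trans ?_
    have h6 : Real.log 4 + 4 ≤ 6 := by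
      rw [show (4 : ℝ) = 2 ^ 2 by norm_num, Real.log_pow]
      have := Real.log_two_lt_d9
      push_cast
      linarith
    calc (Real.log 4 + 4) * ((W * (2 * Tx X W * i) + i ^ 2 : ℕ) : ℝ) ≤ 6 * (7 * R * S) :=
          mul_le_mul h6 hN1 (Nat.cast_nonneg _) (by norm_num)
      _ = 42 * R * S := by ring
  constructor
  · -- primes
    have hdet := rows_det W (Tx X W) i S ε₁ hW hi hS (by linarith) (Tx_ge X W hW) (by
      intro Y hY1 hY2
      have hYS : 2 * S ≤ Y := by
        refine le_trans ?_ hY1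
        have : 2 * S * 1 ≤ 2 * S * ((i : ℝ) - 1) :=
          mul_le_mul_of_nonneg_left (by linarith) (by linarith)
        linarith
      have hYR : R ≤ Y := by linarith
      have hYpos : 0 < Y := by linarith
      have hlogR : Real.log R = L / 32 := Real.log_exp _
      have hlY1 : L / 4 ≤ Real.log Y := by
        have h1 : R ^ 15 ≤ Y := by
          refine le_trans ?_ hYS
          rw [hSeq]
          have : R ^ 16 = R * R ^ 15 := by ring
          rw [this]
          have h15 : 0 < R ^ 15 := by positivity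
          nlinarith
        have h2 := Real.log_le_log (by positivity) h1
        rw [Real.log_pow, hlogR] at h2
        push_cast at h2
        linarith
      have hlY2 : Real.log Y ≤ 2 * L := by
        have h1 : Y ≤ R ^ 17 := by
          refine hY2.trans ?_
          rw [hSeq]
          calc 2 * (i : ℝ) * (R ^ 16 / 4) ≤ 2 * R * (R ^ 16 / 4) := by gcongr
            _ = R ^ 17 / 2 := by ring
            _ ≤ R ^ 17 := by
                have : 0 < R ^ 17 := by positivity
                linarith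
        have h2 := Real.log_le_log hYpos h1
        rw [Real.log_pow, hlogR] at h2
        push_cast at h2
        linarith
      have e1 := hE W hW hsq hcop hWl (i ^ 2) (hiW.pow_left 2) Y hYpos hlY1 hlY2
      have e2 := hY0 Y (hR2.trans hYR)
      have e3 := MPhi_c Y (hR3.trans hYR)
      have e4 : 4 ≤ ε₁ / 3 * Y := by
        have : 12 ≤ ε₁ * Y := by
          rw [div_le_iff₀ hε₁0] at hR4
          calc (12 : ℝ) ≤ R * ε₁ := hR4
            _ ≤ Y * ε₁ := mul_le_mul_of_nonneg_right hYR hε₁0.le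
            _ = ε₁ * Y := mul_comm _ _
        linarith
      have e5 : |EPhi Y W (i ^ 2)| ≤ ε₁ / 3 * Y / W.totient := by
        refine e1.trans ?_
        rw [le_div_iff₀ hφ0]
        calc Y * Real.exp (-(l / 8)) * (Nat.totient W : ℝ) ≤
              Y * Real.exp (-(l / 8)) * Real.exp (l / 32) :=
              mul_le_mul_of_nonneg_left (hφW.trans hWl) (by positivity)
          _ = Real.exp (-(3 / 32 * l)) * Y := by
              rw [mul_assoc, ← Real.exp_add, mul_comm]
              congr 2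
              ring
          _ ≤ ε₁ / 3 * Y := mul_le_mul_of_nonneg_right hdecX hYpos.le
      have e6 : |LPhi Y / W.totient - c0 * Y / W.totient| ≤ 2 * (ε₁ / 3 * Y / W.totient) := by
        rw [← sub_div, abs_div, abs_of_pos hφ0, ← mul_div_assoc]
        apply div_le_div_of_nonneg_right _ hφ0.le
        calc |LPhi Y - c0 * Y| = |(LPhi Y - MPhi Y) + (MPhi Y - c0 * Y)| := by ring_nf
          _ ≤ |LPhi Y - MPhi Y| + |MPhi Y - c0 * Y| := abs_add_le _ _
          _ ≤ 2 * (ε₁ / 3 * Y) := by linarith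
      calc |EPhi Y W (i ^ 2) + LPhi Y / W.totient - c0 * Y / W.totient| =
            |EPhi Y W (i ^ 2) + (LPhi Y / W.totient - c0 * Y / W.totient)| := by ring_nf
        _ ≤ |EPhi Y W (i ^ 2)| + |LPhi Y / W.totient - c0 * Y / W.totient| := abs_add_le _ _
        _ ≤ ε₁ / 3 * Y / W.totient + 2 * (ε₁ / 3 * Y / W.totient) := add_le_add e5 e6
        _ = ε₁ * Y / W.totient := by ring)
    refine hdet.trans ?_
    have h1 : 2 * ε₁ * S / W.totient = ε / 2 * (2 * c0 * S / W.totient) := by
      rw [hε₁]; ring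
    have h2 : ((W : ℝ) + i) / S * Chebyshev.psi ((W * (2 * Tx X W * i) + i ^ 2 : ℕ) : ℝ) ≤
        ε / 2 * (2 * c0 * S / W.totient) := by
      calc ((W : ℝ) + i) / S * Chebyshev.psi ((W * (2 * Tx X W * i) + i ^ 2 : ℕ) : ℝ) ≤
            (2 * R) / S * (42 * R * S) := by
            apply mul_le_mul _ hpsiN (Chebyshev.psi_nonneg _) (by positivity)
            apply div_le_div_of_nonneg_right _ hS.le
            linarith
        _ = 84 * R ^ 2 := by field_simp; ring
        _ ≤ (ε * R) * R ^ 2 / 160 := by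
            have : 0 < R ^ 2 := by positivity
            nlinarith
        _ = ε * R ^ 3 / 160 := by ring
        _ ≤ ε * (R ^ 15 / 2) / 160 := by
            have h3 : R ^ 3 * 2 ≤ R ^ 15 := by
              calc R ^ 3 * 2 ≤ R ^ 3 * R := mul_le_mul_of_nonneg_left (by linarith) (by positivity)
                _ = R ^ 4 := by ring
                _ ≤ R ^ 15 := pow_le_pow_right₀ (by linarith) (by norm_num)
            have h4 : R ^ 3 ≤ R ^ 15 / 2 := by linarith
            gcongr
        _ = ε / 2 * (R ^ 15 / 160) := by ring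
        _ ≤ ε / 2 * (2 * c0 * S / W.totient) := by gcongr
    linarith
  · -- prime powers
    have hlam : 0 ≤ (W : ℝ) / S := by positivity
    have hlamT : 3 ≤ (W : ℝ) / S * Tx X W := by
      rw [div_mul_eq_mul_div, le_div_iff₀ hS]
      exact Tx_ge X W hW
    refine (rows_pp W (Tx X W) i _ hW hi hlam hlamT).trans ?_
    set N1 : ℝ := ((W * (2 * Tx X W * i) + i ^ 2 : ℕ) : ℝ) with hN1d
    have hN11 : 1 ≤ N1 := by
      have h1 : 1 ≤ W * (2 * Tx X W * i) + i ^ 2 := by
        have : 0 < i ^ 2 := by positivity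
        omega
      rw [hN1d]
      exact_mod_cast h1
    refine (Chebyshev.psi_sub_theta_le hN11).trans ?_
    have hN18 : N1 ≤ R ^ 18 := by
      refine hN1.trans ?_
      rw [hSeq]
      calc 7 * R * (R ^ 16 / 4) ≤ R ^ 17 * 2 := by
            have : 7 * R * (R ^ 16 / 4) = R ^ 17 * (7 / 4) := by ring
            rw [this]
            gcongr
            norm_num
        _ ≤ R ^ 17 * R := mul_le_mul_of_nonneg_left (by linarith) (by positivity)
        _ = R ^ 18 := by ring
    have hs : √N1 ≤ R ^ 9 := by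
      rw [show R ^ 9 = √(R ^ 18) by
        rw [show R ^ 18 = (R ^ 9) ^ 2 by ring, Real.sqrt_sq (by positivity)]]
      exact Real.sqrt_le_sqrt hN18
    have hlN : Real.log N1 ≤ R := by
      have h2 := Real.log_le_log (by linarith) hN18
      rw [Real.log_pow, show Real.log R = L / 32 from Real.log_exp _] at h2
      push_cast at h2
      linarith
    calc 2 * √N1 * Real.log N1 ≤ 2 * R ^ 9 * R := by
          apply mul_le_mul (by linarith) hlN (Real.log_nonneg hN11) (by positivity)
      _ = 2 * R ^ 10 := by ring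
      _ ≤ (ε * R) * R ^ 10 / 160 := by
          have : 0 < R ^ 10 := by positivity
          nlinarith
      _ = ε * R ^ 11 / 160 := by ring
      _ ≤ ε * R ^ 15 / 160 := by
          have h4 : R ^ 11 ≤ R ^ 15 := pow_le_pow_right₀ (by linarith) (by norm_num)
          gcongr
      _ = ε * (R ^ 15 / 160) := by ring
      _ ≤ ε * (2 * c0 * S / W.totient) := by gcongr

end Pool.Agent.W2helper20.MQ
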