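import Pool.Agent.H510R2.Maier.MA1

set_option autoImplicit false

/-!
# Project MQ: the tent weight, integrals (helper20)
-/

namespace Pool.Agent.W2helper20.MQ

open Finset Filter Topology MeasureTheory
open Pool.Agent.H378R2

lemma Phi_abs (u : ℝ) : Phi u = Phi |u| := by
  unfold Phi
  rw [Real.log_abs]

lemma Phi_lip' (u v : ℝ) : |Phi u - Phi v| ≤ |u - v| := by
  rw [Phi_abs u, Phi_abs v]
  exact (Phi_lip (abs_nonneg u) (abs_nonneg v)).trans (abs_abs_sub_abs_le_abs_sub u v)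

lemma Phi_cont : Continuous Phi := by
  rw [Metric.continuous_iff]
  intro b ε hε
  refine ⟨ε, hε, fun a ha => ?_⟩
  rw [Real.dist_eq] at ha ⊢
  exact (Phi_lip' a b).trans_lt ha

/-- the mass of the tent -/
noncomputable def c0 : ℝ := ∫ u in (0 : ℝ)..3, Phi u

/-- `Phi u / u` -/
noncomputable def gf (u : ℝ) : ℝ := Phi u / max u 1

lemma gf_cont : Continuous gf := by
  unfold gf
  apply Phi_cont.div (continuous_id.max continuous_const)
  intro x
  have : (1 : ℝ) ≤ max x 1 := le_max_right _ _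
  simp only [id]
  linarith

lemma gf_nonneg (u : ℝ) : 0 ≤ gf u := by
  unfold gf
  have : (1 : ℝ) ≤ max u 1 := le_max_right _ _
  exact div_nonneg (Phi_nonneg u) (by linarith)

lemma gf_le (u : ℝ) : gf u ≤ 1 / 2 := by
  unfold gf
  have : (1 : ℝ) ≤ max u 1 := le_max_right _ _
  rw [div_le_iff₀ (by linarith)]
  have := Phi_le_half u
  linarith

lemma gf_mul {u : ℝ} (hu : 0 ≤ u) : gf u * u = Phi u := by
  unfold gf
  rcases le_total u 1 with h | h
  · rw [Phi_eq_zero_of_le hu h]; simp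
  · rw [max_eq_left h, div_mul_cancel₀]
    linarith

/-- primitive of `Phi u / u` -/
noncomputable def Ps (y : ℝ) : ℝ := ∫ u in (0 : ℝ)..y, gf u

lemma gf_int (a b : ℝ) : IntervalIntegrable gf volume a b := gf_cont.intervalIntegrable a b

lemma Ps_sub (x y : ℝ) : Ps y - Ps x = ∫ u in x..y, gf u := by
  unfold Ps
  exact intervalIntegral.integral_interval_sub_left (gf_int _ _) (gf_int _ _)

lemma Ps_mono {x y : ℝ} (h : x ≤ y) : 0 ≤ Ps y - Ps x := by
  rw [Ps_sub]
  exact intervalIntegral.integral_nonneg h fun u _ => gf_nonneg u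

lemma Ps_lip (x y : ℝ) : |Ps y - Ps x| ≤ 1 / 2 * |y - x| := by
  rw [Ps_sub, ← Real.norm_eq_abs]
  exact intervalIntegral.norm_integral_le_of_norm_le_const fun u _ => by
    rw [Real.norm_eq_abs, abs_of_nonneg (gf_nonneg u)]
    exact gf_le u

lemma Ps_small {y : ℝ} (h0 : 0 ≤ y) (h1 : y ≤ 1) : Ps y = 0 := by
  unfold Ps
  have : ∀ u ∈ Set.uIcc 0 y, gf u = 0 := by
    intro u hu
    rw [Set.uIcc_of_le h0] at hu
    unfold gf
    rw [Phi_eq_zero_of_le hu.1 (hu.2.trans h1), zero_div]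
  rw [intervalIntegral.integral_congr this]
  simp

lemma Ps_big {y : ℝ} (h : 3 ≤ y) : Ps y = Ps 3 := by
  have h2 : Ps y - Ps 3 = 0 := by
    rw [Ps_sub]
    have : ∀ u ∈ Set.uIcc 3 y, gf u = 0 := by
      intro u hu
      rw [Set.uIcc_of_le h] at hu
      unfold gf
      have := exp_one_lt_three'
      rw [Phi_eq_zero_of_ge (by linarith [hu.1]), zero_div]
    rw [intervalIntegral.integral_congr this]
    simp
  linarith

lemma Ps_nonneg {y : ℝ} (h : 0 ≤ y) : 0 ≤ Ps y := by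
  have := Ps_mono h
  rw [Ps_small le_rfl zero_le_one] at this
  linarith

lemma Ps_three_le : Ps 3 ≤ 1 := by
  have h := Ps_lip 1 3
  rw [Ps_small zero_le_one le_rfl, sub_zero] at h
  norm_num at h
  exact (le_abs_self _).trans h

/-- substitution -/
lemma Ps_subst (a b m : ℝ) (ha : 0 < a) (hab : a ≤ b) (hm : 0 ≤ m) :
    Ps (m / a) - Ps (m / b) = ∫ v in a..b, Phi (m / v) / v := by
  rw [Ps_sub]
  have h := intervalIntegral.integral_comp_mul_deriv' (a := a) (b := b) (f := fun v => m / v)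
    (f' := fun v => -(m / v ^ 2)) (g := gf) ?_ ?_ ?_
  · rw [intervalIntegral.integral_symm, ← h, ← intervalIntegral.integral_neg]
    apply intervalIntegral.integral_congr
    intro v hv
    rw [Set.uIcc_of_le hab] at hv
    have hv0 : 0 < v := ha.trans_le hv.1
    simp only [Function.comp]
    rw [← gf_mul (u := m / v) (by positivity)]
    field_simp
  · intro v hv
    rw [Set.uIcc_of_le hab] at hv
    have hv0 : v ≠ 0 := (ha.trans_le hv.1).ne'
    have h1 : HasDerivAt (fun w : ℝ => m * w⁻¹) (m * -(v ^ 2)⁻¹) v :=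
      (hasDerivAt_inv hv0).const_mul m
    have e1 : (fun w : ℝ => m / w) = fun w : ℝ => m * w⁻¹ := by
      funext w
      rw [div_eq_mul_inv]
    have e2 : -(m / v ^ 2) = m * -(v ^ 2)⁻¹ := by
      rw [div_eq_mul_inv, mul_neg]
    show HasDerivAt (fun w : ℝ => m / w) (-(m / v ^ 2)) v
    rw [e1, e2]
    exact h1
  · apply ContinuousOn.neg
    apply ContinuousOn.div continuousOn_const (by fun_prop)
    intro v hv
    rw [Set.uIcc_of_le hab] at hv
    have hv0 : v ≠ 0 := (ha.trans_le hv.1).ne'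
    positivity
  · exact gf_cont.continuousOn

/-- the Riemann sum of the tent -/
theorem MPhi_c (Y : ℝ) (hY : 4 ≤ Y) : |MPhi Y - c0 * Y| ≤ 4 := by
  have hY0 : 0 < Y := by linarith
  set N := ⌊3 * Y⌋₊ with hN
  have hNle : (N : ℝ) ≤ 3 * Y := Nat.floor_le (by linarith)
  have hNlt : 3 * Y < N + 1 := Nat.lt_floor_add_one _
  have hint : ∀ a b : ℝ, IntervalIntegrable Phi volume a b := fun a b =>
    Phi_cont.intervalIntegrable a b
  have h1 : ∑ k ∈ range N, ∫ u in ((k : ℝ) / Y)..(((k + 1 : ℕ) : ℝ) / Y), Phi u =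
      ∫ u in (((0 : ℕ) : ℝ) / Y)..((N : ℝ) / Y), Phi u := by
    exact intervalIntegral.sum_integral_adjacent_intervals (a := fun k : ℕ => (k : ℝ) / Y)
      (fun k _ => hint _ _)
  have h2 : c0 = (∫ u in (((0 : ℕ) : ℝ) / Y)..((N : ℝ) / Y), Phi u) +
      ∫ u in ((N : ℝ) / Y)..3, Phi u := by
    unfold c0
    rw [Nat.cast_zero, zero_div]
    exact (intervalIntegral.integral_add_adjacent_intervals (hint _ _) (hint _ _)).symm
  have h3 : |∫ u in ((N : ℝ) / Y)..3, Phi u| ≤ 1 / 2 * (1 / Y) := by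
    rw [← Real.norm_eq_abs]
    have h4 : ∀ u ∈ Set.uIoc ((N : ℝ) / Y) 3, ‖Phi u‖ ≤ 1 / 2 := fun u _ => by
      rw [Real.norm_eq_abs, abs_of_nonneg (Phi_nonneg u)]
      exact Phi_le_half u
    refine (intervalIntegral.norm_integral_le_of_norm_le_const h4).trans ?_
    apply mul_le_mul_of_nonneg_left _ (by norm_num)
    rw [abs_le]
    have e1 : (N : ℝ) / Y ≤ 3 := by rw [div_le_iff₀ hY0]; exact hNle
    have e2 : 3 - 1 / Y ≤ (N : ℝ) / Y := by
      rw [le_div_iff₀ hY0, sub_mul, div_mul_cancel₀ _ hY0.ne']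
      linarith
    have e3 : 0 < 1 / Y := by positivity
    constructor <;> linarith
  have h5 : ∀ k ∈ range N, |Phi (((k + 1 : ℕ) : ℝ) / Y) * (1 / Y) -
      ∫ u in ((k : ℝ) / Y)..(((k + 1 : ℕ) : ℝ) / Y), Phi u| ≤ 1 / Y * (1 / Y) := by
    intro k _
    have e1 : (((k + 1 : ℕ) : ℝ) / Y) - ((k : ℝ) / Y) = 1 / Y := by push_cast; ring
    have e2 : Phi (((k + 1 : ℕ) : ℝ) / Y) * (1 / Y) =
        ∫ _u in ((k : ℝ) / Y)..(((k + 1 : ℕ) : ℝ) / Y), Phi (((k + 1 : ℕ) : ℝ) / Y) := by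
      rw [intervalIntegral.integral_const, e1, smul_eq_mul]
      ring
    rw [e2, ← intervalIntegral.integral_sub (by simp) (hint _ _), ← Real.norm_eq_abs]
    have hle : (k : ℝ) / Y ≤ ((k + 1 : ℕ) : ℝ) / Y := by
      have : 0 < 1 / Y := by positivity
      linarith
    have h4 : ∀ u ∈ Set.uIoc ((k : ℝ) / Y) (((k + 1 : ℕ) : ℝ) / Y),
        ‖Phi (((k + 1 : ℕ) : ℝ) / Y) - Phi u‖ ≤ 1 / Y := by
      intro u hu
      rw [Set.uIoc_of_le hle] at hu
      rw [Real.norm_eq_abs]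
      refine (Phi_lip' _ _).trans ?_
      rw [abs_of_nonneg (by linarith [hu.2])]
      linarith [hu.1]
    refine (intervalIntegral.norm_integral_le_of_norm_le_const h4).trans ?_
    rw [e1, abs_of_pos (by positivity)]
  have h6 : MPhi Y = ∑ k ∈ range N, Phi (((k + 1 : ℕ) : ℝ) / Y) := by
    unfold MPhi
    rw [← hN, Finset.range_eq_Ico, Finset.sum_Ico_add' (fun n : ℕ => Phi ((n : ℝ) / Y)) 0 N 1]
    apply Finset.sum_congr _ fun _ _ => rfl
    ext x
    simp only [Finset.mem_Icc, Finset.mem_Ico]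
    omega
  have h7 : MPhi Y * (1 / Y) - c0 = ∑ k ∈ range N, (Phi (((k + 1 : ℕ) : ℝ) / Y) * (1 / Y) -
      ∫ u in ((k : ℝ) / Y)..(((k + 1 : ℕ) : ℝ) / Y), Phi u) - ∫ u in ((N : ℝ) / Y)..3, Phi u := by
    rw [sum_sub_distrib, h1, h6, sum_mul]
    linarith
  have h8 : |MPhi Y * (1 / Y) - c0| ≤ 4 * (1 / Y) := by
    rw [h7]
    refine (abs_sub _ _).trans ?_
    have h9 : |∑ k ∈ range N, (Phi (((k + 1 : ℕ) : ℝ) / Y) * (1 / Y) -
      ∫ u in ((k : ℝ) / Y)..(((k + 1 : ℕ) : ℝ) / Y), Phi u)| ≤ 3 * (1 / Y) := by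
      refine (abs_sum_le_sum_abs _ _).trans ((sum_le_sum h5).trans ?_)
      rw [sum_const, card_range, nsmul_eq_mul]
      calc (N : ℝ) * (1 / Y * (1 / Y)) ≤ (3 * Y) * (1 / Y * (1 / Y)) :=
            mul_le_mul_of_nonneg_right hNle (by positivity)
        _ = 3 * (1 / Y) := by field_simp
    have : 0 < 1 / Y := by positivity
    linarith
  have h9 : MPhi Y - c0 * Y = (MPhi Y * (1 / Y) - c0) * Y := by field_simp
  rw [h9, abs_mul, abs_of_pos hY0]
  calc |MPhi Y * (1 / Y) - c0| * Y ≤ 4 * (1 / Y) * Y := mul_le_mul_of_nonneg_right h8 hY0.le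
    _ = 4 := by field_simp

lemma c0_pos : 1 / 40 ≤ c0 := by
  have h1 := MPhi_c 160 (by norm_num)
  have h2 := MPhi_ge 160 (by norm_num)
  have h3 := (abs_le.1 h1).2
  linarith

lemma c0_le : c0 ≤ 3 / 2 := by
  unfold c0
  have h : |∫ u in (0 : ℝ)..3, Phi u| ≤ 1 / 2 * |3 - 0| := by
    rw [← Real.norm_eq_abs]
    exact intervalIntegral.norm_integral_le_of_norm_le_const fun u _ => by
      rw [Real.norm_eq_abs, abs_of_nonneg (Phi_nonneg u)]
      exact Phi_le_half u
  have := (le_abs_self _).trans h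
  norm_num at this
  linarith

/-- the weight of the row block `t` -/
noncomputable def wt (lam : ℝ) (t : ℕ) : ℝ := Ps (lam * t) - Ps (lam * ((t : ℝ) - 1))

lemma wt_nonneg {lam : ℝ} (hl : 0 ≤ lam) (t : ℕ) : 0 ≤ wt lam t :=
  Ps_mono (mul_le_mul_of_nonneg_left (by linarith) hl)

lemma wt_le {lam : ℝ} (hl : 0 ≤ lam) (t : ℕ) : wt lam t ≤ lam / 2 := by
  have h := Ps_lip (lam * ((t : ℝ) - 1)) (lam * t)
  have e : lam * (t : ℝ) - lam * ((t : ℝ) - 1) = lam := by ring
  rw [e, abs_of_nonneg hl] at h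
  unfold wt
  have := (le_abs_self _).trans h
  linarith

lemma wt_sum {lam : ℝ} (a b : ℕ) (h : a ≤ b) :
    ∑ t ∈ Ioc a b, wt lam t = Ps (lam * b) - Ps (lam * a) := by
  induction b, h using Nat.le_induction with
  | base => simp
  | succ b hb ih =>
    rw [← Finset.insert_Ioc_right_eq_Ioc_add_one hb, Finset.sum_insert (by simp), ih]
    unfold wt
    push_cast
    rw [show (b : ℝ) + 1 - 1 = b by ring]
    ring

/-- the total weight of the row blocks -/
lemma wt_total_le {lam : ℝ} (T : ℕ) : ∑ t ∈ Icc 1 T, wt lam t ≤ 1 := by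
  have h := wt_sum (lam := lam) 0 T (Nat.zero_le _)
  have e : Icc 1 T = Ioc 0 T := by ext x; simp [Finset.mem_Icc, Finset.mem_Ioc]; omega
  rw [e, h, Nat.cast_zero, mul_zero, Ps_small le_rfl zero_le_one, sub_zero]
  rcases le_total (lam * T) 3 with h3 | h3
  · have := Ps_mono h3
    have := Ps_three_le
    linarith
  · rw [Ps_big h3]; exact Ps_three_le

/-- the total weight of the rows -/
theorem wt_rows {lam : ℝ} (hl : 0 < lam) (T : ℕ) (hT : 3 ≤ lam * T) :
    c0 / lam ≤ ∑ t ∈ Icc 1 T, wt lam t * t ∧ ∑ t ∈ Icc 1 T, wt lam t * t ≤ c0 / lam + 1 := by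
  have hint : ∀ a b : ℝ, IntervalIntegrable Phi volume a b := fun a b =>
    Phi_cont.intervalIntegrable a b
  have h1 : ∑ k ∈ range T, ∫ u in (lam * (k : ℝ))..(lam * ((k + 1 : ℕ) : ℝ)), Phi u =
      ∫ u in (lam * ((0 : ℕ) : ℝ))..(lam * (T : ℝ)), Phi u := by
    exact intervalIntegral.sum_integral_adjacent_intervals (a := fun k : ℕ => lam * (k : ℝ))
      (fun k _ => hint _ _)
  have h2 : ∫ u in (lam * ((0 : ℕ) : ℝ))..(lam * (T : ℝ)), Phi u = c0 := by
    rw [Nat.cast_zero, mul_zero,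
      ← intervalIntegral.integral_add_adjacent_intervals (hint 0 3) (hint 3 (lam * T))]
    have : ∀ u ∈ Set.uIcc 3 (lam * T), Phi u = 0 := by
      intro u hu
      rw [Set.uIcc_of_le hT] at hu
      have := exp_one_lt_three'
      exact Phi_eq_zero_of_ge (by linarith [hu.1])
    rw [intervalIntegral.integral_congr this]
    unfold c0
    simp
  have h3 : ∀ k : ℕ, 0 ≤ wt lam (k + 1) * ((k + 1 : ℕ) : ℝ) -
      1 / lam * ∫ u in (lam * (k : ℝ))..(lam * ((k + 1 : ℕ) : ℝ)), Phi u ∧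
      wt lam (k + 1) * ((k + 1 : ℕ) : ℝ) -
      1 / lam * ∫ u in (lam * (k : ℝ))..(lam * ((k + 1 : ℕ) : ℝ)), Phi u ≤ wt lam (k + 1) := by
    intro k
    have e0 : wt lam (k + 1) = ∫ u in (lam * (k : ℝ))..(lam * ((k + 1 : ℕ) : ℝ)), gf u := by
      unfold wt
      rw [Ps_sub]
      push_cast
      rw [show (k : ℝ) + 1 - 1 = k by ring]
    have hle : lam * (k : ℝ) ≤ lam * ((k + 1 : ℕ) : ℝ) := by
      push_cast; nlinarith
    have e1 : wt lam (k + 1) * ((k + 1 : ℕ) : ℝ) -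
      1 / lam * ∫ u in (lam * (k : ℝ))..(lam * ((k + 1 : ℕ) : ℝ)), Phi u =
      ∫ u in (lam * (k : ℝ))..(lam * ((k + 1 : ℕ) : ℝ)), gf u * (((k + 1 : ℕ) : ℝ) - u / lam) := by
      rw [e0, ← intervalIntegral.integral_mul_const, ← intervalIntegral.integral_const_mul,
        ← intervalIntegral.integral_sub ((gf_int _ _).mul_const _) ((hint _ _).const_mul _)]
      apply intervalIntegral.integral_congr
      intro u hu
      rw [Set.uIcc_of_le hle] at hu
      have hu0 : 0 ≤ u := le_trans (by positivity) hu.1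
      simp only
      rw [← gf_mul hu0]
      field_simp
    rw [e1]
    constructor
    · apply intervalIntegral.integral_nonneg hle
      intro u hu
      apply mul_nonneg (gf_nonneg u)
      have : u / lam ≤ ((k + 1 : ℕ) : ℝ) := by
        rw [div_le_iff₀ hl]; linarith [hu.2]
      linarith
    · rw [e0]
      apply intervalIntegral.integral_mono_on hle
      · apply Continuous.intervalIntegrable
        exact gf_cont.mul (by fun_prop)
      · exact gf_int _ _
      · intro u hu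
        have h4 : (k : ℝ) ≤ u / lam := by
          rw [le_div_iff₀ hl]; linarith [hu.1]
        have h5 : ((k + 1 : ℕ) : ℝ) - u / lam ≤ 1 := by push_cast; linarith
        calc gf u * (((k + 1 : ℕ) : ℝ) - u / lam) ≤ gf u * 1 :=
              mul_le_mul_of_nonneg_left h5 (gf_nonneg u)
          _ = gf u := mul_one _
  have h4 : ∀ f : ℕ → ℝ, ∑ t ∈ Icc 1 T, f t = ∑ k ∈ range T, f (k + 1) := by
    intro f
    rw [Finset.range_eq_Ico, Finset.sum_Ico_add' f 0 T 1]
    apply Finset.sum_congr _ fun _ _ => rfl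
    ext x
    simp only [Finset.mem_Icc, Finset.mem_Ico]
    omega
  have h5 : c0 / lam = ∑ k ∈ range T, 1 / lam *
      ∫ u in (lam * (k : ℝ))..(lam * ((k + 1 : ℕ) : ℝ)), Phi u := by
    rw [← mul_sum, h1, h2]
    ring
  have h6 := wt_total_le (lam := lam) T
  rw [h4] at h6
  rw [h4, h5]
  constructor
  · apply sum_le_sum
    intro k _
    linarith [(h3 k).1]
  · have h7 : ∑ k ∈ range T, (wt lam (k + 1) * ((k + 1 : ℕ) : ℝ) -
      1 / lam * ∫ u in (lam * (k : ℝ))..(lam * ((k + 1 : ℕ) : ℝ)), Phi u) ≤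
      ∑ k ∈ range T, wt lam (k + 1) := sum_le_sum fun k _ => (h3 k).2
    rw [sum_sub_distrib] at h7
    linarith

end Pool.Agent.W2helper20.MQ
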