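import Pool.Agent.W2helper20.MQ.Riem

set_option autoImplicit false

/-!
# Project MQ: primes in the rows, deterministic part (helper20)
-/

namespace Pool.Agent.W2helper20.MQ

open Finset Filter Topology MeasureTheory
open Pool.Agent.H378R2

lemma wt_big {lam : ℝ} (hl : 0 ≤ lam) {T t : ℕ} (hT : 3 ≤ lam * T) (ht : T < t) :
    wt lam t = 0 := by
  unfold wt
  have h1 : (T : ℝ) ≤ (t : ℝ) - 1 := by
    have : ((T + 1 : ℕ) : ℝ) ≤ t := by exact_mod_cast ht
    push_cast at this
    linarith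
  have h2 : lam * T ≤ lam * ((t : ℝ) - 1) := mul_le_mul_of_nonneg_left h1 hl
  have h3 : lam * ((t : ℝ) - 1) ≤ lam * t := mul_le_mul_of_nonneg_left (by linarith) hl
  rw [Ps_big (hT.trans h2), Ps_big ((hT.trans h2).trans h3), sub_self]

/-- exchange of the order of summation -/
theorem fsum (f : ℕ → ℝ) (lam : ℝ) (hl : 0 ≤ lam) (T i : ℕ) (hT : 3 ≤ lam * T) (hi : 2 ≤ i) :
    ∑ t ∈ Icc 1 T, wt lam t * ∑ c ∈ range (2 * t), f (2 * t * i - (c + 1)) =
      ∑ ν ∈ range (2 * T * i), f ν *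
        (Ps (lam * (ν / (2 * (i - 1)) : ℕ)) - Ps (lam * (ν / (2 * i) : ℕ))) := by
  have h1 : ∀ t ∈ Icc 1 T, ∑ c ∈ range (2 * t), f (2 * t * i - (c + 1)) =
      ∑ ν ∈ Ico (2 * t * (i - 1)) (2 * t * i), f ν := by
    intro t _
    obtain ⟨j, rfl⟩ : ∃ j, i = j + 2 := ⟨i - 2, by omega⟩
    rw [Finset.sum_Ico_eq_sum_range]
    have e1 : 2 * t * (j + 2) - 2 * t * (j + 2 - 1) = 2 * t := by
      rw [← Nat.mul_sub]
      have : j + 2 - (j + 2 - 1) = 1 := by omega
      rw [this, mul_one]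
    rw [e1, ← Finset.sum_range_reflect]
    apply sum_congr rfl
    intro c hc
    rw [mem_range] at hc
    congr 1
    have e2 : 2 * t * (j + 2) = 2 * t * (j + 2 - 1) + 2 * t := by
      have : j + 2 = (j + 2 - 1) + 1 := by omega
      conv_lhs => rw [this]
      ring
    omega
  rw [sum_congr rfl fun t ht => by rw [h1 t ht]]
  simp_rw [mul_sum]
  rw [Finset.sum_comm' (t' := range (2 * T * i))
    (s' := fun ν => (Ioc (ν / (2 * i)) (ν / (2 * (i - 1)))).filter (fun t => t ≤ T))]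
  · apply sum_congr rfl
    intro ν _
    have hle : ν / (2 * i) ≤ ν / (2 * (i - 1)) := Nat.div_le_div_left (by omega) (by omega)
    rw [← wt_sum _ _ hle, mul_sum, Finset.sum_filter]
    apply sum_congr rfl
    intro t _
    split_ifs with h
    · ring
    · rw [wt_big hl hT (by omega)]
      ring
  · intro t ν
    rw [mem_Icc, mem_Ico, mem_range, mem_filter, mem_Ioc, Nat.div_lt_iff_lt_mul (by omega),
      Nat.le_div_iff_mul_le (by omega)]
    have e1 : t * (2 * i) = 2 * t * i := by ring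
    have e2 : t * (2 * (i - 1)) = 2 * t * (i - 1) := by ring
    rw [e1, e2]
    constructor
    · rintro ⟨⟨h1, h2⟩, h3, h4⟩
      refine ⟨⟨⟨h4, h3⟩, h2⟩, ?_⟩
      refine lt_of_lt_of_le h4 ?_
      gcongr
    · rintro ⟨⟨⟨h2, h3⟩, h4⟩, h1⟩
      refine ⟨⟨?_, h4⟩, h3, h2⟩
      by_contra hcon
      have : t = 0 := by omega
      subst this
      simp at h2

/-- the weight of a value -/
noncomputable def Hw (S : ℝ) (i n : ℕ) : ℝ :=
  Ps ((n : ℝ) / S / (2 * ((i : ℝ) - 1))) - Ps ((n : ℝ) / S / (2 * (i : ℝ)))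

lemma gdiff (W i ν : ℕ) (S : ℝ) (hS : 0 < S) (hi : 2 ≤ i) :
    |(Ps ((W : ℝ) / S * (ν / (2 * (i - 1)) : ℕ)) - Ps ((W : ℝ) / S * (ν / (2 * i) : ℕ))) -
      Hw S i (W * ν + i ^ 2)| ≤ (W + i) / S := by
  have hi2 : (2 : ℝ) ≤ i := by exact_mod_cast hi
  have hW0 : (0 : ℝ) ≤ W := Nat.cast_nonneg _
  -- general comparison
  have key : ∀ k : ℕ, 1 ≤ k → (i : ℝ) ^ 2 / (2 * k) ≤ i →
      |Ps ((W : ℝ) / S * (ν / (2 * k) : ℕ)) - Ps (((W * ν + i ^ 2 : ℕ) : ℝ) / S / (2 * (k : ℝ)))| ≤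
        1 / 2 * ((W + i) / S) := by
    intro k hk hik
    have hk0 : (0 : ℝ) < k := by exact_mod_cast hk
    refine (Ps_lip _ _).trans ?_
    apply mul_le_mul_of_nonneg_left _ (by norm_num)
    have h1 : ((ν / (2 * k) : ℕ) : ℝ) ≤ (ν : ℝ) / (2 * k) := by
      have := Nat.cast_div_le (α := ℝ) (m := ν) (n := 2 * k)
      push_cast at this
      exact this
    have h2 : (ν : ℝ) / (2 * k) < ((ν / (2 * k) : ℕ) : ℝ) + 1 := by
      rw [div_lt_iff₀ (by positivity)]
      have h3 := Nat.lt_div_mul_add (a := ν) (b := 2 * k) (by omega)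
      have h4 : (ν : ℝ) < ((ν / (2 * k) * (2 * k) + 2 * k : ℕ) : ℝ) := by exact_mod_cast h3
      push_cast at h4
      linarith
    set x : ℝ := ((ν / (2 * k) : ℕ) : ℝ) with hx
    have e1 : ((W * ν + i ^ 2 : ℕ) : ℝ) / S / (2 * (k : ℝ)) =
        (W : ℝ) / S * ((ν : ℝ) / (2 * k)) + (i : ℝ) ^ 2 / (2 * k) / S := by
      push_cast
      field_simp
    rw [e1]
    have hWS : 0 ≤ (W : ℝ) / S := by positivity
    have h5 : (i : ℝ) ^ 2 / (2 * k) / S ≤ i / S := div_le_div_of_nonneg_right hik hS.le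
    have h6 : 0 ≤ (i : ℝ) ^ 2 / (2 * k) / S := by positivity
    have h7 : (W : ℝ) / S * x ≤ (W : ℝ) / S * ((ν : ℝ) / (2 * k)) :=
      mul_le_mul_of_nonneg_left h1 hWS
    have h8 : (W : ℝ) / S * ((ν : ℝ) / (2 * k)) ≤ (W : ℝ) / S * (x + 1) :=
      mul_le_mul_of_nonneg_left h2.le hWS
    have e2 : ((W : ℝ) + i) / S = W / S + i / S := by ring
    rw [e2, abs_le]
    have h9 : 0 ≤ (i : ℝ) / S := by positivity
    constructor <;> nlinarith
  have k1 := key (i - 1) (by omega) (by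
    rw [Nat.cast_sub (by omega), Nat.cast_one, div_le_iff₀ (by linarith)]
    nlinarith)
  have k2 := key i (by omega) (by
    rw [div_le_iff₀ (by linarith)]
    nlinarith)
  rw [Nat.cast_sub (by omega), Nat.cast_one] at k1
  unfold Hw
  have e : (Ps ((W : ℝ) / S * (ν / (2 * (i - 1)) : ℕ)) - Ps ((W : ℝ) / S * (ν / (2 * i) : ℕ))) -
      (Ps (((W * ν + i ^ 2 : ℕ) : ℝ) / S / (2 * ((i : ℝ) - 1))) -
        Ps (((W * ν + i ^ 2 : ℕ) : ℝ) / S / (2 * (i : ℝ)))) =
      (Ps ((W : ℝ) / S * (ν / (2 * (i - 1)) : ℕ)) -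
        Ps (((W * ν + i ^ 2 : ℕ) : ℝ) / S / (2 * ((i : ℝ) - 1)))) -
      (Ps ((W : ℝ) / S * (ν / (2 * i) : ℕ)) -
        Ps (((W * ν + i ^ 2 : ℕ) : ℝ) / S / (2 * (i : ℝ)))) := by ring
  rw [e]
  refine (abs_sub _ _).trans ?_
  linarith

/-- sum over a progression -/
lemma prog_sum (W i N : ℕ) (hW : 1 ≤ W) (g : ℕ → ℝ) :
    ∑ ν ∈ range N, g (W * ν + i ^ 2) =
      ∑ n ∈ (range (W * N + i ^ 2)).filter (fun n => n ≡ i ^ 2 [MOD W] ∧ i ^ 2 ≤ n), g n := by
  apply sum_nbij' (fun ν => W * ν + i ^ 2) (fun n => (n - i ^ 2) / W)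
  · intro ν hν
    rw [mem_range] at hν
    rw [mem_filter, mem_range]
    refine ⟨?_, ?_, by omega⟩
    · have := Nat.mul_lt_mul_of_pos_left hν (by omega : 0 < W)
      omega
    · show (W * ν + i ^ 2) % W = i ^ 2 % W
      rw [Nat.mul_add_mod]
  · intro n hn
    rw [mem_filter, mem_range] at hn
    rw [mem_range, Nat.div_lt_iff_lt_mul (by omega)]
    have : N * W = W * N := mul_comm _ _
    omega
  · intro ν _
    rw [Nat.add_sub_cancel, Nat.mul_div_cancel_left _ (by omega)]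
  · intro n hn
    rw [mem_filter, mem_range] at hn
    have h1 : W ∣ n - i ^ 2 := (Nat.modEq_iff_dvd' hn.2.2).1 hn.2.1.symm
    rw [Nat.mul_div_cancel' h1]
    omega
  · intro ν _
    rfl

/-- **primes in the rows**, deterministic part -/
theorem rows_det (W T i : ℕ) (S ε₁ : ℝ) (hW : 1 ≤ W) (hi : 2 ≤ i) (hS : 0 < S) (hiS : (i : ℝ) ≤ S)
    (hT : 3 * S ≤ W * T)
    (hE : ∀ Y : ℝ, 2 * ((i : ℝ) - 1) * S ≤ Y → Y ≤ 2 * i * S →
      |EPhi Y W (i ^ 2) + LPhi Y / W.totient - c0 * Y / W.totient| ≤ ε₁ * Y / W.totient) :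
    |∑ t ∈ Icc 1 T, wt ((W : ℝ) / S) t * ∑ c ∈ range (2 * t),
      ArithmeticFunction.vonMangoldt (W * (2 * t * i - (c + 1)) + i ^ 2) -
        2 * c0 * S / W.totient| ≤ 2 * ε₁ * S / W.totient +
      (W + i) / S * Chebyshev.psi ((W * (2 * T * i) + i ^ 2 : ℕ) : ℝ) := by
  classical
  have hi2 : (2 : ℝ) ≤ i := by exact_mod_cast hi
  have hWr : (1 : ℝ) ≤ W := by exact_mod_cast hW
  have hlam : 0 ≤ (W : ℝ) / S := by positivity
  have hlamT : 3 ≤ (W : ℝ) / S * T := by
    rw [div_mul_eq_mul_div, le_div_iff₀ hS]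
    exact hT
  have hφ : (1 : ℝ) ≤ Nat.totient W := by exact_mod_cast Nat.totient_pos.mpr (by omega)
  set N1 := W * (2 * T * i) + i ^ 2 with hN1
  set Λ : ℕ → ℝ := fun n => ArithmeticFunction.vonMangoldt n with hΛ
  have hΛ0 : ∀ n, 0 ≤ Λ n := fun n => ArithmeticFunction.vonMangoldt_nonneg
  rw [fsum (fun ν => ArithmeticFunction.vonMangoldt (W * ν + i ^ 2)) _ hlam T i hlamT hi]
  -- replacing the weight
  have s1 : |∑ ν ∈ range (2 * T * i), Λ (W * ν + i ^ 2) *
        (Ps ((W : ℝ) / S * (ν / (2 * (i - 1)) : ℕ)) - Ps ((W : ℝ) / S * (ν / (2 * i) : ℕ))) -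
      ∑ ν ∈ range (2 * T * i), Λ (W * ν + i ^ 2) * Hw S i (W * ν + i ^ 2)| ≤
      (W + i) / S * Chebyshev.psi (N1 : ℝ) := by
    rw [← sum_sub_distrib]
    calc _ ≤ ∑ ν ∈ range (2 * T * i), Λ (W * ν + i ^ 2) * ((W + i) / S) := by
          refine (abs_sum_le_sum_abs _ _).trans (sum_le_sum fun ν _ => ?_)
          rw [← mul_sub, abs_mul, abs_of_nonneg (hΛ0 _)]
          exact mul_le_mul_of_nonneg_left (gdiff W i ν S hS hi) (hΛ0 _)
      _ = (W + i) / S * ∑ ν ∈ range (2 * T * i), Λ (W * ν + i ^ 2) := by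
          rw [← sum_mul, mul_comm]
      _ ≤ (W + i) / S * Chebyshev.psi (N1 : ℝ) := by
          apply mul_le_mul_of_nonneg_left _ (by positivity)
          rw [prog_sum W i _ hW, Pool.Agent.H510R2.Maier.psi_nat]
          apply sum_le_sum_of_subset_of_nonneg
          · intro n hn
            rw [mem_filter, mem_range] at hn
            rw [mem_Icc]
            have : 0 < i ^ 2 := by positivity
            omega
          · intro n _ _
            exact hΛ0 n
  -- the integral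
  have s2 : ∑ ν ∈ range (2 * T * i), Λ (W * ν + i ^ 2) * Hw S i (W * ν + i ^ 2) =
      ∑ n ∈ (range N1).filter (fun n => n ≡ i ^ 2 [MOD W]), Λ n * Hw S i n := by
    rw [prog_sum W i _ hW (fun n => Λ n * Hw S i n)]
    apply sum_subset
    · intro n hn
      rw [mem_filter] at hn ⊢
      exact ⟨hn.1, hn.2.1⟩
    · intro n hn hn'
      rw [mem_filter] at hn hn'
      have h1 : n < i ^ 2 := by
        by_contra hcon
        exact hn' ⟨hn.1, hn.2, by omega⟩
      have h2 : (n : ℝ) ≤ (i : ℝ) ^ 2 := by exact_mod_cast h1.le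
      have h3 : (n : ℝ) / S / (2 * ((i : ℝ) - 1)) ≤ 1 := by
        rw [div_le_one (by linarith), div_le_iff₀ hS]
        nlinarith
      have h4 : (n : ℝ) / S / (2 * (i : ℝ)) ≤ 1 := by
        rw [div_le_one (by linarith), div_le_iff₀ hS]
        nlinarith
      unfold Hw
      rw [Ps_small (by apply div_nonneg (by positivity); linarith) h3,
        Ps_small (by positivity) h4]
      simp
  have ha : (0 : ℝ) < 2 * ((i : ℝ) - 1) := by linarith
  have hab : 2 * ((i : ℝ) - 1) ≤ 2 * (i : ℝ) := by linarith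
  have s3 : ∑ n ∈ (range N1).filter (fun n => n ≡ i ^ 2 [MOD W]), Λ n * Hw S i n =
      ∫ v in (2 * ((i : ℝ) - 1))..(2 * (i : ℝ)),
        ∑ n ∈ (range N1).filter (fun n => n ≡ i ^ 2 [MOD W]),
          Λ n * (Phi ((n : ℝ) / S / v) / v) := by
    rw [intervalIntegral.integral_finsetSum]
    · apply sum_congr rfl
      intro n _
      rw [intervalIntegral.integral_const_mul]
      unfold Hw
      rw [Ps_subst _ _ ((n : ℝ) / S) ha hab (by positivity)]
    · intro n _
      apply ContinuousOn.intervalIntegrable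
      apply ContinuousOn.mul continuousOn_const
      have hne : ∀ v ∈ Set.uIcc (2 * ((i : ℝ) - 1)) (2 * (i : ℝ)), v ≠ 0 := by
        intro v hv
        rw [Set.uIcc_of_le hab] at hv
        linarith [hv.1]
      apply ContinuousOn.div _ continuousOn_id hne
      apply Phi_cont.comp_continuousOn
      exact continuousOn_const.div continuousOn_id hne
  -- the integrand
  have s4 : ∀ v : ℝ, 2 * ((i : ℝ) - 1) ≤ v → v ≤ 2 * (i : ℝ) →
      ∑ n ∈ (range N1).filter (fun n => n ≡ i ^ 2 [MOD W]), Λ n * (Phi ((n : ℝ) / S / v) / v) =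
      (EPhi (v * S) W (i ^ 2) + LPhi (v * S) / W.totient) / v := by
    intro v hv1 hv2
    have hv0 : 0 < v := by linarith
    have e1 : EPhi (v * S) W (i ^ 2) + LPhi (v * S) / W.totient =
        ∑ n ∈ (Icc 1 ⌊3 * (v * S)⌋₊).filter (fun n => n ≡ i ^ 2 [MOD W]),
          Phi (n / (v * S)) * ArithmeticFunction.vonMangoldt n := by
      unfold EPhi LPhi
      ring
    rw [e1, sum_div]
    have e2 : ∀ n : ℕ, (n : ℝ) / S / v = (n : ℝ) / (v * S) := by
      intro n
      rw [div_div, mul_comm S v]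
    symm
    have e3 : ∑ n ∈ (Icc 1 ⌊3 * (v * S)⌋₊).filter (fun n => n ≡ i ^ 2 [MOD W]),
          Phi (n / (v * S)) * ArithmeticFunction.vonMangoldt n / v =
        ∑ n ∈ (Icc 1 ⌊3 * (v * S)⌋₊).filter (fun n => n ≡ i ^ 2 [MOD W]),
          Λ n * (Phi ((n : ℝ) / S / v) / v) := by
      apply sum_congr rfl
      intro n _
      rw [e2]
      ring
    rw [e3]
    apply sum_subset
    · intro n hn
      rw [mem_filter, mem_Icc] at hn
      rw [mem_filter, mem_range]
      refine ⟨?_, hn.2⟩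
      have h1 : (n : ℝ) ≤ 3 * (v * S) := by
        have h2 := hn.1.2
        rwa [Nat.le_floor_iff (by positivity)] at h2
      have h2 : (n : ℝ) < (N1 : ℝ) := by
        rw [hN1]
        push_cast
        have h3 : v * S ≤ 2 * i * S := mul_le_mul_of_nonneg_right hv2 hS.le
        have h4 : 2 * (i : ℝ) * (3 * S) ≤ 2 * i * (W * T) :=
          mul_le_mul_of_nonneg_left hT (by positivity)
        have h5 : (0 : ℝ) < (i : ℝ) ^ 2 := by positivity
        nlinarith
      exact_mod_cast h2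
    · intro n hn hn'
      rw [mem_filter, mem_range] at hn
      rw [mem_filter, mem_Icc] at hn'
      have h0 : Phi ((n : ℝ) / S / v) = 0 := by
        rcases Nat.eq_zero_or_pos n with h | h
        · subst h
          rw [Nat.cast_zero, zero_div, zero_div]
          exact Phi_eq_zero_of_le le_rfl zero_le_one
        · have h1 : ¬ n ≤ ⌊3 * (v * S)⌋₊ := fun h2 => hn' ⟨⟨h, h2⟩, hn.2⟩
          rw [Nat.le_floor_iff (by positivity)] at h1
          push Not at h1
          apply Phi_eq_zero_of_ge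
          rw [e2, le_div_iff₀ (by positivity)]
          have := exp_one_lt_three'
          have hvS : 0 < v * S := by positivity
          nlinarith
      rw [h0]
      simp
  have s5 : |(∫ v in (2 * ((i : ℝ) - 1))..(2 * (i : ℝ)),
        ∑ n ∈ (range N1).filter (fun n => n ≡ i ^ 2 [MOD W]),
          Λ n * (Phi ((n : ℝ) / S / v) / v)) - 2 * c0 * S / W.totient| ≤
      2 * ε₁ * S / W.totient := by
    have e1 : 2 * c0 * S / W.totient =
        ∫ _v in (2 * ((i : ℝ) - 1))..(2 * (i : ℝ)), c0 * S / W.totient := by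
      rw [intervalIntegral.integral_const, smul_eq_mul]
      ring
    have hint : IntervalIntegrable (fun v : ℝ =>
        ∑ n ∈ (range N1).filter (fun n => n ≡ i ^ 2 [MOD W]),
          Λ n * (Phi ((n : ℝ) / S / v) / v)) volume (2 * ((i : ℝ) - 1)) (2 * (i : ℝ)) := by
      apply ContinuousOn.intervalIntegrable
      apply continuousOn_finsetSum
      intro n _
      apply ContinuousOn.mul continuousOn_const
      have hne : ∀ v ∈ Set.uIcc (2 * ((i : ℝ) - 1)) (2 * (i : ℝ)), v ≠ 0 := by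
        intro v hv
        rw [Set.uIcc_of_le hab] at hv
        linarith [hv.1]
      apply ContinuousOn.div _ continuousOn_id hne
      apply Phi_cont.comp_continuousOn
      exact continuousOn_const.div continuousOn_id hne
    rw [e1, ← intervalIntegral.integral_sub hint (by simp), ← Real.norm_eq_abs]
    have h4 : ∀ v ∈ Set.uIoc (2 * ((i : ℝ) - 1)) (2 * (i : ℝ)),
        ‖∑ n ∈ (range N1).filter (fun n => n ≡ i ^ 2 [MOD W]),
          Λ n * (Phi ((n : ℝ) / S / v) / v) - c0 * S / W.totient‖ ≤ ε₁ * S / W.totient := by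
      intro v hv
      rw [Set.uIoc_of_le hab] at hv
      have hv0 : 0 < v := by linarith [hv.1]
      rw [s4 v hv.1.le hv.2, Real.norm_eq_abs]
      have h5 := hE (v * S) (mul_le_mul_of_nonneg_right hv.1.le hS.le)
        (mul_le_mul_of_nonneg_right hv.2 hS.le)
      have e2 : (EPhi (v * S) W (i ^ 2) + LPhi (v * S) / W.totient) / v - c0 * S / W.totient =
          (EPhi (v * S) W (i ^ 2) + LPhi (v * S) / W.totient - c0 * (v * S) / W.totient) / v := by
        field_simp
      rw [e2, abs_div, abs_of_pos hv0, div_le_iff₀ hv0]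
      refine h5.trans (le_of_eq ?_)
      ring
    refine (intervalIntegral.norm_integral_le_of_norm_le_const h4).trans (le_of_eq ?_)
    have e3 : 2 * (i : ℝ) - 2 * ((i : ℝ) - 1) = 2 := by ring
    rw [e3, abs_of_pos (by norm_num)]
    ring
  rw [s2, s3] at s1
  set A := ∑ ν ∈ range (2 * T * i), Λ (W * ν + i ^ 2) *
        (Ps ((W : ℝ) / S * (ν / (2 * (i - 1)) : ℕ)) - Ps ((W : ℝ) / S * (ν / (2 * i) : ℕ))) with hA
  set B := ∫ v in (2 * ((i : ℝ) - 1))..(2 * (i : ℝ)),
        ∑ n ∈ (range N1).filter (fun n => n ≡ i ^ 2 [MOD W]),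
          Λ n * (Phi ((n : ℝ) / S / v) / v) with hB
  calc |A - 2 * c0 * S / W.totient| = |(A - B) + (B - 2 * c0 * S / W.totient)| := by ring_nf
    _ ≤ |A - B| + |B - 2 * c0 * S / W.totient| := abs_add_le _ _
    _ ≤ _ := by linarith

/-- proper prime powers in the rows -/
theorem rows_pp (W T i : ℕ) (lam : ℝ) (hW : 1 ≤ W) (hi : 2 ≤ i) (hl : 0 ≤ lam)
    (hT : 3 ≤ lam * T) :
    ∑ t ∈ Icc 1 T, wt lam t * ∑ c ∈ range (2 * t),
      (if (W * (2 * t * i - (c + 1)) + i ^ 2).Prime then 0 else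
        ArithmeticFunction.vonMangoldt (W * (2 * t * i - (c + 1)) + i ^ 2)) ≤
      Chebyshev.psi ((W * (2 * T * i) + i ^ 2 : ℕ) : ℝ) -
        Chebyshev.theta ((W * (2 * T * i) + i ^ 2 : ℕ) : ℝ) := by
  classical
  set N1 := W * (2 * T * i) + i ^ 2 with hN1
  set g : ℕ → ℝ := fun n => if n.Prime then 0 else ArithmeticFunction.vonMangoldt n with hg
  have hg0 : ∀ n, 0 ≤ g n := by
    intro n
    simp only [hg]
    split_ifs
    · exact le_rfl
    · exact ArithmeticFunction.vonMangoldt_nonneg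
  rw [fsum (fun ν => if (W * ν + i ^ 2).Prime then 0 else
        ArithmeticFunction.vonMangoldt (W * ν + i ^ 2)) _ hl T i hT hi]
  have h1 : ∀ ν : ℕ, Ps (lam * (ν / (2 * (i - 1)) : ℕ)) - Ps (lam * (ν / (2 * i) : ℕ)) ≤ 1 := by
    intro ν
    have h2 : 0 ≤ Ps (lam * (ν / (2 * i) : ℕ)) := Ps_nonneg (by positivity)
    have h3 : Ps (lam * (ν / (2 * (i - 1)) : ℕ)) ≤ 1 := by
      rcases le_total (lam * (ν / (2 * (i - 1)) : ℕ)) 3 with h4 | h4
      · have := Ps_mono h4
        have := Ps_three_le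
        linarith
      · rw [Ps_big h4]; exact Ps_three_le
    linarith
  calc ∑ ν ∈ range (2 * T * i), g (W * ν + i ^ 2) *
        (Ps (lam * (ν / (2 * (i - 1)) : ℕ)) - Ps (lam * (ν / (2 * i) : ℕ)))
      ≤ ∑ ν ∈ range (2 * T * i), g (W * ν + i ^ 2) := by
        apply sum_le_sum
        intro ν _
        calc g (W * ν + i ^ 2) * _ ≤ g (W * ν + i ^ 2) * 1 :=
              mul_le_mul_of_nonneg_left (h1 ν) (hg0 _)
          _ = _ := mul_one _
    _ ≤ ∑ n ∈ Icc 1 N1, g n := by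
        rw [prog_sum W i _ hW]
        apply sum_le_sum_of_subset_of_nonneg
        · intro n hn
          rw [mem_filter, mem_range] at hn
          rw [mem_Icc]
          have : 0 < i ^ 2 := by positivity
          omega
        · intro n _ _
          exact hg0 n
    _ = _ := by
        rw [Pool.Agent.H510R2.Maier.psi_nat]
        unfold Chebyshev.theta
        rw [Nat.floor_natCast, Finset.sum_filter]
        have e : Ioc 0 N1 = Icc 1 N1 := by ext x; simp [Finset.mem_Icc, Finset.mem_Ioc]; omega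
        rw [e, ← sum_sub_distrib]
        apply sum_congr rfl
        intro n _
        simp only [hg]
        split_ifs with h
        · rw [ArithmeticFunction.vonMangoldt_apply_prime h]; ring
        · ring

end Pool.Agent.W2helper20.MQ
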